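import Mathlib
import Pool.Agent.AHI.Closed

/-!
# Periods of a cochain of algebraic forms

Definitions for the theorem that Q1 (de Rham part of the absolute Hodge conjecture) for one
involution gives Q1 for all automorphisms which fix the real algebraic numbers.
-/

namespace Pool.Agent.AHR

open MvPolynomial Pool.Agent.AHC Pool.Agent.AHI Filter
open scoped ContDiff Topology LinearAlgebra.Projectivization

variable {N m : ℕ}

/-- the automorphisms of `ℂ` which fix all algebraic numbers -/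
def GA : Set (ℂ ≃+* ℂ) := {σ | ∀ z ∈ cl ∅, σ z = z}

/-- `W` gives the integrals of the forms over the liftable generators of degree `2k`, and vanishes
on boundaries -/
structure IsPer (F : Fin m → CPoly N) (k : ℕ) (w : FormCochain N) (W : Gen N → ℂ) : Prop where
  int : ∀ x : Gen N, x.1 + x.2.1 = 2 * k → ∀ v, IsLift F x.2.2.1 x.2.2.2 v →
    formIntegral (w x.1 x.2.1 x.2.2.1) v = W x
  bd : ∀ x : Gen N, Liftable F x → x.1 + x.2.1 = 2 * k + 1 → evc W (AHI.bd x) = 0

/-- cycles of degree `2k` made of liftable generators -/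
structure IsCyc (F : Fin m → CPoly N) (k : ℕ) (z : Gen N →₀ ℤ) : Prop where
  lift : ∀ y ∈ z.support, Liftable F y ∧ y.1 + y.2.1 = 2 * k
  bd : Finsupp.linearCombination ℤ (AHI.bd : Gen N → (Gen N →₀ ℤ)) z = 0

/-- the form is a cocycle and all its periods lie in `(2πi)^k A` -/
def PerIn (A : Set ℂ) (F : Fin m → CPoly N) (k : ℕ) (w : FormCochain N) : Prop :=
  ∃ W, IsPer F k w W ∧ ∀ z, IsCyc F k z →
    ∃ a ∈ A, evc W z = (2 * Real.pi * Complex.I) ^ k * a

/-- the rational numbers in `ℂ` -/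
def QC : Set ℂ := Set.range ((↑) : ℚ → ℂ)

/-- the real numbers in `ℂ` -/
def RC : Set ℂ := Set.range ((↑) : ℝ → ℂ)

theorem QC_subset_RC : QC ⊆ RC := by
  rintro _ ⟨q, rfl⟩
  exact ⟨(q : ℝ), by simp⟩

theorem PerIn.mono {A B : Set ℂ} (h : A ⊆ B) {F : Fin m → CPoly N} {k : ℕ} {w : FormCochain N}
    (hw : PerIn A F k w) : PerIn B F k w := by
  obtain ⟨W, h1, h2⟩ := hw
  refine ⟨W, h1, fun z hz => ?_⟩
  obtain ⟨a, ha, h3⟩ := h2 z hz
  exact ⟨a, h ha, h3⟩

theorem refl_mem_GA : RingEquiv.refl ℂ ∈ GA := fun _ _ => rfl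

/-- a property which holds near the identity holds for the identity -/
theorem self_of_nearId {P : (ℂ ≃+* ℂ) → Prop} (h : ∀ᶠ β in nearId, P β) :
    P (RingEquiv.refl ℂ) := by
  rw [nearId, Filter.eventually_comap] at h
  exact h.self_of_nhds _ rfl

/-- a property holds near the identity if it holds for all automorphisms which are close to the
identity on a finite set -/
theorem eventually_nearId_iff {P : (ℂ ≃+* ℂ) → Prop} :
    (∀ᶠ β in nearId, P β) ↔ ∃ X : Finset ℂ, ∃ ε : ℝ, 0 < ε ∧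
      ∀ β : ℂ ≃+* ℂ, (∀ x ∈ X, ‖β x - x‖ < ε) → P β := by
  constructor
  · intro h
    rw [nearId, Filter.eventually_comap, nhds_pi, Filter.Eventually, Filter.mem_pi] at h
    obtain ⟨S, hS, t, ht, hsub⟩ := h
    have h1 : ∀ x ∈ S, ∃ ε > 0, Metric.ball x ε ⊆ t x := fun x _ =>
      Metric.mem_nhds_iff.1 (ht x)
    choose! ε hε hεt using h1
    obtain ⟨δ, hδ, hδε⟩ : ∃ δ > 0, ∀ x ∈ S, δ ≤ ε x := by
      rcases S.eq_empty_or_nonempty with rfl | hne
      · exact ⟨1, one_pos, by simp⟩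
      · obtain ⟨x0, hx0, hmin⟩ := hS.exists_minimalFor ε S hne
        refine ⟨ε x0, hε x0 hx0, fun x hx => ?_⟩
        rcases le_total (ε x0) (ε x) with h2 | h2
        · exact h2
        · exact hmin hx h2
    refine ⟨hS.toFinset, δ, hδ, fun β hβ => ?_⟩
    have h2 : (β : ℂ → ℂ) ∈ S.pi t := by
      intro x hx
      refine hεt x hx ?_
      rw [Metric.mem_ball, dist_eq_norm]
      exact lt_of_lt_of_le (hβ x (hS.mem_toFinset.2 hx)) (hδε x hx)
    exact hsub h2 β rfl
  · rintro ⟨X, ε, hε, h⟩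
    have h1 : ∀ᶠ β : ℂ ≃+* ℂ in nearId, res X β ∈ Metric.ball (inc X) ε :=
      (tendsto_res X).eventually (Metric.ball_mem_nhds _ hε)
    filter_upwards [h1] with β hβ
    refine h β fun x hx => ?_
    rw [← dist_eq_norm]
    exact (dist_pi_lt_iff hε).1 (Metric.mem_ball.1 hβ) ⟨x, hx⟩

end Pool.Agent.AHR
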