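import Mathlib
import Pool.Agent.AHR.Defs

/-!
# Algebraic functions are holomorphic near an independent point

Proof.  (One may take `k = ℚ`.)  `x` is algebraic over the ring `k[t]`; choose
`P : Polynomial (MvPolynomial (Fin n) k)` of minimal degree such that `P(t) ≠ 0` as a polynomial and
`P(t)(x) = 0`.  Then `P'(t)(x) ≠ 0` (the derivative has smaller degree and its leading coefficient
does not vanish at `t`).  The function `E (t', y) = ∑ i, aeval t' (P.coeff i) * y ^ i` is complex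
analytic on `(Fin n → ℂ) × ℂ`, `E (t, x) = 0`, `∂E/∂y (t, x) ≠ 0`: the implicit function theorem
over `ℂ` (`ContDiffAt.implicitFunction`, used over `ℝ` in `AHI.exists_kappa`) gives `φ`, complex
differentiable near `t`, with `φ t = x` and such that `E (t', y) = 0 ↔ φ t' = y` for `(t', y)` near
`(t, x)`.  For `β ∈ GA`: `E (β t, β x) = β (E (t, x)) = 0`.
-/

namespace Pool.Agent.AHR

open Pool.Agent.AHC Pool.Agent.AHI Filter
open scoped Topology ContDiff

private theorem root_contDiff {n : ℕ} (q : MvPolynomial (Fin n) ℚ) :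
    ContDiff ℂ 1 fun t : Fin n → ℂ => MvPolynomial.aeval t q := by
  induction q using MvPolynomial.induction_on with
  | C a =>
    simp only [MvPolynomial.algHom_C]
    exact contDiff_const
  | add p q hp hq =>
    simp only [map_add]
    exact hp.add hq
  | mul_X p i hp =>
    simp only [map_mul, MvPolynomial.aeval_X]
    exact hp.mul (contDiff_apply ℂ ℂ i)

private theorem root_invertible {f : ℂ →L[ℂ] ℂ} (h : ∀ v, f v = 0 → v = 0) : f.IsInvertible := by
  have hinj : Function.Injective (f : ℂ →ₗ[ℂ] ℂ) := by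
    rw [← LinearMap.ker_eq_bot, LinearMap.ker_eq_bot']
    exact h
  refine ⟨(LinearEquiv.ofInjectiveEndo (f : ℂ →ₗ[ℂ] ℂ) hinj).toContinuousLinearEquiv, ?_⟩
  ext
  rfl

private theorem root_poly {n : ℕ} {t : Fin n → ℂ} {x : ℂ} (hx : x ∈ cl (Set.range t)) :
    ∃ (d : ℕ) (q : ℕ → MvPolynomial (Fin n) ℚ),
      ∑ i ∈ Finset.range (d + 1), MvPolynomial.aeval t (q i) * x ^ i = 0 ∧
      ∑ i ∈ Finset.range (d + 1), MvPolynomial.aeval t (q i) * (i * x ^ (i - 1)) ≠ 0 := by
  classical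
  obtain ⟨p, hp0, hpx⟩ : IsAlgebraic (Algebra.adjoin ℚ (Set.range t)) x := hx
  have hex : ∃ d, ∃ p : Polynomial (Algebra.adjoin ℚ (Set.range t)), p ≠ 0 ∧
      Polynomial.aeval x p = 0 ∧ p.natDegree = d := ⟨_, p, hp0, hpx, rfl⟩
  obtain ⟨p, hp0, hpx, hpd⟩ := Nat.find_spec hex
  have hmin : ∀ p' : Polynomial (Algebra.adjoin ℚ (Set.range t)), p' ≠ 0 →
      p'.natDegree < Nat.find hex → Polynomial.aeval x p' ≠ 0 :=
    fun p' h1 h2 h3 => Nat.find_min hex h2 ⟨p', h1, h3, rfl⟩
  have hd : p.natDegree ≠ 0 := by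
    intro h
    have ha := Polynomial.eq_C_of_natDegree_eq_zero h
    have h1 := hpx
    rw [ha, Polynomial.aeval_C] at h1
    have h2 : p.coeff 0 = 0 := Subtype.ext h1
    rw [h2, Polynomial.C_0] at ha
    exact hp0 ha
  have hder0 : p.derivative ≠ 0 := by
    intro h
    exact hd (Polynomial.derivative_eq_zero.1 h)
  have hder : Polynomial.aeval x p.derivative ≠ 0 :=
    hmin _ hder0 (hpd ▸ Polynomial.natDegree_derivative_lt hd)
  have hcoef : ∀ i, ∃ q : MvPolynomial (Fin n) ℚ, MvPolynomial.aeval t q = (p.coeff i : ℂ) := by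
    intro i
    have h : ((p.coeff i : ℂ)) ∈ (MvPolynomial.aeval t : MvPolynomial (Fin n) ℚ →ₐ[ℚ] ℂ).range :=
      (Algebra.adjoin_range_eq_range_aeval ℚ t).le (p.coeff i).2
    exact h
  choose q hq using hcoef
  refine ⟨p.natDegree, q, ?_, ?_⟩
  · rw [← hpx, Polynomial.aeval_eq_sum_range]
    refine Finset.sum_congr rfl fun i _ => ?_
    rw [hq, Algebra.smul_def]
    rfl
  · have h : Polynomial.aeval x p.derivative =
        ∑ i ∈ Finset.range (p.natDegree + 1), (p.coeff i : ℂ) * (i * x ^ (i - 1)) := by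
      rw [Polynomial.derivative_apply, Polynomial.sum_over_range _ (by simp), map_sum]
      refine Finset.sum_congr rfl fun i _ => ?_
      rw [map_mul, Polynomial.aeval_C, map_pow, Polynomial.aeval_X, map_mul, map_natCast]
      change (p.coeff i : ℂ) * i * x ^ (i - 1) = _
      ring
    rw [h] at hder
    intro h2
    refine hder (Eq.trans ?_ h2)
    exact Finset.sum_congr rfl fun i _ => by rw [hq]

theorem exists_root' {n : ℕ} {t : Fin n → ℂ} {x : ℂ} (hx : x ∈ cl (Set.range t)) :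
    ∃ r > 0, ∃ η > 0, ∃ φ : (Fin n → ℂ) → ℂ, DifferentiableOn ℂ φ (Metric.ball t r) ∧ φ t = x ∧
      ∀ β : ℂ ≃+* ℂ, (fun i => β (t i)) ∈ Metric.ball t r → ‖β x - x‖ < η →
        β x = φ fun i => β (t i) := by
  obtain ⟨d, q, h0, h1⟩ := root_poly hx
  set E : (Fin n → ℂ) × ℂ → ℂ :=
    fun v => ∑ i ∈ Finset.range (d + 1), MvPolynomial.aeval v.1 (q i) * v.2 ^ i with hE
  have hE0 : E (t, x) = 0 := h0
  have hc : ContDiff ℂ 1 E := by
    rw [hE]
    refine ContDiff.sum fun i _ => ?_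
    exact ((root_contDiff (q i)).comp contDiff_fst).mul (contDiff_snd.pow i)
  have cdf : ContDiffAt ℂ 1 E (t, x) := hc.contDiffAt
  have pn : (1 : WithTop ℕ∞) ≠ 0 := one_ne_zero
  have hinv : (fderiv ℂ E (t, x) ∘L .inr ℂ (Fin n → ℂ) ℂ).IsInvertible := by
    have e1 : HasFDerivAt E (fderiv ℂ E (t, x)) (t, x) :=
      ((hc.differentiable one_ne_zero) _).hasFDerivAt
    have e2 : HasFDerivAt (fun y : ℂ => (t, y)) (.inr ℂ (Fin n → ℂ) ℂ) x :=
      hasFDerivAt_prodMk_right t x
    have e3 : HasFDerivAt (fun y : ℂ => E (t, y)) (fderiv ℂ E (t, x) ∘L .inr ℂ (Fin n → ℂ) ℂ) x :=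
      HasFDerivAt.comp x e1 e2
    have e4 : HasDerivAt (fun y : ℂ => E (t, y))
        (∑ i ∈ Finset.range (d + 1), MvPolynomial.aeval t (q i) * (i * x ^ (i - 1))) x := by
      simp only [hE]
      refine HasDerivAt.fun_sum fun i _ => ?_
      exact (hasDerivAt_pow i x).const_mul _
    have e5 := e3.hasDerivAt.unique e4
    refine root_invertible fun v hv => ?_
    have e6 : (fderiv ℂ E (t, x) ∘L .inr ℂ (Fin n → ℂ) ℂ) v =
        v * (fderiv ℂ E (t, x) ∘L .inr ℂ (Fin n → ℂ) ℂ) 1 := by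
      rw [← smul_eq_mul, ← map_smul, smul_eq_mul, mul_one]
    rw [e6, e5] at hv
    exact (mul_eq_zero.1 hv).resolve_right h1
  have a1 : ∀ᶠ s in 𝓝 t, ContDiffAt ℂ 1 (cdf.implicitFunction pn hinv) s :=
    (cdf.contDiffAt_implicitFunction pn hinv).eventually (by simp)
  have a2 : cdf.implicitFunction pn hinv t = x := cdf.implicitFunction_apply_self pn hinv
  have a3 := cdf.eventually_apply_eq_iff_implicitFunction pn hinv
  rw [hE0] at a3
  obtain ⟨r1, hr1, b1⟩ := Metric.eventually_nhds_iff_ball.1 a1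
  obtain ⟨r2, hr2, b2⟩ := Metric.eventually_nhds_iff_ball.1 a3
  refine ⟨min r1 r2, lt_min hr1 hr2, r2, hr2, cdf.implicitFunction pn hinv, ?_, a2, ?_⟩
  · intro s hs
    exact ((b1 s (Metric.ball_subset_ball (min_le_left _ _) hs)).differentiableAt
      one_ne_zero).differentiableWithinAt
  · intro β hβ hβx
    have c1 : ((fun i => β (t i), β x) : (Fin n → ℂ) × ℂ) ∈ Metric.ball (t, x) r2 := by
      rw [Metric.mem_ball, Prod.dist_eq, max_lt_iff]
      refine ⟨Metric.mem_ball.1 (Metric.ball_subset_ball (min_le_right _ _) hβ), ?_⟩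
      rw [dist_eq_norm]
      exact hβx
    have c2 : E (fun i => β (t i), β x) = 0 := by
      have c3 : ∀ p : MvPolynomial (Fin n) ℚ,
          MvPolynomial.aeval (fun i => β (t i)) p = β (MvPolynomial.aeval t p) := fun p =>
        (MvPolynomial.comp_aeval_apply t (β : ℂ →+* ℂ).toRatAlgHom p).symm
      have c4 : E (fun i => β (t i), β x) = β (E (t, x)) := by
        simp only [hE, map_sum, map_mul, map_pow, c3]
      rw [c4, hE0, map_zero]
    exact ((b2 _ c1).1 c2).symm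

theorem exists_root {n : ℕ} {t : Fin n → ℂ} {x : ℂ} (hx : x ∈ cl (Set.range t)) :
    ∃ r > 0, ∃ η > 0, ∃ φ : (Fin n → ℂ) → ℂ, DifferentiableOn ℂ φ (Metric.ball t r) ∧ φ t = x ∧
      ∀ β ∈ GA, (fun i => β (t i)) ∈ Metric.ball t r → ‖β x - x‖ < η →
        β x = φ fun i => β (t i) := by
  obtain ⟨r, hr, η, hη, φ, h1, h2, h3⟩ := exists_root' hx
  exact ⟨r, hr, η, hη, φ, h1, h2, fun β _ => h3 β⟩

end Pool.Agent.AHR
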