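import Mathlib
import Pool.Agent.AHR.Defs
import Pool.Agent.AHC.Abs

/-!
# Automorphisms of the algebraic numbers extend to automorphisms of `ℂ` fixing a finite set

If `Y` is a finite subset of `ℂ`, then there is a finite set `N` of algebraic numbers such that
every automorphism `κ` of `ℂ` which fixes `N` agrees on the algebraic numbers with an automorphism
which fixes `Y`.
-/

namespace Pool.Agent.AHR

open Pool.Agent.AHC Pool.Agent.AHI

/-- automorphisms of `ℂ` over a subfield permute the roots of a minimal polynomial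
transitively -/
theorem exists_aut_root1 {K : Type} [Field K] [Algebra K ℂ] {y w : ℂ} (hint : IsIntegral K y)
    (hw : Polynomial.aeval w (minpoly K y) = 0) :
    ∃ h : ℂ ≃+* ℂ, (∀ x : K, h (algebraMap K ℂ x) = algebraMap K ℂ x) ∧ h w = y := by
  have hirr : Fact (Irreducible (minpoly K y)) := ⟨minpoly.irreducible hint⟩
  let S := AdjoinRoot (minpoly K y)
  let φ : S →ₐ[K] ℂ := AdjoinRoot.liftAlgHom (minpoly K y) (Algebra.ofId K ℂ) w hw
  let ψ : S →ₐ[K] ℂ := AdjoinRoot.liftAlgHom (minpoly K y) (Algebra.ofId K ℂ) y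
    (minpoly.aeval K y)
  have hfin : Algebra.FiniteType K S := by
    have : Module.Finite K S := (AdjoinRoot.powerBasis (minpoly.ne_zero hint)).finite
    infer_instance
  obtain ⟨α, hα⟩ := exists_aut (R := K) (S := S) (algebraMap K S).injective
    trdeg_lt_aleph0_of_finiteType φ.toRingHom ψ.toRingHom φ.toRingHom.injective
    ψ.toRingHom.injective (by
      ext x
      change φ (algebraMap K S x) = ψ (algebraMap K S x)
      rw [AlgHom.commutes, AlgHom.commutes])
  refine ⟨α, fun x => ?_, ?_⟩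
  · have h1 := hα (algebraMap K S x)
    change α (φ _) = ψ _ at h1
    rw [AlgHom.commutes, AlgHom.commutes] at h1
    exact h1
  · have h1 := hα (AdjoinRoot.root _)
    have h2 : φ (AdjoinRoot.root _) = w := AdjoinRoot.liftAlgHom_root _ _ _ _
    have h3 : ψ (AdjoinRoot.root _) = y := AdjoinRoot.liftAlgHom_root _ _ _ _
    change α (φ _) = ψ _ at h1
    rwa [h2, h3] at h1

/-- an element of the field generated over the algebraic numbers by a set `Z` is fixed by all
automorphisms which fix `Z` and a certain finite set of algebraic numbers -/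
theorem exists_finset_fix (Z : Set ℂ) {c : ℂ} (hc : c ∈ IntermediateField.adjoin (clF ∅) Z) :
    ∃ N : Finset ℂ, (∀ z ∈ N, z ∈ cl ∅) ∧ ∀ κ : ℂ ≃+* ℂ, (∀ z ∈ N, κ z = z) →
      (∀ z ∈ Z, κ z = z) → κ c = c := by
  classical
  induction hc using IntermediateField.adjoin_induction with
  | mem x hx => exact ⟨∅, by simp, fun κ _ h => h x hx⟩
  | algebraMap x =>
    refine ⟨{(x : ℂ)}, ?_, ?_⟩
    · intro z hz
      rw [Finset.mem_singleton.1 hz]
      exact x.2
    · intro κ h _
      exact h _ (Finset.mem_singleton_self _)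
  | add x y _ _ hx hy =>
    obtain ⟨N1, h1, h2⟩ := hx
    obtain ⟨N2, h3, h4⟩ := hy
    refine ⟨N1 ∪ N2, ?_, ?_⟩
    · intro z hz
      rcases Finset.mem_union.1 hz with h | h
      · exact h1 z h
      · exact h3 z h
    · intro κ h h'
      rw [map_add, h2 κ (fun z hz => h z (Finset.mem_union_left _ hz)) h',
        h4 κ (fun z hz => h z (Finset.mem_union_right _ hz)) h']
  | inv x _ hx =>
    obtain ⟨N1, h1, h2⟩ := hx
    exact ⟨N1, h1, fun κ h h' => by rw [map_inv₀, h2 κ h h']⟩
  | mul x y _ _ hx hy =>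
    obtain ⟨N1, h1, h2⟩ := hx
    obtain ⟨N2, h3, h4⟩ := hy
    refine ⟨N1 ∪ N2, ?_, ?_⟩
    · intro z hz
      rcases Finset.mem_union.1 hz with h | h
      · exact h1 z h
      · exact h3 z h
    · intro κ h h'
      rw [map_mul, h2 κ (fun z hz => h z (Finset.mem_union_left _ hz)) h',
        h4 κ (fun z hz => h z (Finset.mem_union_right _ hz)) h']

theorem exists_fix {Y : Set ℂ} (hY : Y.Finite) : ∃ N : Finset ℂ, (∀ z ∈ N, z ∈ cl ∅) ∧
    ∀ κ : ℂ ≃+* ℂ, (∀ z ∈ N, κ z = z) →
      ∃ κ₁ : ℂ ≃+* ℂ, (∀ z ∈ cl ∅, κ₁ z = κ z) ∧ ∀ y ∈ Y, κ₁ y = y := by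
  classical
  obtain ⟨n, t, ht, -, hYt⟩ := exists_basis ∅ hY
  rw [Set.empty_union] at hYt
  have hT : MC.Indep (Set.range t) := by
    have := ht.indep MC.empty_indep
    rw [Set.empty_union] at this
    exact this.1
  suffices H : ∀ Y' : Finset ℂ, (Y' : Set ℂ) ⊆ cl (Set.range t) →
      ∃ N : Finset ℂ, (∀ z ∈ N, z ∈ cl ∅) ∧ ∀ κ : ℂ ≃+* ℂ, (∀ z ∈ N, κ z = z) →
      ∃ κ₁ : ℂ ≃+* ℂ, (∀ z ∈ cl ∅, κ₁ z = κ z) ∧ ∀ y ∈ Set.range t ∪ Y', κ₁ y = y by
    obtain ⟨N, h1, h2⟩ := H hY.toFinset (by rwa [Set.Finite.coe_toFinset])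
    refine ⟨N, h1, fun κ hκ => ?_⟩
    obtain ⟨κ₁, h3, h4⟩ := h2 κ hκ
    exact ⟨κ₁, h3, fun y hy => h4 y (Or.inr (by simpa using hy))⟩
  intro Y'
  induction Y' using Finset.induction_on with
  | empty =>
    intro _
    refine ⟨∅, by simp, fun κ _ => ?_⟩
    obtain ⟨κ₁, h1, h2⟩ := exists_fix_indep hT κ
    exact ⟨κ₁, h2, fun y hy => h1 y (by simpa using hy)⟩
  | insert y Y' _ ih =>
    intro hsub
    obtain ⟨N, hN, hκ⟩ := ih ((Finset.coe_subset.2 (Finset.subset_insert _ _)).trans hsub)
    let K : IntermediateField (clF ∅) ℂ :=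
      IntermediateField.adjoin (clF ∅) (Set.range t ∪ (Y' : Set ℂ))
    have hy : y ∈ cl (Set.range t) := hsub (by simp)
    have hint : IsIntegral K y := by
      have h1 : IsAlgebraic (Algebra.adjoin ℚ (Set.range t)) y := hy
      have h2 : ∀ x : Algebra.adjoin ℚ (Set.range t), (x : ℂ) ∈ K := by
        intro x
        have h3 : Algebra.adjoin ℚ (Set.range t) ≤
            (K.restrictScalars ℚ).toSubalgebra := by
          refine Algebra.adjoin_le ?_
          intro z hz
          exact IntermediateField.subset_adjoin _ _ (Or.inl hz)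
        exact h3 x.2
      let f : Algebra.adjoin ℚ (Set.range t) →+* K :=
        { toFun := fun x => ⟨x, h2 x⟩
          map_one' := rfl
          map_mul' := fun _ _ => rfl
          map_zero' := rfl
          map_add' := fun _ _ => rfl }
      have h4 : IsAlgebraic K y := by
        refine IsAlgebraic.ringHom_of_comp_eq (S := K) f (RingHom.id ℂ) h1 ?_ rfl
        intro a b hab
        exact Subtype.ext (congrArg (fun z : K => (z : ℂ)) hab)
      exact h4.isIntegral
    set p := minpoly K y with hp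
    have hc : ∀ i, ∃ N : Finset ℂ, (∀ z ∈ N, z ∈ cl ∅) ∧ ∀ κ : ℂ ≃+* ℂ,
        (∀ z ∈ N, κ z = z) → (∀ z ∈ Set.range t ∪ (Y' : Set ℂ), κ z = z) →
        κ (p.coeff i : ℂ) = p.coeff i := fun i => exists_finset_fix _ (p.coeff i).2
    choose M hM1 hM2 using hc
    refine ⟨N ∪ (Finset.range (p.natDegree + 1)).biUnion M, ?_, ?_⟩
    · intro z hz
      rcases Finset.mem_union.1 hz with h | h
      · exact hN z h
      · obtain ⟨i, -, hi⟩ := Finset.mem_biUnion.1 h
        exact hM1 i z hi
    · intro κ hfix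
      obtain ⟨κ₁, h1, h2⟩ := hκ κ fun z hz => hfix z (Finset.mem_union_left _ hz)
      have h3 : ∀ i ∈ Finset.range (p.natDegree + 1), κ₁ (p.coeff i : ℂ) = p.coeff i := by
        intro i hi
        refine hM2 i κ₁ (fun z hz => ?_) h2
        rw [h1 z (hM1 i z hz)]
        exact hfix z (Finset.mem_union_right _ (Finset.mem_biUnion.2 ⟨i, hi, hz⟩))
      have h4 : Polynomial.aeval (κ₁ y) p = 0 := by
        have h5 : Polynomial.aeval y p = 0 := minpoly.aeval _ _
        have h6 := congrArg κ₁ h5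
        rw [Polynomial.aeval_eq_sum_range, map_sum, map_zero] at h6
        rw [Polynomial.aeval_eq_sum_range, ← h6]
        refine Finset.sum_congr rfl fun i hi => ?_
        rw [Algebra.smul_def, Algebra.smul_def, map_mul, map_pow]
        congr 1
        exact (h3 i hi).symm
      obtain ⟨h, h5, h6⟩ := exists_aut_root1 hint h4
      have h7 : ∀ z ∈ K, h z = z := fun z hz => h5 ⟨z, hz⟩
      refine ⟨κ₁.trans h, fun z hz => ?_, fun z hz => ?_⟩
      · rw [RingEquiv.trans_apply, h1 z hz]
        have hκz : κ z ∈ cl ∅ := map_cl_empty κ hz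
        exact h7 _ (K.algebraMap_mem ⟨κ z, hκz⟩)
      · rw [RingEquiv.trans_apply]
        have hz' : z = y ∨ z ∈ Set.range t ∪ (Y' : Set ℂ) := by
          rcases hz with hz | hz
          · exact Or.inr (Or.inl hz)
          · rcases Finset.mem_insert.1 (Finset.mem_coe.1 hz) with rfl | hz
            · exact Or.inl rfl
            · exact Or.inr (Or.inr hz)
        rcases hz' with rfl | hz'
        · exact h6
        · rw [h2 z hz']
          exact h7 z (IntermediateField.subset_adjoin _ _ hz')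

end Pool.Agent.AHR
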