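import Mathlib
import Pool.Agent.AHR.Defs
import Pool.Agent.AHI.Near

/-!
# Automorphisms near the identity with given values on an independent family

Proof.  Let `α := {t' // SeqInd ∅ t'}` and `l := comap Subtype.val (𝓝 t)`.  By induction on a list
of the elements of `X` one constructs a family `Θ : α → ℂ ≃+* ℂ` in `GA` with `Θ t' (t i) = t' i`
and `Θ t' x → x` along `l` for all `x` in the list.  Start: `exists_move_seq`.  Step: let `K` be the
field generated over `clF ∅` by `t` and the previous elements, `p` the minimal polynomial over `K`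
of the new element `x`.  The coefficients `c` of `p` satisfy `Θ t' c → c` (use
`AHI.limField` with `σ = id`), so the polynomial `Θ t' p` has a root tending to `x`
(`AHI.pow_le_norm_eval`, as in `AHI.near_tendsto`); it is `Θ t' x'` for a root `x'` of `p`.  Choose
for each `t'` the root `x'` of `p` for which `‖Θ t' x' - x‖` is minimal and an automorphism `h` of
`ℂ` over `K` with `h x = x'` (use `AHC.exists_aut` with `R = K`, `S = AdjoinRoot p`, or
`IntermediateField.adjoin`), and replace `Θ t'` by `h.trans (Θ t')`.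
-/

namespace Pool.Agent.AHR

open Pool.Agent.AHC Pool.Agent.AHI Filter
open scoped Topology

/-- two roots of the minimal polynomial over a subfield differ by an automorphism over the
subfield -/
theorem exists_aut_root (K : IntermediateField (clF ∅) ℂ) {x x' : ℂ} (hx : IsIntegral K x)
    (hx' : Polynomial.aeval x' (minpoly K x) = 0) :
    ∃ h : ℂ ≃+* ℂ, (∀ y ∈ K, h y = y) ∧ h x = x' := by
  have hirr : Fact (Irreducible (minpoly K x)) := ⟨minpoly.irreducible hx⟩
  let φ : AdjoinRoot (minpoly K x) →+* ℂ :=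
    AdjoinRoot.lift (algebraMap K ℂ) x (minpoly.aeval K x)
  let ψ : AdjoinRoot (minpoly K x) →+* ℂ :=
    AdjoinRoot.lift (algebraMap K ℂ) x' hx'
  have hφ1 : ∀ y : K, φ (AdjoinRoot.of _ y) = (y : ℂ) := fun y => AdjoinRoot.lift_of _
  have hψ1 : ∀ y : K, ψ (AdjoinRoot.of _ y) = (y : ℂ) := fun y => AdjoinRoot.lift_of _
  have hφ2 : φ (AdjoinRoot.root _) = x := AdjoinRoot.lift_root _
  have hψ2 : ψ (AdjoinRoot.root _) = x' := AdjoinRoot.lift_root _
  have hft : Algebra.trdeg K (AdjoinRoot (minpoly K x)) < Cardinal.aleph0 :=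
    trdeg_lt_aleph0_of_finiteType
  obtain ⟨α, hα⟩ := exists_aut (R := K) (S := AdjoinRoot (minpoly K x))
    (algebraMap K (AdjoinRoot (minpoly K x))).injective hft
    φ ψ φ.injective ψ.injective (by
      ext y
      change φ (AdjoinRoot.of _ y) = ψ (AdjoinRoot.of _ y)
      rw [hφ1, hψ1])
  refine ⟨α, fun y hy => ?_, ?_⟩
  · have h := hα (AdjoinRoot.of _ ⟨y, hy⟩)
    rw [hφ1, hψ1] at h
    exact h
  · have h := hα (AdjoinRoot.root _)
    rw [hφ2, hψ2] at h
    exact h

/-- the elements before the step -/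
theorem isIntegral_of_mem_cl {n : ℕ} {t : Fin n → ℂ} {K : IntermediateField (clF ∅) ℂ}
    (ht : Set.range t ⊆ (K : Set ℂ)) {x : ℂ} (hx : x ∈ cl (Set.range t)) : IsIntegral K x := by
  have h1 : ∀ y ∈ Algebra.adjoin ℚ (Set.range t), y ∈ K := by
    intro y hy
    have h2 : Algebra.adjoin ℚ (Set.range t) ≤ (K.restrictScalars ℚ).toSubalgebra :=
      Algebra.adjoin_le ht
    exact h2 hy
  let f : Algebra.adjoin ℚ (Set.range t) →+* K :=
    { toFun := fun y => ⟨y.1, h1 y.1 y.2⟩
      map_one' := rfl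
      map_mul' := fun _ _ => rfl
      map_zero' := rfl
      map_add' := fun _ _ => rfl }
  have h3 : IsAlgebraic K ((RingHom.id ℂ) x) := by
    refine IsAlgebraic.ringHom_of_comp_eq (S := K) f (RingHom.id ℂ) hx ?_ ?_
    · intro a b hab
      have h4 : ((f a : K) : ℂ) = ((f b : K) : ℂ) := congrArg Subtype.val hab
      exact Subtype.ext h4
    · rfl
  exact h3.isIntegral

/-- the family of automorphisms -/
theorem exists_family {n : ℕ} {t : Fin n → ℂ} (ht : SeqInd ∅ t) {X : Set ℂ} (hX : X.Finite)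
    (hXt : X ⊆ cl (Set.range t)) :
    ∃ Θ : {t' : Fin n → ℂ // SeqInd ∅ t'} → ℂ ≃+* ℂ, (∀ a, Θ a ∈ GA) ∧
      (∀ a i, Θ a (t i) = a.1 i) ∧
      ∀ x ∈ X, Tendsto (fun a => Θ a x) (comap Subtype.val (𝓝 t)) (𝓝 x) := by
  induction X, hX using Set.Finite.induction_on with
  | empty =>
    have h1 : ∀ a : {t' : Fin n → ℂ // SeqInd ∅ t'}, ∃ α : ℂ ≃+* ℂ, (∀ z ∈ cl ∅, α z = z) ∧
        ∀ i, α (t i) = a.1 i := fun a => exists_move_seq t a.1 ht a.2
    choose Θ hΘ1 hΘ2 using h1
    exact ⟨Θ, hΘ1, hΘ2, fun x hx => absurd hx (Set.notMem_empty x)⟩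
  | @insert x X _ _ ih =>
    obtain ⟨Θ, h1, h2, h3⟩ := ih ((Set.subset_insert _ _).trans hXt)
    set l : Filter {t' : Fin n → ℂ // SeqInd ∅ t'} := comap Subtype.val (𝓝 t) with hl
    have h0 : ∀ y ∈ clF ∅, Tendsto (fun a => Θ a y) l (𝓝 ((RingEquiv.refl ℂ) y)) := by
      intro y hy
      have h4 : (fun a => Θ a y) = fun _ => y := by
        funext a
        exact h1 a y hy
      rw [h4]
      exact tendsto_const_nhds
    let K : IntermediateField (clF ∅) ℂ := IntermediateField.adjoin (clF ∅) (Set.range t ∪ X)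
    have hK : K ≤ limField l Θ (RingEquiv.refl ℂ) (clF ∅) h0 := by
      refine IntermediateField.adjoin_le_iff.2 ?_
      rintro y (⟨i, rfl⟩ | hy)
      · change Tendsto (fun a => Θ a (t i)) l (𝓝 (t i))
        have h4 : (fun a : {t' : Fin n → ℂ // SeqInd ∅ t'} => Θ a (t i)) = fun a => a.1 i := by
          funext a
          exact h2 a i
        rw [h4]
        exact ((continuous_apply i).tendsto t).comp tendsto_comap
      · exact h3 y hy
    have htK : Set.range t ⊆ (K : Set ℂ) := fun y hy =>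
      IntermediateField.subset_adjoin _ _ (Or.inl hy)
    have hXK : X ⊆ (K : Set ℂ) := fun y hy =>
      IntermediateField.subset_adjoin _ _ (Or.inr hy)
    have hint : IsIntegral K x := isIntegral_of_mem_cl htK (hXt (Set.mem_insert _ _))
    set p := minpoly K x with hp
    have hpm : p.Monic := minpoly.monic hint
    have hd : p.natDegree ≠ 0 := (minpoly.natDegree_pos hint).ne'
    have hp0 : p ≠ 0 := hpm.ne_zero
    have h4 : ∀ a, ∃ x' : ℂ, Polynomial.aeval x' p = 0 ∧
        ∀ y : ℂ, Polynomial.aeval y p = 0 → ‖Θ a x' - x‖ ≤ ‖Θ a y - x‖ := by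
      intro a
      obtain ⟨x', hx', hmin⟩ := Finset.exists_min_image (p.rootSet_finite ℂ).toFinset
        (fun x' => ‖Θ a x' - x‖) ⟨x, by
          rw [Set.Finite.mem_toFinset, Polynomial.mem_rootSet]
          exact ⟨hp0, minpoly.aeval _ _⟩⟩
      rw [Set.Finite.mem_toFinset, Polynomial.mem_rootSet] at hx'
      refine ⟨x', hx'.2, fun y hy => hmin y ?_⟩
      rw [Set.Finite.mem_toFinset, Polynomial.mem_rootSet]
      exact ⟨hp0, hy⟩
    choose r hr hrmin using h4
    have h5 : ∀ a, ∃ h : ℂ ≃+* ℂ, (∀ y ∈ K, h y = y) ∧ h x = r a := fun a =>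
      exists_aut_root K hint (hr a)
    choose h hhK hhx using h5
    refine ⟨fun a => (h a).trans (Θ a), fun a => ?_, fun a i => ?_, fun y hy => ?_⟩
    · intro z hz
      rw [RingEquiv.trans_apply, hhK a z (K.algebraMap_mem ⟨z, hz⟩)]
      exact h1 a z hz
    · rw [RingEquiv.trans_apply, hhK a (t i) (htK ⟨i, rfl⟩)]
      exact h2 a i
    · rcases hy with rfl | hy
      · have h6 : (fun a => ((h a).trans (Θ a)) y) = fun a => Θ a (r a) := by
          funext a
          rw [RingEquiv.trans_apply, hhx a]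
        rw [h6]
        let f : {t' : Fin n → ℂ // SeqInd ∅ t'} → K →+* ℂ :=
          fun a => (Θ a : ℂ →+* ℂ).comp (algebraMap K ℂ)
        have hev : Tendsto (fun a => Polynomial.eval₂ (f a) y p) l (𝓝 0) := by
          have e3 : Polynomial.eval₂ (algebraMap K ℂ) y p = 0 := minpoly.aeval _ _
          rw [← e3]
          simp only [Polynomial.eval₂_eq_sum_range]
          refine tendsto_finsetSum _ fun k _ => ?_
          have h7 : Tendsto (fun a => Θ a (p.coeff k : ℂ)) l (𝓝 (p.coeff k : ℂ)) :=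
            hK (p.coeff k).2
          exact h7.mul_const _
        rw [Metric.tendsto_nhds]
        intro ε hε
        have h7 : ∀ᶠ a in l, ‖Polynomial.eval₂ (f a) y p‖ < (ε / 2) ^ p.natDegree := by
          have h8 := (tendsto_norm_zero.comp hev)
          have h9 : (0 : ℝ) < (ε / 2) ^ p.natDegree := by positivity
          exact h8.eventually (gt_mem_nhds h9)
        filter_upwards [h7] with a h8
        have h9 : ∃ s, (p.map (f a)).IsRoot s ∧ ‖y - s‖ < ε / 2 := by
          by_contra hcon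
          push Not at hcon
          have h10 := pow_le_norm_eval (p.map (f a)) (hpm.map _) y
            (by positivity : 0 ≤ ε / 2) hcon
          rw [hpm.natDegree_map, Polynomial.eval_map] at h10
          linarith
        obtain ⟨s, hs1, hs2⟩ := h9
        have h10 : Polynomial.aeval ((Θ a).symm s) p = 0 := by
          have h11 := Polynomial.hom_eval₂ p (algebraMap K ℂ) (Θ a : ℂ →+* ℂ) ((Θ a).symm s)
          have h12 : ((Θ a : ℂ →+* ℂ)) ((Θ a).symm s) = s := (Θ a).apply_symm_apply s
          rw [h12] at h11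
          have h13 : Polynomial.eval₂ (f a) s p = 0 := by
            rw [← Polynomial.eval_map]
            exact hs1
          rw [h13] at h11
          exact (map_eq_zero (Θ a)).1 h11
        have h11 := hrmin a _ h10
        rw [RingEquiv.apply_symm_apply] at h11
        rw [dist_eq_norm]
        have h12 : ‖s - y‖ = ‖y - s‖ := norm_sub_rev _ _
        linarith
      · have h6 : (fun a => ((h a).trans (Θ a)) y) = fun a => Θ a y := by
          funext a
          rw [RingEquiv.trans_apply, hhK a y (hXK hy)]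
        rw [h6]
        exact h3 y hy

theorem exists_nearby {n : ℕ} {t : Fin n → ℂ} (ht : SeqInd ∅ t) {X : Set ℂ} (hX : X.Finite)
    (hXt : X ⊆ cl (Set.range t)) {η : ℝ} (hη : 0 < η) :
    ∃ δ > 0, ∀ t' : Fin n → ℂ, SeqInd ∅ t' → (∀ i, ‖t' i - t i‖ < δ) →
      ∃ β ∈ GA, (∀ i, β (t i) = t' i) ∧ ∀ x ∈ X, ‖β x - x‖ < η := by
  obtain ⟨Θ, h1, h2, h3⟩ := exists_family ht hX hXt
  have h4 : ∀ᶠ a in comap Subtype.val (𝓝 t), ∀ x ∈ X, ‖Θ a x - x‖ < η := by
    refine (eventually_all_finite hX).2 fun x hx => ?_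
    have h5 := (Metric.tendsto_nhds.1 (h3 x hx)) η hη
    filter_upwards [h5] with a ha
    rwa [dist_eq_norm] at ha
  rw [eventually_comap] at h4
  obtain ⟨δ, hδ, hball⟩ := Metric.eventually_nhds_iff.1 h4
  refine ⟨δ, hδ, fun t' ht' hd => ?_⟩
  have h5 : dist t' t < δ := by
    rw [dist_pi_lt_iff hδ]
    intro i
    rw [dist_eq_norm]
    exact hd i
  exact ⟨Θ ⟨t', ht'⟩, h1 _, fun i => h2 _ i, hball h5 ⟨t', ht'⟩ rfl⟩

end Pool.Agent.AHR
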