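import Mathlib
import Pool.Agent.AHR.Nby
import Pool.Agent.AHR.FixF
import Pool.Agent.AHC.Two

/-!
# Products of two elements of an open set of automorphisms of `ℂ`
-/

namespace Pool.Agent.AHR

open Pool.Agent.AHC Pool.Agent.AHI

/-- every ball contains a number outside the algebraic closure of a countable set -/
theorem exists_ball_notMem_cl' {F : Set ℂ} (hF : F.Countable) (c : ℂ) {δ : ℝ}
    (hδ : 0 < δ) : ∃ z : ℂ, z ∉ cl F ∧ ‖z - c‖ < δ := by
  have h1 : Dense (cl F)ᶜ := (cl_countable hF).dense_compl ℝ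
  obtain ⟨z, hz, h2⟩ := h1.exists_dist_lt c hδ
  refine ⟨z, hz, ?_⟩
  rw [← dist_eq_norm, dist_comm]
  exact h2

/-- every ball contains families independent over a countable set -/
theorem exists_seqInd_near' {F : Set ℂ} (hF : F.Countable) {δ : ℝ} (hδ : 0 < δ) :
    ∀ (n : ℕ) (c : Fin n → ℂ), ∃ b : Fin n → ℂ, SeqInd F b ∧ ∀ i, ‖b i - c i‖ < δ
  | 0, _ => ⟨Fin.elim0, fun i => i.elim0, fun i => i.elim0⟩
  | n + 1, c => by
    obtain ⟨b, hb, hbc⟩ := exists_seqInd_near' hF hδ n (fun i => c i.castSucc)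
    obtain ⟨z, hz, hzc⟩ := exists_ball_notMem_cl' (hF.union (Set.countable_range b))
      (c (Fin.last n)) hδ
    refine ⟨Fin.snoc b z, SeqInd.snoc ?_ ?_, fun i => ?_⟩
    · simpa using hb
    · simpa using hz
    · induction i using Fin.lastCases with
      | last => simpa using hzc
      | cast i => simpa using hbc i

/-- exchange: if `t` is independent and `v` is independent over `t`, then `t` is independent
over `v` -/
theorem seqInd_swap' {n m : ℕ} {t : Fin n → ℂ} {v : Fin m → ℂ} (ht : SeqInd ∅ t)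
    (hv : SeqInd (Set.range t) v) : SeqInd (Set.range v) t := by
  have h6 := ht.indep MC.empty_indep
  rw [Set.empty_union] at h6
  have h7 := hv.indep h6.1
  refine SeqInd.of_indep ht.injective ?_ h7.2.symm
  rw [Set.union_comm]
  exact h7.1

/-- an automorphism close to `α` on `X`, with prescribed action on the algebraic numbers, which
moves the basis `t` to a position independent of a countable set -/
theorem exists_moved' (α : ℂ ≃+* ℂ) {X : Set ℂ} (hX : X.Finite) {ε : ℝ}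
    (hε : 0 < ε) {n : ℕ} {t : Fin n → ℂ} (ht : SeqInd ∅ t) (hXt : X ⊆ cl (Set.range t)) :
    ∃ N : Finset ℂ, (∀ z ∈ N, z ∈ cl ∅) ∧ ∀ κ : ℂ ≃+* ℂ, (∀ z ∈ N, κ z = z) →
      ∀ F : Set ℂ, F.Countable → ∃ β : ℂ ≃+* ℂ, (∀ z ∈ cl ∅, β z = κ (α z)) ∧
        (∀ x ∈ X, ‖β x - α x‖ < ε) ∧ SeqInd F (fun i => β (t i)) := by
  have h1 : SeqInd ∅ (fun i => α (t i)) := by
    have := ht.map α
    rwa [Set.image_empty] at this
  have h2 : α '' X ⊆ cl (Set.range fun i => α (t i)) := by
    have h3 := Set.image_mono (f := α) hXt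
    rw [image_cl, ← Set.range_comp] at h3
    exact h3
  obtain ⟨δ, hδ, h3⟩ := exists_nearby h1 (hX.image α) h2 hε
  obtain ⟨N, hN, h4⟩ := exists_fix ((hX.image α).union (Set.finite_range fun i => α (t i)))
  refine ⟨N, hN, fun κ hκ F hF => ?_⟩
  obtain ⟨κ₁, h5, h6⟩ := h4 κ hκ
  obtain ⟨v, hv1, hv2⟩ := exists_seqInd_near' hF hδ n (fun i => α (t i))
  obtain ⟨β, hβ, h7, h8⟩ := h3 v (hv1.mono (Set.empty_subset _)) hv2
  refine ⟨(α.trans κ₁).trans β, fun z hz => ?_, fun x hx => ?_, ?_⟩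
  · have h9 : α z ∈ cl ∅ := map_cl_empty α hz
    rw [RingEquiv.trans_apply, RingEquiv.trans_apply, h5 _ h9]
    exact hβ _ (map_cl_empty κ h9)
  · rw [RingEquiv.trans_apply, RingEquiv.trans_apply, h6 _ (Or.inl ⟨x, hx, rfl⟩)]
    exact h8 _ ⟨x, hx, rfl⟩
  · have h9 : (fun i => ((α.trans κ₁).trans β) (t i)) = v := by
      funext i
      rw [RingEquiv.trans_apply, RingEquiv.trans_apply, h6 _ (Or.inr ⟨i, rfl⟩), h7]
    rw [h9]
    exact hv1

/-- every automorphism which agrees with `α²` on a certain finite set of algebraic numbers is a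
product of two automorphisms which are close to `α` on `X` -/
theorem exists_two' (α : ℂ ≃+* ℂ) (X : Finset ℂ) {ε : ℝ} (hε : 0 < ε) :
    ∃ N : Finset ℂ, (∀ z ∈ N, z ∈ cl ∅) ∧ ∀ g : ℂ ≃+* ℂ, (∀ z ∈ N, g z = α (α z)) →
      ∃ σ₁ σ₂ : ℂ ≃+* ℂ, (∀ x ∈ X, ‖σ₁ x - α x‖ < ε) ∧ (∀ x ∈ X, ‖σ₂ x - α x‖ < ε) ∧
        g = σ₁.trans σ₂ := by
  classical
  obtain ⟨n, t, ht1, -, ht3⟩ := exists_basis ∅ X.finite_toSet
  rw [Set.empty_union] at ht3
  obtain ⟨N, hN, hmov⟩ := exists_moved' α X.finite_toSet hε ht1 ht3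
  refine ⟨N.image fun z => α.symm (α.symm z), fun z hz => ?_, fun g hg => ?_⟩
  · obtain ⟨w, hw, rfl⟩ := Finset.mem_image.1 hz
    exact map_cl_empty α.symm (map_cl_empty α.symm (hN w hw))
  obtain ⟨β₁, h10, h11, h12⟩ := hmov (RingEquiv.refl ℂ) (fun z _ => rfl) _
    (Set.countable_range t)
  obtain ⟨β₂, h20, h21, h22⟩ := hmov ((α.symm.trans α.symm).trans g) (fun z hz => by
    rw [RingEquiv.trans_apply, RingEquiv.trans_apply,
      hg _ (Finset.mem_image.2 ⟨z, hz, rfl⟩), RingEquiv.apply_symm_apply,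
      RingEquiv.apply_symm_apply]) _ (Set.countable_range fun i => g (t i))
  have h10' : ∀ z ∈ cl ∅, β₁ z = α z := h10
  have h20' : ∀ z ∈ cl ∅, β₂ z = g (α.symm z) := by
    intro z hz
    rw [h20 z hz, RingEquiv.trans_apply, RingEquiv.trans_apply, RingEquiv.symm_apply_apply]
  -- the family `δ ∘ t`
  let δ : ℂ ≃+* ℂ := β₂.trans g.symm
  have hδ : ∀ z, δ z = g.symm (β₂ z) := fun _ => rfl
  have hδ0 : ∀ z ∈ cl ∅, δ z = α.symm z := by
    intro z hz
    rw [hδ, h20' z hz, RingEquiv.symm_apply_apply]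
  have h3 : SeqInd (Set.range t) (fun i => δ (t i)) := by
    have h4 := h22.map g.symm
    have h5 : g.symm '' (Set.range fun i => g (t i)) = Set.range t := by
      rw [← Set.range_comp]
      congr 1
      funext i
      exact g.symm_apply_apply (t i)
    rw [h5] at h4
    exact h4
  -- the family `β₁.symm ∘ t`
  have h6 : SeqInd (Set.range t) (fun i => β₁.symm (t i)) := by
    have h4 := (seqInd_swap' ht1 h12).map β₁.symm
    have h5 : β₁.symm '' (Set.range fun i => β₁ (t i)) = Set.range t := by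
      rw [← Set.range_comp]
      congr 1
      funext i
      exact β₁.symm_apply_apply (t i)
    rw [h5] at h4
    exact h4
  obtain ⟨α', h7, h8⟩ := glue h3.indOver h6.indOver (δ.symm.trans β₁.symm)
    (fun z hz => by
      have h9 : δ.symm z = α z := by
        rw [RingEquiv.symm_apply_eq, hδ0 _ (map_cl_empty α hz), RingEquiv.symm_apply_apply]
      rw [RingEquiv.trans_apply, h9, RingEquiv.symm_apply_eq, h10' z hz])
    (X.finite_toSet.image δ)
    (by
      have h9 := Set.image_mono (f := δ) ht3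
      rw [image_cl, ← Set.range_comp] at h9
      exact h9)
    (by
      have h9 := Set.image_mono (f := β₁.symm) ht3
      rw [image_cl, ← Set.range_comp] at h9
      refine subset_trans ?_ h9
      rintro _ ⟨_, ⟨x, hx, rfl⟩, rfl⟩
      refine ⟨x, hx, ?_⟩
      rw [RingEquiv.trans_apply, RingEquiv.symm_apply_apply])
  have h10 : ∀ x ∈ X, α' x = x := fun x hx => h7 x (ht3 (Finset.mem_coe.2 hx))
  have h13 : ∀ x ∈ X, α' (δ x) = β₁.symm x := by
    intro x hx
    rw [h8 (δ x) ⟨x, Finset.mem_coe.2 hx, rfl⟩, RingEquiv.trans_apply,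
      RingEquiv.symm_apply_apply]
  refine ⟨α'.trans β₁, (α'.trans β₁).symm.trans g, fun x hx => ?_, fun x hx => ?_, ?_⟩
  · rw [RingEquiv.trans_apply, h10 x hx]
    exact h11 x (Finset.mem_coe.2 hx)
  · have h14 : (α'.trans β₁).symm x = δ x := by
      rw [RingEquiv.symm_apply_eq, RingEquiv.trans_apply, h13 x hx, RingEquiv.apply_symm_apply]
    rw [RingEquiv.trans_apply, h14, hδ, RingEquiv.apply_symm_apply]
    exact h21 x (Finset.mem_coe.2 hx)
  · ext z
    rw [RingEquiv.trans_apply, RingEquiv.trans_apply, RingEquiv.symm_apply_apply]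

end Pool.Agent.AHR
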