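import Mathlib
import Pool.Agent.AHR.Defs
import Pool.Agent.AHC.Two

/-!
# On a complex line through an independent point almost all points are independent

Proof.  `SeqInd ∅ t'` holds iff `t'` is algebraically independent over `ℚ`
(`SeqInd.indep`, `SeqInd.of_indep`, `SeqInd.injective`, `MC.Indep`).  If `t + s u` is not
algebraically independent, there is a nonzero `P : MvPolynomial (Fin n) ℚ` with
`aeval (t + s u) P = 0`.  There are countably many `P`, and for each of them `s ↦ aeval (t + s u) P`
is a polynomial in `s` whose value at `0` is not `0`, so it has finitely many zeros.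
-/

namespace Pool.Agent.AHR

open Pool.Agent.AHC Pool.Agent.AHI

/-- `SeqInd ∅` is algebraic independence over `ℚ` -/
private theorem seqInd_iff {n : ℕ} {b : Fin n → ℂ} :
    SeqInd ∅ b ↔ AlgebraicIndependent ℚ b := by
  constructor
  · intro h
    obtain ⟨h1, -⟩ := h.indep MC.empty_indep
    rw [Set.empty_union, AlgebraicIndependent.matroid_indep_iff] at h1
    exact AlgebraicIndependent.of_subtype_range h.injective h1
  · intro h
    refine SeqInd.of_indep h.injective ?_ (by simp)
    rw [Set.empty_union, AlgebraicIndependent.matroid_indep_iff]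
    exact h.to_subtype_range

private theorem finite_zeros {n : ℕ} {t : Fin n → ℂ} (u : Fin n → ℂ)
    (P : MvPolynomial (Fin n) ℚ) (hP : MvPolynomial.aeval t P ≠ 0) :
    {s : ℂ | MvPolynomial.aeval (fun i => t i + s * u i) P = 0}.Finite := by
  let Q : Polynomial ℂ :=
    MvPolynomial.aeval (fun i => Polynomial.C (t i) + Polynomial.X * Polynomial.C (u i)) P
  have hQ : ∀ s : ℂ, Q.eval s = MvPolynomial.aeval (fun i => t i + s * u i) P := by
    intro s
    have h1 := MvPolynomial.comp_aeval_apply
      (fun i : Fin n => (Polynomial.C (t i) + Polynomial.X * Polynomial.C (u i) : Polynomial ℂ))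
      ((Polynomial.aeval s : Polynomial ℂ →ₐ[ℂ] ℂ).restrictScalars ℚ) P
    have h2 : (((Polynomial.aeval s : Polynomial ℂ →ₐ[ℂ] ℂ).restrictScalars ℚ) Q) = Q.eval s := by
      rw [AlgHom.restrictScalars_apply, Polynomial.coe_aeval_eq_eval]
    rw [← h2]
    rw [h1]
    congr 2
    funext i
    rw [AlgHom.restrictScalars_apply, Polynomial.coe_aeval_eq_eval]
    simp
    exact mul_comm _ _
  have hQ0 : Q ≠ 0 := by
    intro h
    apply hP
    have h3 := hQ 0
    rw [h, Polynomial.eval_zero] at h3
    simp only [zero_mul, add_zero] at h3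
    exact h3.symm
  have h4 := Polynomial.finite_setOfPred_isRoot hQ0
  refine h4.subset fun s hs => ?_
  show Q.eval s = 0
  rw [hQ s]
  exact hs

theorem countable_not_seqInd {n : ℕ} {t : Fin n → ℂ} (u : Fin n → ℂ) (ht : SeqInd ∅ t) :
    {s : ℂ | ¬ SeqInd ∅ fun i => t i + s * u i}.Countable := by
  have ht' := seqInd_iff.1 ht
  have h1 : {s : ℂ | ¬ SeqInd ∅ fun i => t i + s * u i} ⊆
      ⋃ P : {P : MvPolynomial (Fin n) ℚ // P ≠ 0},
        {s : ℂ | MvPolynomial.aeval (fun i => t i + s * u i) P.1 = 0} := by
    intro s hs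
    rw [Set.mem_ofPred_eq, seqInd_iff, algebraicIndependent_iff] at hs
    push Not at hs
    obtain ⟨P, hP1, hP2⟩ := hs
    exact Set.mem_iUnion.2 ⟨⟨P, hP2⟩, hP1⟩
  refine Set.Countable.mono h1 ?_
  have : Countable (MvPolynomial (Fin n) ℚ) := by
    have h2 : Countable ((Fin n →₀ ℕ) →₀ ℚ) := inferInstance
    exact AddMonoidAlgebra.coeffEquiv.countable_iff.2 h2
  refine Set.countable_iUnion fun P => ?_
  refine (finite_zeros u P.1 fun h => P.2 ?_).countable
  exact (algebraicIndependent_iff.1 ht') P.1 h

end Pool.Agent.AHR
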