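import Mathlib
import Pool.Agent.AHR.Nby
import Pool.Agent.AHR.Root
import Pool.Agent.AHR.Cnt

/-!
# Holomorphic curves of automorphisms
-/

namespace Pool.Agent.AHR

open Pool.Agent.AHC Pool.Agent.AHI Filter
open scoped Topology

theorem exists_pos_le {ι : Type} [Finite ι] (r : ι → ℝ) (hr : ∀ i, 0 < r i) :
    ∃ a > 0, ∀ i, a ≤ r i := by
  rcases isEmpty_or_nonempty ι with h | h
  · exact ⟨1, one_pos, fun i => h.elim i⟩
  · obtain ⟨i, hi⟩ := Finite.exists_min r
    exact ⟨r i, hr i, hi⟩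

theorem exists_curve (X : Finset ℂ) {U : Set (X → ℂ)} (hU : U ∈ 𝓝 (inc X)) :
    ∀ᶠ β₀ in nearId, ∃ γ : ℂ → (X → ℂ),
      DifferentiableOn ℂ γ (Metric.ball 0 2) ∧ γ 0 = inc X ∧ γ 1 = res X β₀ ∧
      (∀ s ∈ Metric.ball (0 : ℂ) 2, γ s ∈ U) ∧
      Metric.ball 0 2 ⊆ closure {s : ℂ | s ∈ Metric.ball 0 2 ∧ ∃ β ∈ GA, res X β = γ s} := by
  obtain ⟨n, t, ht, htX, hXt⟩ := exists_basis ∅ X.finite_toSet
  rw [Set.empty_union] at hXt
  choose r hr η hη φ hφd hφt hφβ using fun x : X => exists_root' (hXt x.2)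
  obtain ⟨r0, hr0, hr0'⟩ := exists_pos_le r hr
  obtain ⟨η0, hη0, hη0'⟩ := exists_pos_le η hη
  -- the neighbourhood
  have hcont : ContinuousAt (fun t' => (fun x => φ x t' : X → ℂ)) t := by
    rw [continuousAt_pi]
    intro x
    exact (hφd x).continuousOn.continuousAt (Metric.ball_mem_nhds t (hr x))
  have hval : (fun x => φ x t : X → ℂ) = inc X := by
    funext x
    exact hφt x
  have hU' : ∀ᶠ t' in 𝓝 t, (fun x => φ x t' : X → ℂ) ∈ U := by
    refine hcont.eventually_mem ?_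
    rw [hval]
    exact hU
  obtain ⟨r1, hr1, hr1'⟩ := Metric.eventually_nhds_iff_ball.1 hU'
  obtain ⟨δ, hδ, hnear⟩ := exists_nearby ht X.finite_toSet hXt hη0
  set R : ℝ := min (min r0 r1) δ / 2 with hR
  have hRpos : 0 < R := by positivity
  have hR0 : 2 * R ≤ r0 := by
    have : min (min r0 r1) δ ≤ r0 := (min_le_left _ _).trans (min_le_left _ _)
    linarith
  have hR1 : 2 * R ≤ r1 := by
    have : min (min r0 r1) δ ≤ r1 := (min_le_left _ _).trans (min_le_right _ _)
    linarith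
  have hRδ : 2 * R ≤ δ := by
    have : min (min r0 r1) δ ≤ δ := min_le_right _ _
    linarith
  rw [eventually_nearId_iff]
  refine ⟨X, min R η0, lt_min hRpos hη0, fun β₀ hβ₀ => ?_⟩
  let u : Fin n → ℂ := fun i => β₀ (t i) - t i
  have hu : ∀ i, ‖u i‖ < R := fun i =>
    (hβ₀ (t i) (htX ⟨i, rfl⟩)).trans_le (min_le_left _ _)
  let T : ℂ → (Fin n → ℂ) := fun s i => t i + s * u i
  have hT : ∀ s ∈ Metric.ball (0 : ℂ) 2, ∀ i, ‖T s i - t i‖ < 2 * R := by
    intro s hs i
    have h1 : T s i - t i = s * u i := by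
      simp only [T]
      ring
    rw [h1, norm_mul]
    have h2 : ‖s‖ < 2 := by simpa using hs
    calc ‖s‖ * ‖u i‖ ≤ 2 * ‖u i‖ := mul_le_mul_of_nonneg_right h2.le (norm_nonneg _)
      _ < 2 * R := mul_lt_mul_of_pos_left (hu i) two_pos
  have hTb : ∀ s ∈ Metric.ball (0 : ℂ) 2, T s ∈ Metric.ball t (2 * R) := by
    intro s hs
    rw [Metric.mem_ball, dist_pi_lt_iff (by positivity)]
    intro i
    rw [dist_eq_norm]
    exact hT s hs i
  have hTd : Differentiable ℂ T := by
    rw [differentiable_pi]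
    intro i
    simp only [T]
    fun_prop
  refine ⟨fun s x => φ x (T s), ?_, ?_, ?_, ?_, ?_⟩
  · rw [differentiableOn_pi]
    intro x
    refine (hφd x).comp hTd.differentiableOn fun s hs => ?_
    exact Metric.ball_subset_ball (hR0.trans (hr0' x)) (hTb s hs)
  · have h0 : T 0 = t := by
      funext i
      simp [T]
    simp only [h0]
    exact hval
  · have h1 : T 1 = fun i => β₀ (t i) := by
      funext i
      simp [T, u]
    funext x
    have h3 : (fun i => β₀ (t i)) ∈ Metric.ball t (r x) := by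
      rw [← h1]
      refine Metric.ball_subset_ball (hR0.trans (hr0' x)) (hTb 1 ?_)
      simp
    have h2 := hφβ x β₀ h3
      ((hβ₀ x x.2).trans_le ((min_le_right _ _).trans (hη0' x)))
    change φ x (T 1) = β₀ x
    rw [h1]
    exact h2.symm
  · intro s hs
    exact hr1' (T s) (Metric.ball_subset_ball hR1 (hTb s hs))
  · have hdense : Dense {s : ℂ | SeqInd ∅ (T s)} := by
      have h1 := (countable_not_seqInd u ht).dense_compl ℂ
      have h2 : {s : ℂ | ¬ SeqInd ∅ fun i => t i + s * u i}ᶜ = {s : ℂ | SeqInd ∅ (T s)} := by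
        ext s
        simp only [Set.mem_compl_iff, Set.mem_ofPred_eq, not_not]
        rfl
      rwa [h2] at h1
    refine (hdense.open_subset_closure_inter Metric.isOpen_ball).trans (closure_mono ?_)
    rintro s ⟨hs1, hs2⟩
    refine ⟨hs1, ?_⟩
    obtain ⟨β, hβ1, hβ2, hβ3⟩ := hnear (T s) hs2 fun i => (hT s hs1 i).trans_le hRδ
    refine ⟨β, hβ1, ?_⟩
    funext x
    have h1 : (fun i => β (t i)) = T s := funext hβ2
    have h2 := hφβ x β (by
      rw [h1]
      exact Metric.ball_subset_ball (hR0.trans (hr0' x)) (hTb s hs1))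
      ((hβ3 x x.2).trans_le (hη0' x))
    change β x = _
    rw [h2, h1]

end Pool.Agent.AHR
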