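import Mathlib

/-!
# Integrals depending holomorphically on a parameter

`differentiableOn_integral`: for `s₀ ∈ U` choose a closed ball `B ⊆ U` around `s₀`; the derivative of
`Φ` is bounded on a neighbourhood of the compact set `B × K` contained in `O`; use
`hasDerivAt_integral_of_dominated_loc_of_deriv_le` (or the `fderiv` version over `ℂ`), where
for almost all `t` the function `s ↦ Φ (s, t)` is complex differentiable at all `s ∈ U`.

`hol_fderiv`: the derivative `D (s, t) = fderiv ℝ B (s, t) (0, e)` of `B` in the direction `(0, e)`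
is differentiable, and by the symmetry of the second derivative
`fderiv ℝ D (s, t) (i u, 0) = D² B (i u, 0) (0, e) = D² B (0, e) (i u, 0)` is the derivative in the
direction `(0, e)` of `(s, t) ↦ fderiv ℝ B (s, t) (i u, 0) = i fderiv ℝ B (s, t) (u, 0)`.
-/

namespace Pool.Agent.AHR

open MeasureTheory Filter
open scoped ContDiff Topology

variable {q : ℕ}

/-- the real derivative of a partial function in the first variable -/
private theorem hint_hasFDerivAt_fst {Φ : ℂ × (Fin q → ℝ) → ℂ} {x : ℂ × (Fin q → ℝ)}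
    (h : DifferentiableAt ℝ Φ x) :
    HasFDerivAt (fun s => Φ (s, x.2))
      ((fderiv ℝ Φ x).comp (ContinuousLinearMap.inl ℝ ℂ (Fin q → ℝ))) x.1 := by
  have h1 : HasFDerivAt (fun s : ℂ => (s, x.2)) (ContinuousLinearMap.inl ℝ ℂ (Fin q → ℝ)) x.1 :=
    hasFDerivAt_prodMk_left x.1 x.2
  have h2 : HasFDerivAt Φ (fderiv ℝ Φ x) ((fun s : ℂ => (s, x.2)) x.1) := h.hasFDerivAt
  exact h2.comp x.1 h1

/-- the complex derivative in the first variable is a real directional derivative -/
private theorem hint_hasDerivAt {Φ : ℂ × (Fin q → ℝ) → ℂ} {x : ℂ × (Fin q → ℝ)}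
    (h : DifferentiableAt ℝ Φ x) (hc : DifferentiableAt ℂ (fun s => Φ (s, x.2)) x.1) :
    HasDerivAt (fun s => Φ (s, x.2)) (fderiv ℝ Φ x (1, 0)) x.1 := by
  have h1 := hint_hasFDerivAt_fst h
  have h2 : HasFDerivAt (fun s => Φ (s, x.2))
      ((fderiv ℂ (fun s => Φ (s, x.2)) x.1).restrictScalars ℝ) x.1 :=
    hc.hasFDerivAt.restrictScalars ℝ
  have h3 := h1.unique h2
  have h4 : fderiv ℝ Φ x (1, 0) = deriv (fun s => Φ (s, x.2)) x.1 := by
    have := congrArg (fun L : ℂ →L[ℝ] ℂ => L 1) h3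
    simpa using this
  rw [h4]
  exact hc.hasDerivAt

/-- the Cauchy Riemann equation for the real derivative in the first variable -/
private theorem hint_cr {Φ : ℂ × (Fin q → ℝ) → ℂ} {x : ℂ × (Fin q → ℝ)}
    (h : DifferentiableAt ℝ Φ x) (hc : DifferentiableAt ℂ (fun s => Φ (s, x.2)) x.1) :
    fderiv ℝ Φ x (Complex.I, 0) = Complex.I * fderiv ℝ Φ x (1, 0) := by
  have h1 := hint_hasFDerivAt_fst h
  have h2 : HasFDerivAt (fun s => Φ (s, x.2))
      ((fderiv ℂ (fun s => Φ (s, x.2)) x.1).restrictScalars ℝ) x.1 :=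
    hc.hasFDerivAt.restrictScalars ℝ
  have h3 := h1.unique h2
  have h4 : fderiv ℝ Φ x (1, 0) = fderiv ℂ (fun s => Φ (s, x.2)) x.1 1 := by
    have := congrArg (fun L : ℂ →L[ℝ] ℂ => L 1) h3
    simpa using this
  have h5 : fderiv ℝ Φ x (Complex.I, 0) = fderiv ℂ (fun s => Φ (s, x.2)) x.1 Complex.I := by
    have := congrArg (fun L : ℂ →L[ℝ] ℂ => L Complex.I) h3
    simpa using this
  rw [h4, h5]
  simp

/-- an integral over a compact set which depends holomorphically on a parameter -/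
theorem differentiableOn_integral {U : Set ℂ} (hU : IsOpen U) {K : Set (Fin q → ℝ)}
    (hK : IsCompact K) {O : Set (ℂ × (Fin q → ℝ))} (hO : IsOpen O) (hUK : U ×ˢ K ⊆ O)
    {Φ : ℂ × (Fin q → ℝ) → ℂ} (hΦ : ContDiffOn ℝ 1 Φ O)
    (hhol : ∀ᵐ t ∂(volume.restrict K), ∀ s ∈ U, DifferentiableAt ℂ (fun s => Φ (s, t)) s) :
    DifferentiableOn ℂ (fun s => ∫ t in K, Φ (s, t)) U := by
  intro s₀ hs₀
  obtain ⟨ε, hε, hB⟩ := Metric.nhds_basis_closedBall.mem_iff.mp (hU.mem_nhds hs₀)
  have hdiff : ∀ x ∈ O, DifferentiableAt ℝ Φ x := fun x hx =>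
    (hΦ.contDiffAt (hO.mem_nhds hx)).differentiableAt (by norm_num)
  have hcont : ContinuousOn (fderiv ℝ Φ) O := hΦ.continuousOn_fderiv_of_isOpen hO le_rfl
  have hC : IsCompact (Metric.closedBall s₀ ε ×ˢ K) := (isCompact_closedBall s₀ ε).prod hK
  have hCO : Metric.closedBall s₀ ε ×ˢ K ⊆ O := fun x hx => hUK ⟨hB hx.1, hx.2⟩
  have hcont' : ContinuousOn (fun x => fderiv ℝ Φ x (1, 0)) O :=
    hcont.clm_apply continuousOn_const
  obtain ⟨M, hM⟩ := hC.exists_bound_of_continuousOn (hcont'.mono hCO)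
  have hslice : ∀ s ∈ U, ContinuousOn (fun t => (s, t)) K := fun s _ =>
    (Continuous.prodMk_right s).continuousOn
  have hmaps : ∀ s ∈ U, Set.MapsTo (fun t => (s, t)) K O := fun s hs t ht => hUK ⟨hs, ht⟩
  have hFc : ∀ s ∈ U, ContinuousOn (fun t => Φ (s, t)) K := fun s hs =>
    hΦ.continuousOn.comp (hslice s hs) (hmaps s hs)
  have hF'c : ∀ s ∈ U, ContinuousOn (fun t => fderiv ℝ Φ (s, t) (1, 0)) K := fun s hs =>
    hcont'.comp (hslice s hs) (hmaps s hs)
  have hmem : ∀ᵐ t ∂(volume.restrict K), t ∈ K := ae_restrict_mem hK.measurableSet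
  have key := hasDerivAt_integral_of_dominated_loc_of_deriv_le
    (μ := volume.restrict K) (F := fun s t => Φ (s, t)) (x₀ := s₀)
    (F' := fun s t => fderiv ℝ Φ (s, t) (1, 0)) (bound := fun _ => M)
    (s := Metric.ball s₀ ε) (Metric.ball_mem_nhds s₀ hε)
    (by
      filter_upwards [hU.mem_nhds hs₀] with s hs
      exact (hFc s hs).aestronglyMeasurable hK.measurableSet)
    ((hFc s₀ hs₀).integrableOn_compact hK)
    ((hF'c s₀ hs₀).aestronglyMeasurable hK.measurableSet)
    (by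
      filter_upwards [hmem] with t ht s hs
      exact hM (s, t) ⟨Metric.ball_subset_closedBall hs, ht⟩)
    (by
      have : IsFiniteMeasure (volume.restrict K) := ⟨by
        rw [Measure.restrict_apply_univ]; exact hK.measure_lt_top⟩
      exact integrable_const M)
    (by
      filter_upwards [hmem, hhol] with t ht hh s hs
      have hsU : s ∈ U := hB (Metric.ball_subset_closedBall hs)
      exact hint_hasDerivAt (x := (s, t)) (hdiff (s, t) (hUK ⟨hsU, ht⟩)) (hh s hsU))
  exact key.2.differentiableAt.differentiableWithinAt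

/-- if a smooth function is holomorphic in the first variable, then so are its derivatives in the
direction of the second variable -/
theorem hol_fderiv {O : Set (ℂ × (Fin q → ℝ))} (hO : IsOpen O) {B : ℂ × (Fin q → ℝ) → ℂ}
    (hB : ContDiffOn ℝ ∞ B O) (hhol : ∀ x ∈ O, DifferentiableAt ℂ (fun s => B (s, x.2)) x.1)
    (e : Fin q → ℝ) {x : ℂ × (Fin q → ℝ)} (hx : x ∈ O) :
    DifferentiableAt ℂ (fun s => fderiv ℝ B (s, x.2) (0, e)) x.1 := by
  have hBx : ContDiffAt ℝ ∞ B x := hB.contDiffAt (hO.mem_nhds hx)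
  have hdiff : ∀ y ∈ O, DifferentiableAt ℝ B y := fun y hy =>
    (hB.contDiffAt (hO.mem_nhds hy)).differentiableAt (by simp)
  have hD : DifferentiableAt ℝ (fderiv ℝ B) x := by
    have : ContDiffAt ℝ 1 (fderiv ℝ B) x := hBx.fderiv_right (by norm_cast)
    exact this.differentiableAt (by norm_num)
  have hsymm : IsSymmSndFDerivAt ℝ B x :=
    (hBx.of_le (m := 2) (WithTop.coe_le_coe.mpr le_top)).isSymmSndFDerivAt (by simp)
  have hDv : ∀ v w : ℂ × (Fin q → ℝ),
      fderiv ℝ (fun y => fderiv ℝ B y v) x w = fderiv ℝ (fderiv ℝ B) x w v := by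
    intro v w
    have := hD.hasFDerivAt.clm_apply (hasFDerivAt_const v x)
    rw [this.fderiv]
    simp
  have hDd : ∀ v : ℂ × (Fin q → ℝ), DifferentiableAt ℝ (fun y => fderiv ℝ B y v) x := fun v =>
    (hD.hasFDerivAt.clm_apply (hasFDerivAt_const v x)).differentiableAt
  have h1 := hint_hasFDerivAt_fst (Φ := fun y => fderiv ℝ B y (0, e)) (x := x) (hDd (0, e))
  rw [differentiableAt_complex_iff_differentiableAt_real]
  refine ⟨h1.differentiableAt, ?_⟩
  rw [h1.fderiv]
  have e1 : fderiv ℝ (fun y => fderiv ℝ B y (0, e)) x (Complex.I, 0)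
      = fderiv ℝ (fun y => fderiv ℝ B y (Complex.I, 0)) x (0, e) := by
    rw [hDv, hDv]; exact hsymm _ _
  have e2 : fderiv ℝ (fun y => fderiv ℝ B y (0, e)) x (1, 0)
      = fderiv ℝ (fun y => fderiv ℝ B y (1, 0)) x (0, e) := by
    rw [hDv, hDv]; exact hsymm _ _
  have e3 : (fun y => fderiv ℝ B y (Complex.I, 0))
      =ᶠ[𝓝 x] fun y => Complex.I * fderiv ℝ B y (1, 0) := by
    filter_upwards [hO.mem_nhds hx] with y hy
    exact hint_cr (hdiff y hy) (hhol y hy)
  have e4 : fderiv ℝ (fun y => fderiv ℝ B y (Complex.I, 0)) x (0, e)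
      = Complex.I * fderiv ℝ (fun y => fderiv ℝ B y (1, 0)) x (0, e) := by
    rw [e3.fderiv_eq]
    rw [fderiv_const_mul (hDd (1, 0))]
    simp
  simp only [ContinuousLinearMap.comp_apply, ContinuousLinearMap.inl_apply, smul_eq_mul]
  rw [e1, e2, e4]

end Pool.Agent.AHR
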