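import Mathlib
import Pool.Agent.AHR.HInt
import Pool.Agent.AHR.Defs

/-!
# The integrals of algebraic forms along a holomorphic curve of automorphisms are holomorphic

Proof.  Apply `differentiableOn_integral` with `U = ball 0 2`, `K = simplexDomain q`,
`O = {(s, t) | s ∈ U, ∀ a, V (γ s, bary t) (I a) ≠ 0}` and `Φ` the integrand (see the proof of
`AHI.tendsto_TI` for the smoothness and for the rewriting of the inner derivatives as
`fderiv ℝ G (s, t) (0, Pi.single a 1)`).  Here `(s, t) ↦ V (γ s, bary t)` is smooth on `U × ℝ^q`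
because a holomorphic function is smooth (`DifferentiableOn.contDiffOn`, restrict scalars).  Almost
all `t ∈ K` are interior (`AHI.ae_mem_interior`); for interior `t` the functions
`s ↦ valE X f (γ s) (V (γ s, bary t))` are holomorphic (quotients of polynomials in `γ s` and
`V (γ s, bary t)`) and so are their derivatives in `t` by `hol_fderiv` on
`O' = U × interior K`.
-/

namespace Pool.Agent.AHR

open MvPolynomial Pool.Agent.AHC Pool.Agent.AHI Filter MeasureTheory
open scoped ContDiff ComplexConjugate Topology LinearAlgebra.Projectivization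

variable {N q : ℕ}

/-- a determinant with smooth entries is smooth -/
theorem contDiffOn_det {𝕜 E : Type*} [NontriviallyNormedField 𝕜] [NormedAddCommGroup E]
    [NormedSpace 𝕜 E] {A : Type*} [NormedField A] [NormedAlgebra 𝕜 A] {k : WithTop ℕ∞} {O : Set E}
    {M : Fin q → Fin q → E → A} (h : ∀ a b, ContDiffOn 𝕜 k (M a b) O) :
    ContDiffOn 𝕜 k (fun x => Matrix.det (Matrix.of fun a b => M a b x)) O := by
  simp only [Matrix.det_apply', Matrix.of_apply]
  refine ContDiffOn.sum fun σ _ => ?_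
  refine ContDiffOn.mul contDiffOn_const ?_
  exact contDiffOn_prod fun i _ => h _ _

/-- a determinant with differentiable entries is differentiable -/
theorem differentiableAt_det {M : Fin q → Fin q → ℂ → ℂ} {s : ℂ}
    (h : ∀ a b, DifferentiableAt ℂ (M a b) s) :
    DifferentiableAt ℂ (fun x => Matrix.det (Matrix.of fun a b => M a b x)) s := by
  simp only [Matrix.det_apply, Matrix.of_apply]
  refine DifferentiableAt.fun_sum fun σ _ => ?_
  refine DifferentiableAt.const_smul ?_ _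
  exact DifferentiableAt.fun_finsetProd fun i _ => h _ _

/-- the value of a rational function along a holomorphic curve is holomorphic -/
theorem differentiableAt_valE {X : Finset ℂ} {f : RatFun N} {p : ℕ}
    {I : Fin (p + 1) → Fin (N + 1)} (hf : f.IsRegularOn I) {γ : ℂ → (X → ℂ)}
    {W : ℂ → (Fin (N + 1) → ℂ)} {s : ℂ} (hγ : DifferentiableAt ℂ γ s)
    (hW : DifferentiableAt ℂ W s) (hne : ∀ a, W s (I a) ≠ 0) :
    DifferentiableAt ℂ (fun s => valE X f (γ s) (W s)) s := by
  unfold valE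
  have hγ' := differentiableAt_pi.1 hγ
  have hW' := differentiableAt_pi.1 hW
  have h4 : ∏ i, W s i ^ f.den i ≠ 0 := by
    rw [Finset.prod_ne_zero_iff]
    intro i _
    by_cases hi : f.den i = 0
    · rw [hi, pow_zero]
      exact one_ne_zero
    · obtain ⟨a, rfl⟩ := hf.2 i hi
      exact pow_ne_zero _ (hne a)
  refine DifferentiableAt.fun_div ?_ ?_ h4
  · unfold ev
    refine DifferentiableAt.fun_sum fun u _ => ?_
    refine DifferentiableAt.fun_mul ?_ ?_
    · unfold AHI.ext
      by_cases hc : coeff u f.num ∈ X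
      · simp only [dif_pos hc]
        exact hγ' _
      · simp only [dif_neg hc]
        exact differentiableAt_const _
    · exact DifferentiableAt.fun_finsetProd fun i _ => (hW' i).fun_pow _
  · exact DifferentiableAt.fun_finsetProd fun i _ => (hW' i).fun_pow _

theorem hol_TI {X : Finset ℂ} {f : RatFun N} {g : Fin q → RatFun N} {p : ℕ}
    {I : Fin (p + 1) → Fin (N + 1)} (hf : f.IsRegularOn I) (hg : ∀ b, (g b).IsRegularOn I)
    {V : (X → ℂ) × (Fin (q + 1) → ℝ) → (Fin (N + 1) → ℂ)} (hV : ContDiff ℝ ∞ V)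
    {γ : ℂ → (X → ℂ)} (hγ : DifferentiableOn ℂ γ (Metric.ball 0 2))
    (hne : ∀ s ∈ Metric.ball (0 : ℂ) 2, ∀ t ∈ stdSimplex ℝ (Fin (q + 1)), ∀ a,
      V (γ s, t) (I a) ≠ 0)
    (hol : ∀ t ∈ stdSimplex ℝ (Fin (q + 1)),
      DifferentiableOn ℂ (fun s => V (γ s, t)) (Metric.ball 0 2)) :
    DifferentiableOn ℂ (fun s => TI X f g (γ s) fun t => V (γ s, t)) (Metric.ball 0 2) := by
  have hU : IsOpen (Metric.ball (0 : ℂ) 2) := Metric.isOpen_ball
  have hγR : ContDiffOn ℝ ∞ γ (Metric.ball 0 2) := (hγ.contDiffOn hU).restrict_scalars ℝ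
  -- the substitution map
  let E : ℂ × (Fin q → ℝ) → (X → ℂ) × (Fin q → ℝ) := fun x => (γ x.1, x.2)
  have hE : ∀ x : ℂ × (Fin q → ℝ), x.1 ∈ Metric.ball (0 : ℂ) 2 → ContDiffAt ℝ ∞ E x := by
    intro x hx
    refine ContDiffAt.prodMk ?_ contDiffAt_snd
    exact (hγR.contDiffAt (hU.mem_nhds hx)).comp x contDiffAt_fst
  let O : Set (ℂ × (Fin q → ℝ)) :=
    {x | x.1 ∈ Metric.ball (0 : ℂ) 2 ∧ ∀ a, V (γ x.1, bary x.2) (I a) ≠ 0}
  have h1 : Continuous fun x : (X → ℂ) × (Fin q → ℝ) => V (x.1, bary x.2) :=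
    hV.continuous.comp (continuous_fst.prodMk
      ((contDiff_bary (k := 0)).continuous.comp continuous_snd))
  have hO : IsOpen O := by
    rw [isOpen_iff_mem_nhds]
    intro x hx
    have h2 : ∀ᶠ y : ℂ × (Fin q → ℝ) in 𝓝 x, y.1 ∈ Metric.ball (0 : ℂ) 2 :=
      continuous_fst.continuousAt.eventually (hU.mem_nhds hx.1)
    have h3 : ∀ a, ∀ᶠ y : ℂ × (Fin q → ℝ) in 𝓝 x, V (γ y.1, bary y.2) (I a) ≠ 0 := by
      intro a
      have h4 : ContinuousAt (fun y : ℂ × (Fin q → ℝ) => V (γ y.1, bary y.2) (I a)) x :=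
        ((continuous_apply (I a)).comp h1).continuousAt.comp (hE x hx.1).continuousAt
      exact h4.eventually_ne (hx.2 a)
    filter_upwards [h2, eventually_all.2 h3] with y hy1 hy2
    exact ⟨hy1, hy2⟩
  let G : Fin q → ℂ × (Fin q → ℝ) → ℂ := fun b x =>
    valE X (g b) (γ x.1) (V (γ x.1, bary x.2))
  have hG : ∀ b, ContDiffOn ℝ ∞ (G b) O := fun b x hx =>
    ((contDiffAt_valE (x := E x) (hg b) hV hx.2).comp x (hE x hx.1)).contDiffWithinAt
  have hA : ContDiffOn ℝ ∞ (fun x : ℂ × (Fin q → ℝ) =>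
      valE X f (γ x.1) (V (γ x.1, bary x.2))) O := fun x hx =>
    ((contDiffAt_valE (x := E x) hf hV hx.2).comp x (hE x hx.1)).contDiffWithinAt
  have hfd : ∀ b, ∀ x ∈ O, ∀ a : Fin q,
      fderiv ℝ (fun s : Fin q → ℝ => valE X (g b) (γ x.1) (V (γ x.1, bary s))) x.2
        (Pi.single a 1) = fderiv ℝ (G b) x (0, Pi.single a 1) := by
    intro b x hx a
    have h2 : HasFDerivAt (G b) (fderiv ℝ (G b) x) (x.1, x.2) :=
      (((hG b).contDiffAt (hO.mem_nhds hx)).differentiableAt (by simp)).hasFDerivAt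
    have h3 : HasFDerivAt (fun s : Fin q → ℝ => (x.1, s))
        (ContinuousLinearMap.inr ℝ ℂ (Fin q → ℝ)) x.2 := hasFDerivAt_prodMk_right x.1 x.2
    have h4 := h2.comp x.2 h3
    have h5 : (fun s : Fin q → ℝ => valE X (g b) (γ x.1) (V (γ x.1, bary s))) =
        G b ∘ fun s : Fin q → ℝ => (x.1, s) := rfl
    rw [h5, h4.fderiv]
    rfl
  let Φ : ℂ × (Fin q → ℝ) → ℂ := fun x => valE X f (γ x.1) (V (γ x.1, bary x.2)) *
    Matrix.det (Matrix.of fun a b : Fin q => fderiv ℝ (G b) x (0, Pi.single a 1))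
  have hB : ∀ a b : Fin q, ContDiffOn ℝ 1
      (fun x => fderiv ℝ (G b) x (0, Pi.single a 1)) O := by
    intro a b
    have h2 : ContDiffOn ℝ 1 (fun x => fderiv ℝ (G b) x) O :=
      ((hG b).fderiv_of_isOpen hO (m := 1) (by norm_cast))
    exact h2.clm_apply contDiffOn_const
  have hΦ : ContDiffOn ℝ 1 Φ O :=
    (hA.of_le (by norm_cast)).mul (contDiffOn_det hB)
  have hUK : Metric.ball (0 : ℂ) 2 ×ˢ simplexDomain q ⊆ O := by
    rintro ⟨s, t⟩ ⟨hs, ht⟩
    exact ⟨hs, hne s hs _ (bary_mem ht)⟩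
  have hhol : ∀ᵐ t ∂(volume.restrict (simplexDomain q)), ∀ s ∈ Metric.ball (0 : ℂ) 2,
      DifferentiableAt ℂ (fun s => Φ (s, t)) s := by
    filter_upwards [ae_mem_interior] with t ht s hs
    have hloc : ∀ {f : RatFun N}, f.IsRegularOn I → ∀ s ∈ Metric.ball (0 : ℂ) 2,
        ∀ t ∈ simplexDomain q,
        DifferentiableAt ℂ (fun s => valE X f (γ s) (V (γ s, bary t))) s := by
      intro f hf s hs t ht
      exact differentiableAt_valE hf ((hγ s hs).differentiableAt (hU.mem_nhds hs))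
        ((hol _ (bary_mem ht) s hs).differentiableAt (hU.mem_nhds hs))
        (hne s hs _ (bary_mem ht))
    have hO' : IsOpen (Metric.ball (0 : ℂ) 2 ×ˢ interior (simplexDomain q)) :=
      hU.prod isOpen_interior
    have hO'O : Metric.ball (0 : ℂ) 2 ×ˢ interior (simplexDomain q) ⊆ O := fun x hx =>
      hUK ⟨hx.1, interior_subset hx.2⟩
    have h2 : ∀ a b : Fin q, DifferentiableAt ℂ
        (fun s => fderiv ℝ (G b) (s, t) (0, Pi.single a 1)) s := by
      intro a b
      exact hol_fderiv hO' ((hG b).mono hO'O)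
        (fun x hx => hloc (hg b) x.1 hx.1 x.2 (interior_subset hx.2)) (Pi.single a 1)
        (x := (s, t)) ⟨hs, ht⟩
    exact (hloc hf s hs t (interior_subset ht)).fun_mul (differentiableAt_det h2)
  refine (differentiableOn_integral hU isCompact_simplexDomain hO hUK hΦ hhol).congr ?_
  intro s hs
  unfold TI
  refine setIntegral_congr_fun isClosed_simplexDomain.measurableSet fun t ht => ?_
  simp only [Φ]
  congr 2
  ext a b
  simp only [Matrix.of_apply]
  exact hfd b (s, t) (hUK ⟨hs, ht⟩) a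

end Pool.Agent.AHR
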