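import Mathlib
import Pool.Agent.AHR.Defs
import Pool.Agent.AHI.Lft

/-!
# A smooth family of lifts which is locally holomorphic in the coefficients

Adaptation of `AHI.exists_V` and `AHI.exists_family` (file `AHI/Lft.lean`): take the `V` of
`AHI.exists_V`; the first three properties are proved as in `AHI.exists_family`.  For the last one
let `t` be in the simplex, `z₀ = unit (v t) ∈ Sph F` and `C` a certificate valid at `z₀`
(`hG.cert`).  The function `κ` of `AHI.exists_kappa` satisfies `Hf X C.P ((θ, z), κ (θ, z)) = 0`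
near `(inc X, z₀)`, is smooth there and `κ (inc X, z₀) = 0`.  `Hf X C.P ((θ, z), c)` is, for fixed
`z`, complex differentiable in `(θ, c)` (it is a polynomial with the conjugate gradients of `C.P` at
`z` as constants), and its derivative in `c` is injective near `((inc X, z₀), 0)` (it is at that
point, see the proof of `exists_kappa`, and this is an open condition).  Hence `θ ↦ κ (θ, z)` is
complex differentiable: if `L` is the real derivative of `θ ↦ κ (θ, z)`, then `∂_θ Hf (u) +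
∂_c Hf (L u) = 0` for all `u`, so `∂_c Hf (L (i u) - i L u) = 0` and `L (i u) = i L u`.  The function
`ν θ := v t + en (v t) • nv C.P z (κ (θ, z))`, `z = unit (v t)`, does the job: `V (res X β, t) =
ν (res X β)` by the uniqueness `hG.uniq` (see `AHI.local_exists` and `AHI.local_lift` for the proof
that the small solution of the equations is `RN`).  The number `δ` has to be independent of `t`:
prove the statement for `z` near a given point `z₀` of the compact set `unit (v t)`, `t` in the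
simplex, and `θ` near `inc X`, and use compactness (as `key` in the proof of `AHI.exists_V`, or
`IsCompact.eventually_forall_of_forall_eventually`).
-/

namespace Pool.Agent.AHR

open MvPolynomial Pool.Agent.AHC Pool.Agent.AHI Filter
open scoped ContDiff ComplexConjugate Topology LinearAlgebra.Projectivization Manifold

variable {N m : ℕ}

section Hol

variable {r : ℕ}

/-- the equations as a function of the coefficients and of `c`, for a fixed point -/
private noncomputable def Fam_G (X : Finset ℂ) (P : Fin r → CPoly N) (z : Fin (N + 1) → ℂ) :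
    (X → ℂ) × (Fin r → ℂ) → (Fin r → ℂ) := fun y => Hf X P ((y.1, z), y.2)

private theorem Fam_contDiff_ext {k : WithTop ℕ∞} (X : Finset ℂ) (c : ℂ) :
    ContDiff ℂ k fun θ : X → ℂ => AHI.ext X θ c := by
  unfold AHI.ext
  split_ifs with h
  · exact contDiff_apply ℂ ℂ (⟨c, h⟩ : X)
  · exact contDiff_const

private theorem Fam_contDiff_G {k : WithTop ℕ∞} (X : Finset ℂ) (P : Fin r → CPoly N)
    (z : Fin (N + 1) → ℂ) : ContDiff ℂ k (Fam_G X P z) := by
  unfold Fam_G Hf ev nv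
  rw [contDiff_pi]
  intro b
  refine ContDiff.sum fun u _ => ?_
  refine ContDiff.mul ((Fam_contDiff_ext X _).comp contDiff_fst) ?_
  refine contDiff_prod fun i _ => ?_
  refine ContDiff.pow ?_ _
  refine ContDiff.add contDiff_const ?_
  refine ContDiff.sum fun a _ => ?_
  exact ((contDiff_apply ℂ ℂ a).comp contDiff_snd).mul
    (contDiff_const (c := conj (eval z (pderiv i (P a)))))

private theorem Fam_fderiv_G (X : Finset ℂ) (P : Fin r → CPoly N) (z : Fin (N + 1) → ℂ)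
    (θ : X → ℂ) (c c' : Fin r → ℂ) :
    fderiv ℂ (Fam_G X P z) (θ, c) (0, c') = fderiv ℝ (Hf X P) ((θ, z), c) (0, c') := by
  have h1 : HasFDerivAt (Fam_G X P z) (fderiv ℂ (Fam_G X P z) (θ, c)) (θ, c) :=
    ((Fam_contDiff_G (k := 1) X P z).differentiable (by norm_num) _).hasFDerivAt
  have h2 := h1.restrictScalars ℝ
  have h3 : HasFDerivAt (Hf X P) (fderiv ℝ (Hf X P) ((θ, z), c)) ((θ, z), c) :=
    ((contDiff_Hf (k := 1) X P).differentiable (by norm_num) _).hasFDerivAt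
  have h4 : HasFDerivAt (fun y : (X → ℂ) × (Fin r → ℂ) => ((y.1, z), y.2))
      (((ContinuousLinearMap.fst ℝ (X → ℂ) (Fin r → ℂ)).prod
        (0 : ((X → ℂ) × (Fin r → ℂ)) →L[ℝ] (Fin (N + 1) → ℂ))).prod
        (ContinuousLinearMap.snd ℝ (X → ℂ) (Fin r → ℂ))) (θ, c) :=
    (hasFDerivAt_fst.prodMk (hasFDerivAt_const z _)).prodMk hasFDerivAt_snd
  have h5 : HasFDerivAt (Fam_G X P z) ((fderiv ℝ (Hf X P) ((θ, z), c)).comp
      (((ContinuousLinearMap.fst ℝ (X → ℂ) (Fin r → ℂ)).prod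
        (0 : ((X → ℂ) × (Fin r → ℂ)) →L[ℝ] (Fin (N + 1) → ℂ))).prod
        (ContinuousLinearMap.snd ℝ (X → ℂ) (Fin r → ℂ)))) (θ, c) :=
    HasFDerivAt.comp (g := Hf X P) (θ, c) h3 h4
  have h6 := h2.unique h5
  have h7 := congrArg (fun L : ((X → ℂ) × (Fin r → ℂ)) →L[ℝ] (Fin r → ℂ) => L (0, c')) h6
  exact h7

private theorem Fam_isInvertible {V : Type} [NormedAddCommGroup V] [NormedSpace ℂ V]
    [FiniteDimensional ℂ V] (f : V →L[ℂ] V) (h : ∀ v, f v = 0 → v = 0) : f.IsInvertible := by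
  have hinj : Function.Injective (f : V →ₗ[ℂ] V) := by
    rw [← LinearMap.ker_eq_bot, LinearMap.ker_eq_bot']
    exact h
  refine ⟨(LinearEquiv.ofInjectiveEndo (f : V →ₗ[ℂ] V) hinj).toContinuousLinearEquiv, ?_⟩
  ext v
  rfl

/-- the solution of the equations is holomorphic in the coefficients -/
private theorem Fam_kappa (X : Finset ℂ) (P : Fin r → CPoly N) (z : Fin (N + 1) → ℂ)
    (hli : LinearIndependent ℂ (fun (a : Fin r) (l : Fin (N + 1)) => eval z (pderiv l (P a))))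
    {κ : (X → ℂ) × (Fin (N + 1) → ℂ) → (Fin r → ℂ)}
    (h1 : ∀ᶠ x in 𝓝 (inc X, z), ContDiffAt ℝ ω κ x) (h2 : κ (inc X, z) = 0)
    (h3 : ∀ᶠ x in 𝓝 (inc X, z), Hf X P (x, κ x) = 0) :
    ∀ᶠ x in 𝓝 (inc X, z), DifferentiableAt ℂ (fun θ => κ (θ, x.2)) x.1 := by
  have hinv : (fderiv ℝ (Hf X P) ((inc X, z), 0) ∘L
      .inr ℝ ((X → ℂ) × (Fin (N + 1) → ℂ)) (Fin r → ℂ)).IsInvertible := by
    refine isInvertible_of_injective _ fun c hc => ?_
    refine nv_injective hli (conj_mul_nv P z c fun b => ?_)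
    rw [← fderiv_Hf X P z c b]
    have := congrFun hc b
    simpa using this
  have hcont : Continuous fun y : ((X → ℂ) × (Fin (N + 1) → ℂ)) × (Fin r → ℂ) =>
      fderiv ℝ (Hf X P) y ∘L .inr ℝ ((X → ℂ) × (Fin (N + 1) → ℂ)) (Fin r → ℂ) :=
    ((contDiff_Hf (k := 1) X P).continuous_fderiv (by norm_num)).clm_comp continuous_const
  have hκc : ContinuousAt κ (inc X, z) := h1.self_of_nhds.continuousAt
  have ht : Tendsto (fun x : (X → ℂ) × (Fin (N + 1) → ℂ) => (x, κ x)) (𝓝 (inc X, z))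
      (𝓝 ((inc X, z), (0 : Fin r → ℂ))) := by
    have h4 : Tendsto κ (𝓝 (inc X, z)) (𝓝 0) := by
      have := hκc.tendsto
      rwa [h2] at this
    exact tendsto_id.prodMk_nhds h4
  have hopen : ∀ᶠ x in 𝓝 (inc X, z), (fderiv ℝ (Hf X P) (x, κ x) ∘L
      .inr ℝ ((X → ℂ) × (Fin (N + 1) → ℂ)) (Fin r → ℂ)).IsInvertible := by
    have h5 : {f : (Fin r → ℂ) →L[ℝ] (Fin r → ℂ) | f.IsInvertible} ∈
        𝓝 (fderiv ℝ (Hf X P) ((inc X, z), 0) ∘L
          .inr ℝ ((X → ℂ) × (Fin (N + 1) → ℂ)) (Fin r → ℂ)) :=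
      ContinuousLinearEquiv.isOpen.mem_nhds hinv
    exact (hcont.continuousAt.tendsto.comp ht).eventually h5
  filter_upwards [h1, h3.eventually_nhds, hopen] with x hx1 hx2 hx3
  obtain ⟨θ, z'⟩ := x
  have hcd : ContDiffAt ℂ 1 (Fam_G X P z') (θ, κ (θ, z')) := (Fam_contDiff_G X P z').contDiffAt
  have pn : (1 : WithTop ℕ∞) ≠ 0 := by norm_num
  have hinv' : (fderiv ℂ (Fam_G X P z') (θ, κ (θ, z')) ∘L
      .inr ℂ (X → ℂ) (Fin r → ℂ)).IsInvertible := by
    refine Fam_isInvertible _ fun c hc => ?_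
    obtain ⟨e, he⟩ := hx3
    have h6 : (e : (Fin r → ℂ) →L[ℝ] (Fin r → ℂ)) c = 0 := by
      rw [he]
      have h7 : fderiv ℂ (Fam_G X P z') (θ, κ (θ, z')) (0, c) = 0 := by simpa using hc
      rw [Fam_fderiv_G] at h7
      simpa using h7
    simpa using h6
  have hG0 : Fam_G X P z' (θ, κ (θ, z')) = 0 := hx2.self_of_nhds
  have hpt : Tendsto (fun θ' : X → ℂ => (θ', z')) (𝓝 θ) (𝓝 (θ, z')) :=
    tendsto_id.prodMk_nhds tendsto_const_nhds
  have hpt2 : Tendsto (fun θ' : X → ℂ => (θ', κ (θ', z'))) (𝓝 θ) (𝓝 (θ, κ (θ, z'))) :=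
    tendsto_id.prodMk_nhds (hx1.continuousAt.tendsto.comp hpt)
  have h8 := hpt2.eventually (hcd.eventually_apply_eq_iff_implicitFunction pn hinv')
  have h9 := hpt.eventually hx2
  have h10 : (fun θ' => κ (θ', z')) =ᶠ[𝓝 θ] hcd.implicitFunction pn hinv' := by
    filter_upwards [h8, h9] with θ' h11 h12
    have h13 : Fam_G X P z' (θ', κ (θ', z')) = Fam_G X P z' (θ, κ (θ, z')) := by
      rw [hG0]
      exact h12
    exact (h11.1 h13).symm
  have h14 : DifferentiableAt ℂ (hcd.implicitFunction pn hinv') θ :=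
    (hcd.contDiffAt_implicitFunction pn hinv').differentiableAt (by norm_num)
  exact h14.congr_of_eventuallyEq h10

end Hol

private theorem Fam_nv {r : ℕ} (P : Fin r → CPoly N) (z : Fin (N + 1) → ℂ) {X : Finset ℂ}
    {f : (X → ℂ) → (Fin r → ℂ)} {θ : X → ℂ} (hf : DifferentiableAt ℂ f θ) :
    DifferentiableAt ℂ (fun θ => nv P z (f θ)) θ := by
  rw [differentiableAt_pi] at hf ⊢
  intro l
  unfold nv
  have h : ∀ a ∈ (Finset.univ : Finset (Fin r)),
      DifferentiableAt ℂ (fun θ => f θ a * conj (eval z (pderiv l (P a)))) θ :=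
    fun a _ => (hf a).mul_const _
  exact DifferentiableAt.fun_sum h

private theorem Fam_local_exists {F : Fin m → CPoly N} (C : Cert F) {X : Finset ℂ}
    (hX : Covers X F C) {z : Fin (N + 1) → ℂ} (hz : OnCone F z) (hC : C.Valid z) {ρ : ℝ}
    (hρ : 0 < ρ) :
    ∃ ν : (X → ℂ) × (Fin (N + 1) → ℂ) → (Fin (N + 1) → ℂ), ∀ᶠ x in 𝓝 (inc X, z),
      DifferentiableAt ℂ (fun θ => ν (θ, x.2)) x.1 ∧
      ∀ β : ℂ ≃+* ℂ, res X β = x.1 → OnCone F x.2 →
        RN F β x.2 (ν x) ∧ ‖ν x‖ < ρ := by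
  obtain ⟨κ, hκ1, hκ2, hκ3, -⟩ := exists_kappa X C.P z hC.li (fun a => hz (C.j a))
  have hκ4 := Fam_kappa X C.P z hC.li hκ1 hκ2 hκ3
  let ν : (X → ℂ) × (Fin (N + 1) → ℂ) → (Fin (N + 1) → ℂ) := fun x => nv C.P x.2 (κ x)
  have hν : ∀ᶠ x in 𝓝 (inc X, z), ContDiffAt ℝ ω ν x := by
    filter_upwards [hκ1] with x hx
    exact (contDiff_nv C.P).contDiffAt.comp x (contDiffAt_snd.prodMk hx)
  have hνz : ν (inc X, z) = 0 := by
    simp only [ν, hκ2, nv_zero]
  have hcont : ContinuousAt ν (inc X, z) := hν.self_of_nhds.continuousAt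
  have h1 : ∀ᶠ x in 𝓝 (inc X, z), ‖ν x‖ < ρ := by
    have := Metric.tendsto_nhds.1 hcont ρ hρ
    rw [hνz] at this
    simpa [dist_zero_right] using this
  have h2 : ∀ᶠ x in 𝓝 (inc X, z), ev C.h (AHI.ext X x.1) (fun l => x.2 l + ν x l) ≠ 0 := by
    have h3 : ContinuousAt (fun x : (X → ℂ) × (Fin (N + 1) → ℂ) =>
        ev C.h (AHI.ext X x.1) (fun l => x.2 l + ν x l)) (inc X, z) := by
      have h4 : ContinuousAt (fun x : (X → ℂ) × (Fin (N + 1) → ℂ) =>
          (x.1, (fun l => x.2 l + ν x l : Fin (N + 1) → ℂ))) (inc X, z) := by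
        refine continuousAt_fst.prodMk ?_
        exact continuousAt_snd.add hcont
      exact ContinuousAt.comp (x := (inc X, z))
        (g := fun y : (X → ℂ) × (Fin (N + 1) → ℂ) => ev C.h (AHI.ext X y.1) y.2)
        (contDiff_ev (k := 0) X C.h).continuous.continuousAt h4
    refine h3.eventually_ne ?_
    simp only [hνz, Pi.zero_apply, add_zero]
    rw [ev_inc]
    exact hC.ne
  refine ⟨ν, ?_⟩
  filter_upwards [hκ4, hκ3, h1, h2] with x hx1 hx2 hx3 hx4
  refine ⟨Fam_nv C.P x.2 hx1, fun β hβ hx => ⟨⟨nv_mem_Nrm C _ _, ?_⟩, hx3⟩⟩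
  refine onCone_of_chosen C β ?_ fun a => ?_
  · rw [← ev_res β hX.h, hβ]
    exact hx4
  · rw [← ev_res β (hX.F _), hβ]
    exact congrFun hx2 a

private theorem Fam_local_lift {F : Fin m → CPoly N} {X : Finset ℂ} {ρ : ℝ} (hG : Good F X ρ)
    {q : ℕ} {v : (Fin (q + 1) → ℝ) → (Fin (N + 1) → ℂ)} (hv : ContDiff ℝ ∞ v)
    {t : Fin (q + 1) → ℝ} (hvt : v t ≠ 0) (hvc : OnCone F (v t)) :
    ∃ ε > 0, ∃ g : (X → ℂ) × (Fin (q + 1) → ℝ) → (Fin (N + 1) → ℂ),
      ∀ θ ∈ Metric.ball (inc X) ε, ∀ t' ∈ Metric.ball t ε,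
        DifferentiableAt ℂ (fun θ => g (θ, t')) θ ∧
        ∀ β : ℂ ≃+* ℂ, res X β = θ → OnCone F (v t') →
          v t' ≠ 0 ∧ ∃ n, ‖n‖ < ρ ∧ RN F β (unit (v t')) n ∧
            g (θ, t') = v t' + (en (v t') : ℂ) • n := by
  have hS := unit_mem_Sph hG.smooth.homogeneous hvt hvc
  obtain ⟨C, hC, hX⟩ := hG.cert _ hS
  obtain ⟨ν, hν⟩ := Fam_local_exists C hX hS.2 hC hG.pos
  have hvcont : ContinuousAt v t := hv.continuous.continuousAt
  have hucont : ContinuousAt (fun t' => unit (v t')) t :=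
    ContinuousAt.comp (x := t) (g := unit) (contDiffAt_unit (k := 0) hvt).continuousAt hvcont
  have h1 : Tendsto (fun x : (X → ℂ) × (Fin (q + 1) → ℝ) => (x.1, unit (v x.2)))
      (𝓝 (inc X, t)) (𝓝 (inc X, unit (v t))) := by
    refine Tendsto.prodMk_nhds ?_ ?_
    · exact continuous_fst.continuousAt
    · exact hucont.tendsto.comp continuous_snd.continuousAt
  have h2 := h1.eventually hν
  have h3 : ∀ᶠ x : (X → ℂ) × (Fin (q + 1) → ℝ) in 𝓝 (inc X, t), v x.2 ≠ 0 := by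
    have h4 : Tendsto (fun x : (X → ℂ) × (Fin (q + 1) → ℝ) => v x.2) (𝓝 (inc X, t))
      (𝓝 (v t)) := hvcont.tendsto.comp continuous_snd.continuousAt
    exact h4.eventually_ne hvt
  obtain ⟨ε, hε, h4⟩ := Metric.eventually_nhds_iff.1 (h2.and h3)
  refine ⟨ε, hε, fun x => v x.2 + (en (v x.2) : ℂ) • ν (x.1, unit (v x.2)), ?_⟩
  intro θ hθ t' ht'
  have hmem : dist (θ, t') (inc X, t) < ε := by
    rw [Prod.dist_eq]
    exact max_lt hθ ht'
  obtain ⟨⟨h5, h6⟩, h7⟩ := h4 hmem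
  refine ⟨?_, fun β hβ hc => ⟨h7, ν (θ, unit (v t')), ?_⟩⟩
  · exact (h5.const_smul (en (v t') : ℂ)).const_add (v t')
  · have h8 := h6 β hβ (OnCone.smul hG.smooth.homogeneous _ hc)
    exact ⟨h8.2, h8.1, rfl⟩

/-- `V` is locally holomorphic in the coefficients at the points of a ball -/
def LocHol (X : Finset ℂ) (δ : ℝ) (f : (X → ℂ) → (Fin (N + 1) → ℂ)) : Prop :=
  ∀ θ ∈ Metric.ball (inc X) δ, ∃ ν : (X → ℂ) → (Fin (N + 1) → ℂ), DifferentiableAt ℂ ν θ ∧
    ∀ᶠ θ' in 𝓝 θ, ∀ β : ℂ ≃+* ℂ, res X β = θ' → f θ' = ν θ'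

theorem exists_family2 {F : Fin m → CPoly N} {X : Finset ℂ} {ρ : ℝ} (hG : Good F X ρ)
    {p : ℕ} {I : Fin (p + 1) → Fin (N + 1)} {q : ℕ} {s : Simplex N q}
    {v : (Fin (q + 1) → ℝ) → (Fin (N + 1) → ℂ)} (hv : IsLift F I s v) :
    ∃ V : (X → ℂ) × (Fin (q + 1) → ℝ) → (Fin (N + 1) → ℂ), ContDiff ℝ ∞ V ∧
      (∀ t ∈ stdSimplex ℝ (Fin (q + 1)), V (inc X, t) = v t) ∧
      (∀ᶠ θ in 𝓝 (inc X), ∀ β : ℂ ≃+* ℂ, res X β = θ →
        IsLift (conjEqs β F) I (fun t => Phi F ρ β (s t)) (fun t => V (θ, t))) ∧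
      ∃ δ > 0, ∀ t ∈ stdSimplex ℝ (Fin (q + 1)), LocHol X δ fun θ => V (θ, t) := by
  have hv0 : ∀ t ∈ stdSimplex ℝ (Fin (q + 1)), v t ≠ 0 := fun t ht =>
    (hv.lifts ⟨t, ht⟩).1
  obtain ⟨δ, hδ, V, hV, hδρ, h1⟩ := exists_V hG hv.smooth hv0 hv.onCone
  have hinc : ∀ t ∈ stdSimplex ℝ (Fin (q + 1)), V (inc X, t) = v t := by
    intro t ht
    obtain ⟨n, h2, h3, h4⟩ := h1 (RingEquiv.refl ℂ) (by rw [res_refl, dist_self]; exact hδ) t ht
    have hS := unit_mem_Sph hG.smooth.homogeneous (hv0 t ht) (hv.onCone t ht)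
    have h5 : n = 0 := hG.uniq (RingEquiv.refl ℂ) (by rw [res_refl, dist_self]; exact hG.pos) _ hS
      n 0 h2 (by rw [norm_zero]; exact hG.pos) h3 (RN_refl hS.2)
    rw [res_refl] at h4
    rw [h4, h5, smul_zero, add_zero]
  refine ⟨V, hV, hinc, ?_, ?_⟩
  · have h2 : ∀ᶠ θ in 𝓝 (inc X), ∀ t ∈ stdSimplex ℝ (Fin (q + 1)), ∀ a, V (θ, t) (I a) ≠ 0 := by
      refine (isCompact_stdSimplex ℝ (Fin (q + 1))).eventually_forall_of_forall_eventually
        (P := fun θ t => ∀ a, V (θ, t) (I a) ≠ 0) ?_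
      intro t ht
      rw [Filter.eventually_all]
      intro a
      have h3 : Continuous fun x : (X → ℂ) × (Fin (q + 1) → ℝ) => V x (I a) :=
        (continuous_apply (I a)).comp hV.continuous
      refine h3.continuousAt.eventually_ne ?_
      rw [hinc t ht]
      exact hv.inOpen t ht a
    filter_upwards [h2, Metric.ball_mem_nhds (inc X) hδ] with θ h3 h4 β hβ
    have h5 : dist (res X β) (inc X) < δ := by rw [hβ]; exact h4
    refine ⟨?_, ?_, h3, ?_⟩
    · exact hV.comp (contDiff_const.prodMk contDiff_id)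
    · intro t ht
      obtain ⟨n, h6, h7, h8⟩ := h1 β h5 t ht
      rw [← hβ]
      rw [h8]
      have h9 : v t + (en (v t) : ℂ) • n = (en (v t) : ℂ) • fun l => unit (v t) l + n l := by
        have h10 : (fun l => unit (v t) l + n l) = unit (v t) + n := rfl
        rw [h10, smul_add, smul_unit (hv0 t ht)]
      rw [h9]
      exact OnCone.smul (homogeneous_conjEqs hG.smooth.homogeneous β) _ h7.2
    · intro t
      obtain ⟨n, h6, h7, h8⟩ := h1 β h5 t t.2
      obtain ⟨h9, h10⟩ := hv.lifts t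
      obtain ⟨h11, h12⟩ := hG.Phi_mk (h5.trans hδρ) h9 (hv.onCone t t.2) h6 h7
      rw [← hβ]
      simp only [h8, h10]
      exact ⟨h11, h12⟩
  · set K := stdSimplex ℝ (Fin (q + 1)) with hK
    have key : ∃ δ' > 0, ∀ t ∈ K, t ∈ K → LocHol X δ' fun θ => V (θ, t) := by
      refine (isCompact_stdSimplex ℝ (Fin (q + 1))).induction_on (p := fun s => ∃ δ' > 0,
        ∀ t ∈ s, t ∈ K → LocHol X δ' fun θ => V (θ, t)) ?_ ?_ ?_ ?_
      · exact ⟨1, one_pos, by simp⟩
      · rintro s s' hs ⟨δ', hδ', h⟩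
        exact ⟨δ', hδ', fun t ht => h t (hs ht)⟩
      · rintro s s' ⟨δ1, hδ1, h⟩ ⟨δ2, hδ2, h'⟩
        refine ⟨min δ1 δ2, lt_min hδ1 hδ2, ?_⟩
        rintro t (ht | ht) htK θ hθ
        · exact h t ht htK θ (Metric.ball_subset_ball (min_le_left _ _) hθ)
        · exact h' t ht htK θ (Metric.ball_subset_ball (min_le_right _ _) hθ)
      · intro t ht
        obtain ⟨ε, hε, g, hg⟩ := Fam_local_lift hG hv.smooth (hv0 t ht) (hv.onCone t ht)
        refine ⟨Metric.ball t ε, mem_nhdsWithin_of_mem_nhds (Metric.ball_mem_nhds _ hε),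
          min ε δ, lt_min hε hδ, ?_⟩
        intro t' ht' ht'K θ hθ
        have hθε : θ ∈ Metric.ball (inc X) ε := Metric.ball_subset_ball (min_le_left _ _) hθ
        refine ⟨fun θ => g (θ, t'), (hg θ hθε t' ht').1, ?_⟩
        filter_upwards [Metric.isOpen_ball.mem_nhds hθ] with θ' hθ' β hβ
        have hθ'ε : θ' ∈ Metric.ball (inc X) ε := Metric.ball_subset_ball (min_le_left _ _) hθ'
        have hθ'δ : θ' ∈ Metric.ball (inc X) δ := Metric.ball_subset_ball (min_le_right _ _) hθ'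
        have hβδ : dist (res X β) (inc X) < δ := by rw [hβ]; exact hθ'δ
        obtain ⟨n, h6, h7, h8⟩ := h1 β hβδ t' ht'K
        obtain ⟨-, n', h9, h10, h11⟩ := (hg θ' hθ'ε t' ht').2 β hβ (hv.onCone t' ht'K)
        have hS := unit_mem_Sph hG.smooth.homogeneous (hv0 t' ht'K) (hv.onCone t' ht'K)
        have h12 : n = n' := hG.uniq β (hβδ.trans hδρ) _ hS n n' h6 h9 h7 h10
        rw [hβ] at h8
        rw [h8, h11, h12]
    obtain ⟨δ', hδ', h⟩ := key
    exact ⟨δ', hδ', fun t ht => h t ht ht⟩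

end Pool.Agent.AHR
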