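import Mathlib
import Pool.Agent.AHR.Fam

/-!
# The family of lifts along a holomorphic curve of automorphisms is holomorphic

Proof.  Let `s₀` be in the ball, `θ = γ s₀` and `ν` as in `LocHol`.  Near `s₀` the function `f ∘ γ`
is continuous, and equal to `ν ∘ γ` at the points `s` with `γ s = res X β` for some `β ∈ GA`; these
are dense.  `ν` is only differentiable at `θ`, so continuity of `ν ∘ γ` near `s₀` is not available;
but for `s` near `s₀`, `f (γ s) = lim f (γ s_j)` with good `s_j → s`, and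
`‖ν (γ s_j) - ν θ - ν'(θ) (γ s_j - θ)‖ ≤ ε ‖γ s_j - θ‖` for `s_j` near `s₀`; pass to the limit
`j → ∞`: `‖f (γ s) - ν θ - ν'(θ) (γ s - θ)‖ ≤ ε ‖γ s - θ‖` for all `s` near `s₀` (so `f (γ s₀) = ν θ`
and `f ∘ γ` has the derivative `ν'(θ) ∘ γ'(s₀)` at `s₀`).
-/

namespace Pool.Agent.AHR

open Pool.Agent.AHC Pool.Agent.AHI Filter
open scoped ContDiff Topology

variable {N : ℕ}

theorem hol_V {X : Finset ℂ} {δ : ℝ} {f : (X → ℂ) → (Fin (N + 1) → ℂ)} (hf : Continuous f)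
    (hloc : LocHol X δ f) {γ : ℂ → (X → ℂ)} (hγ : DifferentiableOn ℂ γ (Metric.ball 0 2))
    (hγδ : ∀ s ∈ Metric.ball (0 : ℂ) 2, γ s ∈ Metric.ball (inc X) δ)
    (hd : Metric.ball 0 2 ⊆ closure {s : ℂ | s ∈ Metric.ball 0 2 ∧ ∃ β ∈ GA, res X β = γ s}) :
    DifferentiableOn ℂ (fun s => f (γ s)) (Metric.ball 0 2) := by
  intro s₀ hs₀
  refine DifferentiableAt.differentiableWithinAt ?_
  have hγ0 : DifferentiableAt ℂ γ s₀ := hγ.differentiableAt (Metric.isOpen_ball.mem_nhds hs₀)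
  obtain ⟨ν, hν, hev⟩ := hloc (γ s₀) (hγδ s₀ hs₀)
  have hνf := hν.hasFDerivAt
  set A := fderiv ℂ ν (γ s₀) with hA
  have key : ∀ ε : ℝ, 0 < ε → ∀ᶠ s in 𝓝 s₀,
      ‖f (γ s) - ν (γ s₀) - A (γ s - γ s₀)‖ ≤ ε * ‖γ s - γ s₀‖ := by
    intro ε hε
    have h1 : ∀ᶠ θ' in 𝓝 (γ s₀), ‖ν θ' - ν (γ s₀) - A (θ' - γ s₀)‖ ≤ ε * ‖θ' - γ s₀‖ :=
      (Asymptotics.isLittleO_iff.1 hνf.isLittleO) hε
    have h2 : ∀ᶠ s in 𝓝 s₀, (∀ β : ℂ ≃+* ℂ, res X β = γ s → f (γ s) = ν (γ s)) ∧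
        ‖ν (γ s) - ν (γ s₀) - A (γ s - γ s₀)‖ ≤ ε * ‖γ s - γ s₀‖ :=
      hγ0.continuousAt.eventually (hev.and h1)
    obtain ⟨W, hW, hWo, hsW⟩ := eventually_nhds_iff.1
      (h2.and (Metric.isOpen_ball.mem_nhds hs₀ : ∀ᶠ s in 𝓝 s₀, s ∈ Metric.ball (0 : ℂ) 2))
    refine eventually_nhds_iff.2 ⟨W, ?_, hWo, hsW⟩
    intro s hs
    have hsb : s ∈ Metric.ball (0 : ℂ) 2 := (hW s hs).2
    have hcl : s ∈ closure (W ∩ {s : ℂ | s ∈ Metric.ball 0 2 ∧ ∃ β ∈ GA, res X β = γ s}) :=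
      mem_closure_iff_nhds.2 fun t ht => by
        have h3 := mem_closure_iff_nhds.1 (hd hsb) (t ∩ W) (inter_mem ht (hWo.mem_nhds hs))
        obtain ⟨x, ⟨hx1, hx2⟩, hx3⟩ := h3
        exact ⟨x, hx1, hx2, hx3⟩
    have hcγ : ContinuousAt γ s :=
      (hγ.differentiableAt (Metric.isOpen_ball.mem_nhds hsb)).continuousAt
    have hcf : ContinuousAt (fun s => f (γ s)) s := hf.continuousAt.comp hcγ
    have hc1 : ContinuousAt (fun s => ‖f (γ s) - ν (γ s₀) - A (γ s - γ s₀)‖) s :=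
      ((hcf.sub continuousAt_const).sub
        (A.continuous.continuousAt.comp (hcγ.sub continuousAt_const))).norm
    have hc2 : ContinuousAt (fun s => ε * ‖γ s - γ s₀‖) s :=
      continuousAt_const.mul (hcγ.sub continuousAt_const).norm
    haveI : (𝓝[W ∩ {s : ℂ | s ∈ Metric.ball 0 2 ∧ ∃ β ∈ GA, res X β = γ s}] s).NeBot :=
      mem_closure_iff_nhdsWithin_neBot.1 hcl
    refine le_of_tendsto_of_tendsto
      (b := 𝓝[W ∩ {s : ℂ | s ∈ Metric.ball 0 2 ∧ ∃ β ∈ GA, res X β = γ s}] s)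
      (hc1.tendsto.mono_left nhdsWithin_le_nhds)
      (hc2.tendsto.mono_left nhdsWithin_le_nhds) ?_
    filter_upwards [self_mem_nhdsWithin] with x hx
    obtain ⟨hxW, hxb, β, hβ, hβx⟩ := hx
    obtain ⟨⟨h4, h5⟩, h6⟩ := hW x hxW
    change ‖f (γ x) - ν (γ s₀) - A (γ x - γ s₀)‖ ≤ ε * ‖γ x - γ s₀‖
    rw [h4 β hβx]
    exact h5
  have h0 : f (γ s₀) = ν (γ s₀) := by
    have h1 := (key 1 one_pos).self_of_nhds
    simp only [sub_self, map_zero, sub_zero, norm_zero, mul_zero] at h1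
    exact sub_eq_zero.1 (norm_le_zero_iff.1 h1)
  have h1 : (fun s => f (γ s) - f (γ s₀) - A (γ s - γ s₀)) =o[𝓝 s₀] fun s => γ s - γ s₀ := by
    rw [Asymptotics.isLittleO_iff]
    intro ε hε
    rw [h0]
    exact key ε hε
  have h2 : (fun s => γ s - γ s₀) =O[𝓝 s₀] fun s => s - s₀ := hγ0.hasFDerivAt.isBigO_sub
  have h3 : (fun s => f (γ s) - f (γ s₀) - A (γ s - γ s₀)) =o[𝓝 s₀] fun s => s - s₀ :=
    h1.trans_isBigO h2
  have h4 : (fun s => γ s - γ s₀ - (fderiv ℂ γ s₀) (s - s₀)) =o[𝓝 s₀] fun s => s - s₀ :=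
    hγ0.hasFDerivAt.isLittleO
  have h5 : (fun s => A (γ s - γ s₀ - (fderiv ℂ γ s₀) (s - s₀))) =o[𝓝 s₀] fun s => s - s₀ :=
    (A.isBigO_comp _ _).trans_isLittleO h4
  have h6 : HasFDerivAt (fun s => f (γ s)) (A.comp (fderiv ℂ γ s₀)) s₀ := by
    refine HasFDerivAt.of_isLittleO ?_
    refine (h3.add h5).congr_left fun s => ?_
    simp only [map_sub, ContinuousLinearMap.comp_apply]
    abel
  exact h6.differentiableAt

end Pool.Agent.AHR
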