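import Mathlib
import Pool.Agent.AHR.Curve
import Pool.Agent.AHR.HolV
import Pool.Agent.AHR.HTI

/-!
# Flatness: classes with real conjugates have locally constant periods
-/

namespace Pool.Agent.AHR

open MvPolynomial Pool.Agent.AHC Pool.Agent.AHI Filter
open scoped ContDiff Topology LinearAlgebra.Projectivization

variable {N m : ℕ}

/-- the coefficients of the forms of total degree `2k` -/
theorem exists_coeffs (k : ℕ) (w : FormCochain N) : ∃ A : Finset ℂ, ∀ p q, p + q = 2 * k →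
    ∀ I, ∀ x ∈ w p q I, x.1.num.coeffs ⊆ A ∧ ∀ b, (x.2 b).num.coeffs ⊆ A := by
  classical
  let A2 : Set ℂ := ⋃ p ∈ Finset.range (2 * k + 1), ⋃ q ∈ Finset.range (2 * k + 1),
    ⋃ I : Fin (p + 1) → Fin (N + 1), ⋃ y ∈ {y | y ∈ w p q I},
      ((y.1.num.coeffs : Set ℂ) ∪ ⋃ b, ((y.2 b).num.coeffs : Set ℂ))
  have hA2 : A2.Finite := by
    refine Set.Finite.biUnion (Finset.finite_toSet _) fun p _ => ?_
    refine Set.Finite.biUnion (Finset.finite_toSet _) fun q _ => ?_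
    refine Set.finite_iUnion fun I => ?_
    refine Set.Finite.biUnion (List.finite_toSet _) fun y _ => ?_
    exact (Finset.finite_toSet _).union (Set.finite_iUnion fun b => Finset.finite_toSet _)
  refine ⟨hA2.toFinset, fun p q hpq I x hx => ⟨fun c hc => ?_, fun b c hc => ?_⟩⟩
  · rw [hA2.mem_toFinset]
    simp only [A2, Set.mem_iUnion]
    exact ⟨p, Finset.mem_range.2 (by omega), q, Finset.mem_range.2 (by omega), I, x, hx,
      Or.inl hc⟩
  · rw [hA2.mem_toFinset]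
    simp only [A2, Set.mem_iUnion]
    exact ⟨p, Finset.mem_range.2 (by omega), q, Finset.mem_range.2 (by omega), I, x, hx,
      Or.inr (Set.mem_iUnion.2 ⟨b, hc⟩)⟩

/-- the integral of a form with changed coefficients -/
noncomputable def GI (X : Finset ℂ) {q : ℕ} (w : AlgForm N q) (θ : X → ℂ)
    (v : (Fin (q + 1) → ℝ) → (Fin (N + 1) → ℂ)) : ℂ :=
  (w.map fun x => TI X x.1 x.2 θ v).sum

theorem GI_res {X : Finset ℂ} {p q : ℕ} {I : Fin (p + 1) → Fin (N + 1)} {w : FormCochain N}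
    (h : ∀ x ∈ w p q I, x.1.num.coeffs ⊆ X ∧ ∀ b, (x.2 b).num.coeffs ⊆ X) (β : ℂ ≃+* ℂ)
    (v : (Fin (q + 1) → ℝ) → (Fin (N + 1) → ℂ)) :
    GI X (w p q I) (res X β) v = formIntegral ((w.conj β) p q I) v := by
  unfold GI formIntegral FormCochain.conj
  rw [List.map_map]
  congr 1
  refine List.map_congr_left fun x hx => ?_
  exact TI_res (h x hx).1 (h x hx).2 β v

theorem FormCochain.conj_refl (w : FormCochain N) (p q : ℕ) (I : Fin (p + 1) → Fin (N + 1)) :
    (w.conj (RingEquiv.refl ℂ)) p q I = w p q I := by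
  have h0 : ((RingEquiv.refl ℂ : ℂ ≃+* ℂ) : ℂ →+* ℂ) = RingHom.id ℂ := rfl
  have h1 : ∀ f : RatFun N, f.conj (RingEquiv.refl ℂ) = f := by
    intro f
    simp only [RatFun.conj, h0, MvPolynomial.map_id]
  unfold FormCochain.conj
  conv_rhs => rw [← List.map_id (w p q I)]
  refine List.map_congr_left fun x _ => ?_
  simp only [h1]
  rfl

/-- the integrals along a holomorphic curve are holomorphic -/
theorem hol_GI {X : Finset ℂ} {q : ℕ} {w : AlgForm N q} {p : ℕ}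
    {I : Fin (p + 1) → Fin (N + 1)}
    (hreg : ∀ x ∈ w, x.1.IsRegularOn I ∧ ∀ b, (x.2 b).IsRegularOn I)
    {V : (X → ℂ) × (Fin (q + 1) → ℝ) → (Fin (N + 1) → ℂ)} (hV : ContDiff ℝ ∞ V)
    {γ : ℂ → (X → ℂ)} (hγ : DifferentiableOn ℂ γ (Metric.ball 0 2))
    (hne : ∀ s ∈ Metric.ball (0 : ℂ) 2, ∀ t ∈ stdSimplex ℝ (Fin (q + 1)), ∀ a,
      V (γ s, t) (I a) ≠ 0)
    (hol : ∀ t ∈ stdSimplex ℝ (Fin (q + 1)),
      DifferentiableOn ℂ (fun s => V (γ s, t)) (Metric.ball 0 2)) :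
    DifferentiableOn ℂ (fun s => GI X w (γ s) fun t => V (γ s, t)) (Metric.ball 0 2) := by
  induction w with
  | nil =>
    simp only [GI, List.map_nil, List.sum_nil]
    exact differentiableOn_const _
  | cons x w ih =>
    have h1 := ih fun y hy => hreg y (List.mem_cons_of_mem _ hy)
    have h2 := hreg x List.mem_cons_self
    have h3 := hol_TI h2.1 h2.2 hV hγ hne hol
    have h4 : (fun s => GI X (x :: w) (γ s) fun t => V (γ s, t)) =
        fun s => TI X x.1 x.2 (γ s) (fun t => V (γ s, t)) + GI X w (γ s) fun t => V (γ s, t) := by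
      funext s
      simp only [GI, List.map_cons, List.sum_cons]
    rw [h4]
    exact h3.add h1

/-- a holomorphic function on a disc which is real on a dense set is constant -/
theorem const_of_real {r : ℝ} {f : ℂ → ℂ} (hf : DifferentiableOn ℂ f (Metric.ball 0 r))
    {D : Set ℂ} (hD : Metric.ball 0 r ⊆ closure {s | s ∈ Metric.ball 0 r ∧ s ∈ D})
    (hr : ∀ s ∈ Metric.ball 0 r, s ∈ D → (f s).im = 0) {a b : ℂ} (ha : a ∈ Metric.ball 0 r)
    (hb : b ∈ Metric.ball 0 r) : f a = f b := by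
  have hc : ContinuousOn (fun s => (f s).im) (Metric.ball 0 r) :=
    Complex.continuous_im.comp_continuousOn hf.continuousOn
  have h1 : ∀ s ∈ Metric.ball (0 : ℂ) r, (f s).im = 0 := by
    intro s hs
    have h2 : ∃ᶠ x in 𝓝[Metric.ball 0 r] s, x ∈ Metric.ball (0 : ℂ) r ∧ x ∈ D := by
      have h3 := mem_closure_iff_frequently.1 (hD hs)
      have h4 : 𝓝[Metric.ball 0 r] s = 𝓝 s := Metric.isOpen_ball.nhdsWithin_eq hs
      rw [h4]
      exact h3
    have h3 : Tendsto (fun s => (f s).im) (𝓝[Metric.ball 0 r] s) (𝓝 (f s).im) := hc s hs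
    have h4 := isClosed_singleton.mem_of_frequently_of_tendsto
      (h2.mono fun x hx => (hr x hx.1 hx.2 : (f x).im ∈ ({0} : Set ℝ))) h3
    exact h4
  have han : AnalyticOnNhd ℂ f (Metric.ball 0 r) := hf.analyticOnNhd Metric.isOpen_ball
  rcases han.is_constant_or_isOpen (convex_ball 0 r).isPreconnected with ⟨w, hw⟩ | h
  · rw [hw a ha, hw b hb]
  · exfalso
    have h2 := h _ subset_rfl Metric.isOpen_ball
    have h3 : f a ∈ f '' Metric.ball 0 r := ⟨a, ha, rfl⟩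
    obtain ⟨ε, hε, h4⟩ := Metric.isOpen_iff.1 h2 _ h3
    have h5 : f a + (ε / 2 : ℝ) * Complex.I ∈ Metric.ball (f a) ε := by
      rw [Metric.mem_ball, dist_eq_norm, add_sub_cancel_left, norm_mul, Complex.norm_I,
        mul_one, Complex.norm_real, Real.norm_eq_abs, abs_of_pos (by positivity)]
      linarith
    obtain ⟨x, hx, hxe⟩ := h4 h5
    have h6 := congrArg Complex.im hxe
    rw [h1 x hx] at h6
    simp [h1 a ha] at h6
    linarith

/-- the pushed cycle is a cycle -/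
theorem IsCyc.push {F F' : Fin m → CPoly N} {k : ℕ} {z : Gen N →₀ ℤ} (hz : IsCyc F k z)
    {Φ : ℙ ℂ (Fin (N + 1) → ℂ) → ℙ ℂ (Fin (N + 1) → ℂ)}
    (h : ∀ y ∈ z.support, Liftable F' (AHI.push Φ y)) :
    IsCyc F' k (Finsupp.mapDomain (AHI.push Φ) z) := by
  classical
  refine ⟨fun y hy => ?_, ?_⟩
  · obtain ⟨x, hx, rfl⟩ := Finset.mem_image.1 (Finsupp.mapDomain_support hy)
    exact ⟨h x hx, (hz.lift x hx).2⟩
  · have h8 : ∀ z : Gen N →₀ ℤ, Finsupp.linearCombination ℤ (AHI.bd : Gen N → (Gen N →₀ ℤ))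
        (Finsupp.mapDomain (AHI.push Φ) z) = Finsupp.mapDomain (AHI.push Φ)
          (Finsupp.linearCombination ℤ (AHI.bd : Gen N → (Gen N →₀ ℤ)) z) := by
      intro z
      induction z using Finsupp.induction_linear with
      | zero => simp
      | add x y hx hy => rw [Finsupp.mapDomain_add, map_add, hx, hy, map_add,
          Finsupp.mapDomain_add]
      | single y n =>
        rw [Finsupp.mapDomain_single, Finsupp.linearCombination_single,
          Finsupp.linearCombination_single, Finsupp.mapDomain_smul, bd_push]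
    rw [h8, hz.bd, Finsupp.mapDomain_zero]

theorem flat {F : Fin m → CPoly N} {k : ℕ} {w : FormCochain N} (hsm : IsSmoothProjective F)
    (hh : IsHodgeCochain k w)
    (h : ∀ᶠ β in nearId, β ∈ GA → PerIn RC (conjEqs β F) k (w.conj β))
    {W : Gen N → ℂ} (hW : IsPer F k w W) {z : Gen N →₀ ℤ} (hz : IsCyc F k z) :
    ∀ᶠ β in nearId, ∀ W', IsPer (conjEqs β F) k (w.conj β) W' →
      ∃ z', IsCyc (conjEqs β F) k z' ∧ evc W' z' = evc W z := by
  classical
  rw [eventually_nearId_iff] at h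
  obtain ⟨Xh, εh, hεh, hreal⟩ := h
  obtain ⟨A2, hA2⟩ := exists_coeffs k w
  obtain ⟨X, ρ, hYX, hG⟩ := exists_good hsm (A2 ∪ Xh)
  have hcoef : ∀ p q, p + q = 2 * k → ∀ I, ∀ x ∈ w p q I,
      x.1.num.coeffs ⊆ X ∧ ∀ b, (x.2 b).num.coeffs ⊆ X := fun p q hpq I x hx =>
    ⟨((hA2 p q hpq I x hx).1.trans Finset.subset_union_left).trans hYX,
      fun b => (((hA2 p q hpq I x hx).2 b).trans Finset.subset_union_left).trans hYX⟩
  have hXh : ∀ x ∈ Xh, x ∈ X := fun x hx => hYX (Finset.mem_union_right _ hx)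
  choose v hv using fun y : z.support => (hz.lift y y.2).1
  choose V hVs hVi hVl δ hδ hloc using fun y : z.support => exists_family2 hG (hv y)
  have hdeg : ∀ y : z.support, y.1.1 + y.1.2.1 = 2 * k := fun y => (hz.lift y y.2).2
  -- the neighbourhood
  let U : Set (X → ℂ) := {θ | (∀ y : z.support, ∀ β : ℂ ≃+* ℂ, res X β = θ →
      IsLift (conjEqs β F) y.1.2.2.1 (fun t => Phi F ρ β (y.1.2.2.2 t))
        (fun t => V y (θ, t))) ∧ (∀ y : z.support, θ ∈ Metric.ball (inc X) (δ y)) ∧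
      θ ∈ Metric.ball (inc X) εh ∧ ∀ y : z.support, ∀ t ∈ stdSimplex ℝ (Fin (y.1.2.1 + 1)),
        ∀ a, V y (θ, t) (y.1.2.2.1 a) ≠ 0}
  have hU : U ∈ 𝓝 (inc X) := by
    have h1 : ∀ᶠ θ in 𝓝 (inc X), ∀ y : z.support, ∀ β : ℂ ≃+* ℂ, res X β = θ →
      IsLift (conjEqs β F) y.1.2.2.1 (fun t => Phi F ρ β (y.1.2.2.2 t))
        (fun t => V y (θ, t)) := Filter.eventually_all.2 hVl
    have h2 : ∀ᶠ θ in 𝓝 (inc X), ∀ y : z.support, θ ∈ Metric.ball (inc X) (δ y) :=
      Filter.eventually_all.2 fun y => Metric.ball_mem_nhds _ (hδ y)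
    have h3 : ∀ᶠ θ in 𝓝 (inc X), ∀ y : z.support, ∀ t ∈ stdSimplex ℝ (Fin (y.1.2.1 + 1)),
        ∀ a, V y (θ, t) (y.1.2.2.1 a) ≠ 0 := by
      refine Filter.eventually_all.2 fun y => ?_
      refine (isCompact_stdSimplex ℝ (Fin (y.1.2.1 + 1))).eventually_forall_of_forall_eventually
        (P := fun θ t => ∀ a, V y (θ, t) (y.1.2.2.1 a) ≠ 0) ?_
      intro t ht
      rw [Filter.eventually_all]
      intro a
      have h4 : Continuous fun x : (X → ℂ) × (Fin (y.1.2.1 + 1) → ℝ) => V y x (y.1.2.2.1 a) :=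
        (continuous_apply (y.1.2.2.1 a)).comp (hVs y).continuous
      refine h4.continuousAt.eventually_ne ?_
      rw [hVi y t ht]
      exact (hv y).inOpen t ht a
    filter_upwards [h1, h2, Metric.ball_mem_nhds (inc X) hεh, h3] with θ h4 h5 h6 h7
    exact ⟨h4, h5, h6, h7⟩
  -- the value of the integrals over the pushed cycle
  let Q : (X → ℂ) → ℂ := fun θ => ∑ y : z.support,
    (z y.1 : ℂ) * GI X (w y.1.1 y.1.2.1 y.1.2.2.1) θ fun t => V y (θ, t)
  have hvalue : ∀ β : ℂ ≃+* ℂ, res X β ∈ U → ∀ W', IsPer (conjEqs β F) k (w.conj β) W' →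
      IsCyc (conjEqs β F) k (Finsupp.mapDomain (AHI.push (Phi F ρ β)) z) ∧
        evc W' (Finsupp.mapDomain (AHI.push (Phi F ρ β)) z) = Q (res X β) := by
    intro β hβ W' hW'
    have hl : ∀ y : z.support, IsLift (conjEqs β F) y.1.2.2.1
        (AHI.push (Phi F ρ β) y.1).2.2.2 (fun t => V y (res X β, t)) := fun y => hβ.1 y β rfl
    refine ⟨hz.push fun y hy => ⟨_, hl ⟨y, hy⟩⟩, ?_⟩
    rw [evc_mapDomain, evc_eq_sum]
    simp only [Q]
    rw [← Finset.sum_coe_sort]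
    refine Finset.sum_congr rfl fun y _ => ?_
    congr 1
    rw [GI_res (hcoef _ _ (hdeg y) _) β]
    exact (hW'.int (AHI.push (Phi F ρ β) y.1) (hdeg y) _ (hl y)).symm
  have hpi : (2 * (Real.pi : ℂ) * Complex.I) ^ k ≠ 0 :=
    pow_ne_zero _ (by simp [Real.pi_ne_zero])
  set c := (2 * (Real.pi : ℂ) * Complex.I) ^ k with hc
  filter_upwards [exists_curve X hU] with β₀ hβ₀ W' hW'
  obtain ⟨γ, hγd, hγ0, hγ1, hγU, hγD⟩ := hβ₀
  have hmem0 : (0 : ℂ) ∈ Metric.ball (0 : ℂ) 2 := by simp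
  have hmem1 : (1 : ℂ) ∈ Metric.ball (0 : ℂ) 2 := by simp
  -- holomorphy
  have hhol : DifferentiableOn ℂ (fun s => c⁻¹ * Q (γ s)) (Metric.ball 0 2) := by
    refine DifferentiableOn.const_mul ?_ _
    simp only [Q]
    refine DifferentiableOn.fun_sum fun y _ => DifferentiableOn.const_mul ?_ _
    refine hol_GI (hh.1 _ _ (hdeg y) _) (hVs y) hγd (fun s hs => (hγU s hs).2.2.2 y) ?_
    intro t ht
    refine hol_V (f := fun θ => V y (θ, t)) ?_ (hloc y t ht) hγd
      (fun s hs => (hγU s hs).2.1 y) hγD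
    exact (hVs y).continuous.comp (Continuous.prodMk continuous_id continuous_const)
  have hgood : ∀ s ∈ Metric.ball (0 : ℂ) 2, s ∈ {s : ℂ | ∃ β ∈ GA, res X β = γ s} →
      (c⁻¹ * Q (γ s)).im = 0 := by
    rintro s hs ⟨β, hβ, hβs⟩
    have hβU : res X β ∈ U := by rw [hβs]; exact hγU s hs
    obtain ⟨Wβ, hWβ, hWr⟩ := hreal β (fun x hx => by
      have h1 := (dist_pi_lt_iff hεh).1 (Metric.mem_ball.1 hβU.2.2.1) ⟨x, hXh x hx⟩
      rw [dist_eq_norm] at h1
      exact h1) hβ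
    obtain ⟨h1, h2⟩ := hvalue β hβU Wβ hWβ
    obtain ⟨a, ⟨a', rfl⟩, h3⟩ := hWr _ h1
    rw [← hβs, ← h2, h3, ← hc, inv_mul_cancel_left₀ hpi]
    exact Complex.ofReal_im a'
  have hconst := const_of_real hhol hγD hgood hmem1 hmem0
  have h01 : Q (γ 1) = Q (γ 0) := mul_left_cancel₀ (inv_ne_zero hpi) hconst
  rw [hγ1, hγ0] at h01
  have hU1 : res X β₀ ∈ U := by rw [← hγ1]; exact hγU 1 hmem1
  obtain ⟨h1, h2⟩ := hvalue β₀ hU1 W' hW'
  refine ⟨_, h1, ?_⟩
  rw [h2, h01, evc_eq_sum, ← Finset.sum_coe_sort]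
  simp only [Q]
  refine Finset.sum_congr rfl fun y _ => ?_
  congr 1
  have h3 := GI_res (hcoef _ _ (hdeg y) y.1.2.2.1) (RingEquiv.refl ℂ) fun t => V y (inc X, t)
  rw [res_refl] at h3
  rw [h3, FormCochain.conj_refl, formIntegral_congr (hVi y)]
  exact hW.int y.1 (hdeg y) _ (hv y)

end Pool.Agent.AHR
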