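import Mathlib
import Pool.Agent.AHR.Defs

/-!
# Having periods in a closed set is a closed condition

Adaptation of the proof of `AHI.integral_of_frequently` (file `AHI/Closed.lean`): the parts `fam`,
`famlift`, `hindep`, `hWtend`, `hWfreq`, `hbound`, `hcyc` with `W` the function of chosen lifts; `A`
closed replaces the range of the integers, and no duality is needed.
-/

namespace Pool.Agent.AHR

open MvPolynomial Pool.Agent.AHC Pool.Agent.AHI Filter
open scoped ContDiff Topology LinearAlgebra.Projectivization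

variable {N m : ℕ}

private theorem Cls_comb_push
    (Φ : ℙ ℂ (Fin (N + 1) → ℂ) → ℙ ℂ (Fin (N + 1) → ℂ)) (z : Gen N →₀ ℤ) :
    Finsupp.linearCombination ℤ (AHI.bd : Gen N → (Gen N →₀ ℤ)) (Finsupp.mapDomain (push Φ) z) =
      Finsupp.mapDomain (push Φ)
        (Finsupp.linearCombination ℤ (AHI.bd : Gen N → (Gen N →₀ ℤ)) z) := by
  induction z using Finsupp.induction_linear with
  | zero => simp
  | add x y hx hy =>
    rw [Finsupp.mapDomain_add, map_add, hx, hy, map_add, Finsupp.mapDomain_add]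
  | single y n =>
    rw [Finsupp.mapDomain_single, Finsupp.linearCombination_single,
      Finsupp.linearCombination_single, Finsupp.mapDomain_smul, bd_push]

theorem perIn_of_frequently {A : Set ℂ} (hA : IsClosed A) {F : Fin m → CPoly N} {k : ℕ}
    {w : FormCochain N} (hsm : IsSmoothProjective F) (hh : IsHodgeCochain k w)
    (h : ∃ᶠ β in nearId, PerIn A (conjEqs β F) k (w.conj β)) : PerIn A F k w := by
  classical
  -- the coefficients of the forms
  let A2 : Set ℂ := ⋃ p ∈ Finset.range (2 * k + 1), ⋃ q ∈ Finset.range (2 * k + 1),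
    ⋃ I : Fin (p + 1) → Fin (N + 1), ⋃ y ∈ {y | y ∈ w p q I},
      ((y.1.num.coeffs : Set ℂ) ∪ ⋃ b, ((y.2 b).num.coeffs : Set ℂ))
  have hA2 : A2.Finite := by
    refine Set.Finite.biUnion (Finset.finite_toSet _) fun p _ => ?_
    refine Set.Finite.biUnion (Finset.finite_toSet _) fun q _ => ?_
    refine Set.finite_iUnion fun I => ?_
    refine Set.Finite.biUnion (List.finite_toSet _) fun y _ => ?_
    exact (Finset.finite_toSet _).union (Set.finite_iUnion fun b => Finset.finite_toSet _)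
  obtain ⟨X, ρ, hYX, hG⟩ := exists_good hsm hA2.toFinset
  have hX : ∀ z ∈ A2, z ∈ X := fun z hz => hYX (hA2.mem_toFinset.2 hz)
  have hcoef : ∀ p q, p + q = 2 * k → ∀ I, ∀ x ∈ w p q I,
      x.1.num.coeffs ⊆ X ∧ ∀ b, (x.2 b).num.coeffs ⊆ X := by
    intro p q hpq I x hx
    constructor
    · intro c hc
      refine hX c ?_
      simp only [A2, Set.mem_iUnion]
      exact ⟨p, Finset.mem_range.2 (by omega), q, Finset.mem_range.2 (by omega), I, x, hx,
        Or.inl hc⟩
    · intro b c hc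
      refine hX c ?_
      simp only [A2, Set.mem_iUnion]
      exact ⟨p, Finset.mem_range.2 (by omega), q, Finset.mem_range.2 (by omega), I, x, hx,
        Or.inr (Set.mem_iUnion.2 ⟨b, hc⟩)⟩
  let Φ : (ℂ ≃+* ℂ) → ℙ ℂ (Fin (N + 1) → ℂ) → ℙ ℂ (Fin (N + 1) → ℂ) := fun β => Phi F ρ β
  -- the moved simplices and the convergence of the integrals
  have fam : ∀ (x : Gen N) (v : _), IsLift F x.2.2.1 x.2.2.2 v → x.1 + x.2.1 = 2 * k →
      ∃ J : (ℂ ≃+* ℂ) → ℂ, Tendsto J nearId (𝓝 (formIntegral (w x.1 x.2.1 x.2.2.1) v)) ∧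
        ∀ᶠ β in nearId, ∃ v', IsLift (conjEqs β F) x.2.2.1 (push (Φ β) x).2.2.2 v' ∧
          J β = formIntegral ((w.conj β) x.1 x.2.1 x.2.2.1) v' := by
    rintro ⟨p, q, I, s⟩ v hv hpq
    obtain ⟨V, hV, hVv, hev⟩ := exists_family hG hv
    refine ⟨fun β => formIntegral ((w.conj β) p q I) fun t => V (res X β, t), ?_, ?_⟩
    · exact tendsto_formIntegral (hh.1 p q hpq I) (hcoef p q hpq I) hV hVv hv.inOpen
    · have h1 := (tendsto_res X).eventually hev
      filter_upwards [h1] with β hβ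
      exact ⟨_, hβ β rfl, rfl⟩
  have famlift : ∀ (x : Gen N), Liftable F x →
      ∀ᶠ β in nearId, Liftable (conjEqs β F) (push (Φ β) x) := by
    rintro ⟨p, q, I, s⟩ ⟨v, hv⟩
    obtain ⟨V, hV, hVv, hev⟩ := exists_family hG hv
    have h1 := (tendsto_res X).eventually hev
    filter_upwards [h1] with β hβ
    exact ⟨_, hβ β rfl⟩
  have hpi : (2 * (Real.pi : ℂ) * Complex.I) ^ k ≠ 0 :=
    pow_ne_zero _ (by simp [Real.pi_ne_zero])
  -- independence of the lift
  have hindep : ∀ (x : Gen N) (v v' : _), IsLift F x.2.2.1 x.2.2.2 v →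
      IsLift F x.2.2.1 x.2.2.2 v' → x.1 + x.2.1 = 2 * k →
      formIntegral (w x.1 x.2.1 x.2.2.1) v = formIntegral (w x.1 x.2.1 x.2.2.1) v' := by
    intro x v v' hv hv' hpq
    obtain ⟨J, hJ, hJe⟩ := fam x v hv hpq
    obtain ⟨J', hJ', hJe'⟩ := fam x v' hv' hpq
    have h1 : Tendsto (fun β => J β - J' β) nearId
        (𝓝 (formIntegral (w x.1 x.2.1 x.2.2.1) v -
          formIntegral (w x.1 x.2.1 x.2.2.1) v')) := hJ.sub hJ'
    have h2 : ∃ᶠ β in nearId, J β - J' β ∈ ({0} : Set ℂ) := by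
      refine ((h.and_eventually hJe).and_eventually hJe').mono ?_
      rintro β ⟨⟨⟨W', hW', -⟩, v1, h4, h5⟩, v2, h6, h7⟩
      rw [h5, h7]
      have h8 := hW'.int (push (Φ β) x) hpq v1 h4
      have h9 := hW'.int (push (Φ β) x) hpq v2 h6
      change formIntegral ((w.conj β) x.1 x.2.1 x.2.2.1) v1 = _ at h8
      change formIntegral ((w.conj β) x.1 x.2.1 x.2.2.1) v2 = _ at h9
      rw [h8, h9, sub_self]
      rfl
    have h3 := isClosed_singleton.mem_of_frequently_of_tendsto h2 h1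
    exact sub_eq_zero.1 h3
  -- the chosen lifts
  let ι := {x : Gen N // Liftable F x ∧ x.1 + x.2.1 = 2 * k}
  choose vι hvι using fun x : ι => x.2.1
  let W : Gen N → ℂ := fun x => if hx : Liftable F x ∧ x.1 + x.2.1 = 2 * k then
    formIntegral (w x.1 x.2.1 x.2.2.1) (vι ⟨x, hx⟩) else 0
  choose J hJ hJe using fun x : ι => fam x.1 (vι x) (hvι x) x.2.2
  let Wb : (ℂ ≃+* ℂ) → Gen N → ℂ := fun β x =>
    if hx : Liftable F x ∧ x.1 + x.2.1 = 2 * k then J ⟨x, hx⟩ β else 0
  have hWtend : ∀ z : Gen N →₀ ℤ, Tendsto (fun β => evc (Wb β) z) nearId (𝓝 (evc W z)) := by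
    intro z
    simp only [evc_eq_sum]
    refine tendsto_finsetSum _ fun y _ => ?_
    refine Tendsto.const_mul _ ?_
    by_cases hy : Liftable F y ∧ y.1 + y.2.1 = 2 * k
    · simp only [Wb, W, dif_pos hy]
      exact hJ ⟨y, hy⟩
    · simp only [Wb, W, dif_neg hy]
      exact tendsto_const_nhds
  -- for a chain in degree `2k` the values are those of the moved chain
  have hWfreq : ∀ z : Gen N →₀ ℤ, (∀ y ∈ z.support, Liftable F y ∧ y.1 + y.2.1 = 2 * k) →
      ∀ P : (ℂ ≃+* ℂ) → Prop, (∀ᶠ β in nearId, P β) → ∃ᶠ β in nearId, P β ∧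
        ∃ W' : Gen N → ℂ, IsPer (conjEqs β F) k (w.conj β) W' ∧
          (∀ z', IsCyc (conjEqs β F) k z' →
            ∃ a ∈ A, evc W' z' = (2 * Real.pi * Complex.I) ^ k * a) ∧
          evc (Wb β) z = evc W' (Finsupp.mapDomain (push (Φ β)) z) := by
    intro z hz P hP
    have h1 : ∀ᶠ β in nearId, ∀ y ∈ z.support, ∀ hy : Liftable F y ∧ y.1 + y.2.1 = 2 * k,
        ∃ v', IsLift (conjEqs β F) y.2.2.1 (push (Φ β) y).2.2.2 v' ∧
          J ⟨y, hy⟩ β = formIntegral ((w.conj β) y.1 y.2.1 y.2.2.1) v' := by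
      rw [Filter.eventually_all_finset]
      intro y hy
      have hy' := hz y hy
      filter_upwards [hJe ⟨y, hy'⟩] with β hβ _
      exact hβ
    refine ((h.and_eventually h1).and_eventually hP).mono ?_
    rintro β ⟨⟨⟨W', hW', hcy⟩, h4⟩, h5⟩
    refine ⟨h5, W', hW', hcy, ?_⟩
    rw [evc_mapDomain]
    refine evc_congr fun y hy => ?_
    have hy' := hz y hy
    obtain ⟨v', h7, h8⟩ := h4 y hy hy'
    simp only [Wb, dif_pos hy']
    rw [h8]
    exact hW'.int (push (Φ β) y) hy'.2 v' h7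
  refine ⟨W, ⟨?_, ?_⟩, ?_⟩
  · intro x hpq v hv
    have hx : Liftable F x ∧ x.1 + x.2.1 = 2 * k := ⟨⟨v, hv⟩, hpq⟩
    simp only [W, dif_pos hx]
    exact hindep x v (vι ⟨x, hx⟩) hv (hvι ⟨x, hx⟩) hpq
  · intro x hx hpq
    have h1 := hWfreq (AHI.bd x) (hx.bd hpq) _ (famlift x hx)
    have h2 : ∃ᶠ β in nearId, evc (Wb β) (AHI.bd x) ∈ ({0} : Set ℂ) := by
      refine h1.mono ?_
      rintro β ⟨h3, W', hW', -, h5⟩
      rw [h5, ← bd_push]
      exact hW'.bd (push (Φ β) x) h3 hpq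
    exact isClosed_singleton.mem_of_frequently_of_tendsto h2 (hWtend (AHI.bd x))
  · intro z hz
    have hP : ∀ᶠ β in nearId, ∀ y ∈ z.support, Liftable (conjEqs β F) (push (Φ β) y) := by
      rw [Filter.eventually_all_finset]
      intro y hy
      exact famlift y (hz.lift y hy).1
    have h1 := hWfreq z hz.lift _ hP
    have h2 : ∃ᶠ β in nearId,
        ((2 * (Real.pi : ℂ) * Complex.I) ^ k)⁻¹ * evc (Wb β) z ∈ A := by
      refine h1.mono ?_
      rintro β ⟨h3, W', -, hcy, h5⟩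
      have hc : IsCyc (conjEqs β F) k (Finsupp.mapDomain (push (Φ β)) z) := by
        refine ⟨fun y hy => ?_, ?_⟩
        · obtain ⟨x, hx, rfl⟩ := Finset.mem_image.1 (Finsupp.mapDomain_support hy)
          exact ⟨h3 x hx, (hz.lift x hx).2⟩
        · rw [Cls_comb_push, hz.bd, Finsupp.mapDomain_zero]
      obtain ⟨a, ha, h6⟩ := hcy _ hc
      rw [h5, h6, ← mul_assoc, inv_mul_cancel₀ hpi, one_mul]
      exact ha
    have h3 := hA.mem_of_frequently_of_tendsto h2
      ((hWtend z).const_mul ((2 * (Real.pi : ℂ) * Complex.I) ^ k)⁻¹)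
    refine ⟨_, h3, ?_⟩
    rw [← mul_assoc, mul_inv_cancel₀ hpi, one_mul]

end Pool.Agent.AHR
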