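import Mathlib
import Pool.Agent.AHR.Defs

/-!
# A class is rational iff its periods are rational

Proof.  (forward) `W x :=` the right hand side of the relation; on boundaries of liftable
generators it vanishes because `r` is a cocycle there and `D D b = 0` (`totD_totD`); on cycles
`evc W z = c * evc (cg r) z`.  All of this is contained in the proof of
`AHI.integral_of_frequently` (with `β = id`).

(backward) universal coefficients, `AHI.duality`: generalize its proof from `ℤ` to an arbitrary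
additive subgroup `A` of `ℂ` (the quotient `ℂ / A` is divisible, hence injective), then follow the
last part of the proof of `AHI.integral_of_frequently`, with `r : SingCochain N ℚ` and the cocycle
condition for `r` deduced in `ℂ`.
-/

namespace Pool.Agent.AHR

open MvPolynomial Pool.Agent.AHC Pool.Agent.AHI Filter
open scoped ContDiff Topology LinearAlgebra.Projectivization

variable {N m : ℕ}

/-- **universal coefficients** for an additive subgroup of `ℂ`: if a complex function takes values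
in `A` on the cycles, it is a function with values in `A` plus a coboundary -/
theorem duality_subgroup (A : AddSubgroup ℂ) {ι κ : Type} (d : ι → (κ →₀ ℤ)) (φ : ι → ℂ)
    (h : ∀ z : ι →₀ ℤ, Finsupp.linearCombination ℤ d z = 0 →
      Finsupp.linearCombination ℤ φ z ∈ A) :
    ∃ b : κ → ℂ, ∀ i, φ i - Finsupp.linearCombination ℤ b (d i) ∈ A := by
  let Q := ℂ ⧸ A
  let π : ℂ →+ Q := QuotientAddGroup.mk' A
  have hπ : Function.Surjective π := QuotientAddGroup.mk'_surjective A
  have hdiv : DivisibleBy Q ℤ := Function.Surjective.divisibleBy π hπ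
    (fun a n => map_zsmul π n a)
  let D : (ι →₀ ℤ) →+ (κ →₀ ℤ) := (Finsupp.linearCombination ℤ d).toAddMonoidHom
  let φ' : (ι →₀ ℤ) →+ Q := π.comp (Finsupp.linearCombination ℤ φ).toAddMonoidHom
  have hker : D.ker ≤ φ'.ker := by
    intro z hz
    have hz' : Finsupp.linearCombination ℤ d z = 0 := hz
    rw [AddMonoidHom.mem_ker]
    change π (Finsupp.linearCombination ℤ φ z) = 0
    exact (QuotientAddGroup.eq_zero_iff _).2 (h z hz')
  let ψ : (ι →₀ ℤ) ⧸ D.ker →+ Q := QuotientAddGroup.lift D.ker φ' hker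
  let D' : (ι →₀ ℤ) ⧸ D.ker →+ (κ →₀ ℤ) := QuotientAddGroup.kerLift D
  obtain ⟨ψ', hψ'⟩ := (Module.Baer.of_divisible Q).extension_property_addMonoidHom D'
    (QuotientAddGroup.kerLift_injective D) ψ
  choose b hb using fun k : κ => hπ (ψ' (Finsupp.single k 1))
  refine ⟨b, fun i => ?_⟩
  have h1 : ∀ y : κ →₀ ℤ, π (Finsupp.linearCombination ℤ b y) = ψ' y := by
    intro y
    induction y using Finsupp.induction_linear with
    | zero => simp
    | add x y hx hy => rw [map_add, map_add, map_add, hx, hy]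
    | single k c =>
      rw [Finsupp.linearCombination_single, map_zsmul, hb k]
      have : Finsupp.single k c = c • Finsupp.single k (1 : ℤ) := by simp
      rw [this, map_zsmul]
  have h2 : ψ' (d i) = π (φ i) := by
    have h3 := DFunLike.congr_fun hψ' (QuotientAddGroup.mk (Finsupp.single i (1 : ℤ)))
    have h4 : D' (QuotientAddGroup.mk (Finsupp.single i (1 : ℤ))) = d i := by
      change Finsupp.linearCombination ℤ d (Finsupp.single i (1 : ℤ)) = d i
      simp
    have h5 : ψ (QuotientAddGroup.mk (Finsupp.single i (1 : ℤ))) = π (φ i) := by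
      change π (Finsupp.linearCombination ℤ φ (Finsupp.single i (1 : ℤ))) = π (φ i)
      simp
    rw [AddMonoidHom.comp_apply, h4, h5] at h3
    exact h3
  have h6 : π (φ i - Finsupp.linearCombination ℤ b (d i)) = 0 := by
    rw [map_sub, h1, h2, sub_self]
  exact (QuotientAddGroup.eq_zero_iff _).1 h6

/-- a coboundary vanishes on boundaries -/
theorem evc_evc_bd_bd (f : Gen N → ℂ) (x : Gen N) :
    evc (fun y => evc f (AHI.bd y)) (AHI.bd x) = 0 := by
  have h6 : (fun y : Gen N => evc f (AHI.bd y)) =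
      cg (fun p q I (s : Simplex N q) =>
        totD (fun p q I (s : Simplex N q) => f ⟨p, q, I, s⟩) p q I s) := by
    funext y
    exact evc_bd (fun p q I (s : Simplex N q) => f ⟨p, q, I, s⟩) y
  rw [h6, evc_bd]
  exact totD_totD _ _ _ _ _

/-- a coboundary vanishes on cycles -/
theorem evc_evc_bd_of_cycle (f : Gen N → ℂ) (z : Gen N →₀ ℤ)
    (hz : Finsupp.linearCombination ℤ (AHI.bd : Gen N → (Gen N →₀ ℤ)) z = 0) :
    evc (fun y => evc f (AHI.bd y)) z = 0 := by
  have h8 : ∀ z : Gen N →₀ ℤ, evc (fun y => evc f (AHI.bd y)) z =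
      evc f (Finsupp.linearCombination ℤ (AHI.bd : Gen N → (Gen N →₀ ℤ)) z) := by
    intro z
    induction z using Finsupp.induction_linear with
    | zero => simp
    | add x y hx hy => rw [map_add, hx, hy, map_add, map_add]
    | single y n =>
      rw [evc_single, Finsupp.linearCombination_single, map_zsmul, zsmul_eq_mul]
  rw [h8, hz, map_zero]

/-- evaluation of a rational function on a chain, in `ℂ` -/
theorem evc_ratCast (f : Gen N → ℚ) (z : Gen N →₀ ℤ) :
    evc (fun y => ((f y : ℚ) : ℂ)) z = ((evc f z : ℚ) : ℂ) := by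
  rw [evc_eq_sum, evc_eq_sum]
  push_cast
  rfl

/-- evaluation is linear in the function -/
theorem evc_mul_add (c : ℂ) (f g : Gen N → ℂ) (z : Gen N →₀ ℤ) :
    evc (fun y => c * f y + g y) z = c * evc f z + evc g z := by
  rw [evc_eq_sum, evc_eq_sum, evc_eq_sum, Finset.mul_sum, ← Finset.sum_add_distrib]
  refine Finset.sum_congr rfl fun y _ => ?_
  ring

theorem perIn_of_isRationalClass {F : Fin m → CPoly N} {k : ℕ} {w : FormCochain N}
    (h : IsRationalClass F k w) : PerIn QC F k w := by
  obtain ⟨r, b, h1, h2⟩ := h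
  set c : ℂ := (2 * (Real.pi : ℂ) * Complex.I) ^ k with hc
  refine ⟨fun x => c * ((cg r x : ℚ) : ℂ) + evc (cg b) (AHI.bd x), ⟨?_, ?_⟩, ?_⟩
  · rintro ⟨p, q, I, s⟩ hpq v hv
    rw [evc_bd]
    exact h2 p q hpq I s v hv
  · rintro ⟨p, q, I, s⟩ ⟨v, hv⟩ hpq
    rw [evc_mul_add c (fun x => ((cg r x : ℚ) : ℂ)) (fun x => evc (cg b) (AHI.bd x)),
      evc_evc_bd_bd, evc_ratCast, evc_bd]
    have h3 : totD r p q I s = 0 := h1 p q hpq I s v hv
    rw [h3]
    simp
  · intro z hz
    refine ⟨((evc (cg r) z : ℚ) : ℂ), ⟨_, rfl⟩, ?_⟩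
    rw [evc_mul_add c (fun x => ((cg r x : ℚ) : ℂ)) (fun x => evc (cg b) (AHI.bd x)),
      evc_evc_bd_of_cycle _ _ hz.bd, evc_ratCast, add_zero]

theorem isRationalClass_of_perIn {F : Fin m → CPoly N} {k : ℕ} {w : FormCochain N}
    (h : PerIn QC F k w) : IsRationalClass F k w := by
  classical
  obtain ⟨W, hW, hcyc⟩ := h
  have hpi : (2 * (Real.pi : ℂ) * Complex.I) ^ k ≠ 0 :=
    pow_ne_zero _ (by simp [Real.pi_ne_zero])
  set c : ℂ := (2 * (Real.pi : ℂ) * Complex.I) ^ k with hc
  let ι := {x : Gen N // Liftable F x ∧ x.1 + x.2.1 = 2 * k}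
  let A : AddSubgroup ℂ := (Rat.castHom ℂ).toAddMonoidHom.range
  obtain ⟨b0, hb0⟩ := duality_subgroup A (fun x : ι => AHI.bd x.1) (fun x : ι => c⁻¹ * W x.1) (by
    intro z hz
    have h1 : Finsupp.linearCombination ℤ (AHI.bd : Gen N → (Gen N →₀ ℤ))
        (Finsupp.mapDomain Subtype.val z) = 0 := by
      rw [Finsupp.linearCombination_mapDomain]
      exact hz
    obtain ⟨a, ⟨n, rfl⟩, hn⟩ := hcyc (Finsupp.mapDomain Subtype.val z) ⟨by
      intro y hy
      obtain ⟨x, -, rfl⟩ := Finset.mem_image.1 (Finsupp.mapDomain_support hy)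
      exact x.2, h1⟩
    refine ⟨n, ?_⟩
    have h2 : Finsupp.linearCombination ℤ (fun x : ι => c⁻¹ * W x.1) z =
        c⁻¹ * evc W (Finsupp.mapDomain Subtype.val z) := by
      unfold evc
      rw [Finsupp.linearCombination_mapDomain, Finsupp.linearCombination_apply,
        Finsupp.linearCombination_apply, Finsupp.sum, Finsupp.sum, Finset.mul_sum]
      refine Finset.sum_congr rfl fun x _ => ?_
      simp only [zsmul_eq_mul, Function.comp_apply]
      ring
    rw [h2, hn, ← mul_assoc, inv_mul_cancel₀ hpi, one_mul]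
    rfl)
  choose nι hnι using hb0
  let r : SingCochain N ℚ := fun p q I s =>
    if hx : Liftable F (⟨p, q, I, s⟩ : Gen N) ∧ p + q = 2 * k then nι ⟨⟨p, q, I, s⟩, hx⟩ else 0
  let b : SingCochain N ℂ := fun p q I s => c * b0 ⟨p, q, I, s⟩
  have hcgb : ∀ z : Gen N →₀ ℤ, evc (cg b) z = c * evc b0 z := by
    intro z
    rw [evc_eq_sum, evc_eq_sum, Finset.mul_sum]
    refine Finset.sum_congr rfl fun y _ => ?_
    simp only [cg, b]
    ring
  have hrel : ∀ x : Gen N, Liftable F x ∧ x.1 + x.2.1 = 2 * k →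
      ((cg r x : ℚ) : ℂ) = c⁻¹ * W x - evc b0 (AHI.bd x) := by
    intro x hx
    have h1 : cg r x = nι ⟨x, hx⟩ := dif_pos hx
    rw [h1]
    exact hnι ⟨x, hx⟩
  refine ⟨r, b, ?_, ?_⟩
  · intro p q hpq I s v hv
    let x : Gen N := ⟨p, q, I, s⟩
    have hx : Liftable F x := ⟨v, hv⟩
    have h1 : (((totD r p q I s : ℚ)) : ℂ) = 0 := by
      have h2 : totD r p q I s = evc (cg r) (AHI.bd x) := (evc_bd r x).symm
      rw [h2, ← evc_ratCast]
      have h3 : evc (fun y => ((cg r y : ℚ) : ℂ)) (AHI.bd x) =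
          evc (fun y => c⁻¹ * W y + (fun y => -evc b0 (AHI.bd y)) y) (AHI.bd x) := by
        refine evc_congr fun y hy => ?_
        rw [hrel y (hx.bd hpq y hy)]
        ring
      have h5 : evc (fun y => -evc b0 (AHI.bd y)) (AHI.bd x) =
          -evc (fun y => evc b0 (AHI.bd y)) (AHI.bd x) := by
        rw [evc_eq_sum, evc_eq_sum, ← Finset.sum_neg_distrib]
        refine Finset.sum_congr rfl fun y _ => ?_
        ring
      rw [h3, evc_mul_add, h5, evc_evc_bd_bd, hW.bd x hx hpq]
      simp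
    exact_mod_cast h1
  · intro p q hpq I s v hv
    let x : Gen N := ⟨p, q, I, s⟩
    have hx : Liftable F x ∧ x.1 + x.2.1 = 2 * k := ⟨⟨v, hv⟩, hpq⟩
    have h1 : totD b p q I s = evc (cg b) (AHI.bd x) := (evc_bd b x).symm
    have h2 : (r p q I s : ℂ) = c⁻¹ * W x - evc b0 (AHI.bd x) := hrel x hx
    have h3 : formIntegral (w p q I) v = W x := hW.int x hpq v hv
    rw [h1, h2, hcgb, h3]
    field_simp
    ring

end Pool.Agent.AHR
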