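import Mathlib
import Pool.Agent.AHR.Nby
import Pool.Agent.AHC.Two

/-!
# Every automorphism over the algebraic numbers is a product of two elements of a given open set

Proof.  Let `t` be a basis of `X` (`exists_basis`), so `X ⊆ cl (range t)`.  By `exists_nearby` at
the independent family `α ∘ t` (and since in every ball there are families independent over a given
countable set: `cl_countable`, successive choice) choose `β₁, β₂ ∈ GA` with `‖β_j x - α x‖ < ε` on
`X` such that `β₁ ∘ t` is independent over `range t` and `β₂ ∘ t` is independent over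
`range (g ∘ t)`.  Let `δ = β₂.trans g.symm`; then `δ ∘ t` is independent over `range t`.  By
`AHC.glue` (with `X := range t`, `B := range (δ ∘ t)`, `B' := range (β₁.symm ∘ t)`,
`Ψ := δ.symm.trans β₁.symm`, `A := δ '' X`) there is `α' ` which fixes `cl (range t)` and agrees with
`Ψ` on `δ '' X`.  Put `σ₁ := α'.trans β₁` and `σ₂ := σ₁.symm.trans g`.  Then `σ₁ x = β₁ x` for
`x ∈ X`, `σ₁ (δ x) = x` for `x ∈ X`, hence `σ₂ x = g (δ x) = β₂ x` for `x ∈ X`.  (For the
independence of `β₁.symm ∘ t` over `range t` see the exchange argument at the end of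
`AHC.two_conjugates`.)
-/

namespace Pool.Agent.AHR

open Pool.Agent.AHC Pool.Agent.AHI

/-- every ball contains a number outside the algebraic closure of a countable set -/
private theorem exists_ball_notMem_cl {F : Set ℂ} (hF : F.Countable) (c : ℂ) {δ : ℝ}
    (hδ : 0 < δ) : ∃ z : ℂ, z ∉ cl F ∧ ‖z - c‖ < δ := by
  have h1 : Dense (cl F)ᶜ := (cl_countable hF).dense_compl ℝ
  obtain ⟨z, hz, h2⟩ := h1.exists_dist_lt c hδ
  refine ⟨z, hz, ?_⟩
  rw [← dist_eq_norm, dist_comm]
  exact h2

/-- every ball contains families independent over a countable set -/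
private theorem exists_seqInd_near {F : Set ℂ} (hF : F.Countable) {δ : ℝ} (hδ : 0 < δ) :
    ∀ (n : ℕ) (c : Fin n → ℂ), ∃ b : Fin n → ℂ, SeqInd F b ∧ ∀ i, ‖b i - c i‖ < δ
  | 0, _ => ⟨Fin.elim0, fun i => i.elim0, fun i => i.elim0⟩
  | n + 1, c => by
    obtain ⟨b, hb, hbc⟩ := exists_seqInd_near hF hδ n (fun i => c i.castSucc)
    obtain ⟨z, hz, hzc⟩ := exists_ball_notMem_cl (hF.union (Set.countable_range b))
      (c (Fin.last n)) hδ
    refine ⟨Fin.snoc b z, SeqInd.snoc ?_ ?_, fun i => ?_⟩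
    · simpa using hb
    · simpa using hz
    · induction i using Fin.lastCases with
      | last => simpa using hzc
      | cast i => simpa using hbc i

/-- exchange: if `t` is independent and `v` is independent over `t`, then `t` is independent
over `v` -/
private theorem seqInd_swap {n m : ℕ} {t : Fin n → ℂ} {v : Fin m → ℂ} (ht : SeqInd ∅ t)
    (hv : SeqInd (Set.range t) v) : SeqInd (Set.range v) t := by
  have h6 := ht.indep MC.empty_indep
  rw [Set.empty_union] at h6
  have h7 := hv.indep h6.1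
  refine SeqInd.of_indep ht.injective ?_ h7.2.symm
  rw [Set.union_comm]
  exact h7.1

/-- an automorphism close to `α` on `X` which moves the basis `t` to a position independent of
a countable set -/
private theorem exists_moved {α : ℂ ≃+* ℂ} (hα : α ∈ GA) {X : Set ℂ} (hX : X.Finite) {ε : ℝ}
    (hε : 0 < ε) {n : ℕ} {t : Fin n → ℂ} (ht : SeqInd ∅ t) (hXt : X ⊆ cl (Set.range t))
    {F : Set ℂ} (hF : F.Countable) :
    ∃ β ∈ GA, (∀ x ∈ X, ‖β x - α x‖ < ε) ∧ SeqInd F (fun i => β (t i)) := by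
  have h1 : SeqInd ∅ (fun i => α (t i)) := by
    have := ht.map α
    rwa [Set.image_empty] at this
  have h2 : α '' X ⊆ cl (Set.range fun i => α (t i)) := by
    have h3 := Set.image_mono (f := α) hXt
    rw [image_cl, ← Set.range_comp] at h3
    exact h3
  obtain ⟨δ, hδ, h3⟩ := exists_nearby h1 (hX.image α) h2 hε
  obtain ⟨v, hv1, hv2⟩ := exists_seqInd_near hF hδ n (fun i => α (t i))
  obtain ⟨β, hβ, h4, h5⟩ := h3 v (hv1.mono (Set.empty_subset _)) hv2
  refine ⟨α.trans β, fun z hz => ?_, fun x hx => ?_, ?_⟩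
  · rw [RingEquiv.trans_apply, hα z hz, hβ z hz]
  · rw [RingEquiv.trans_apply]
    exact h5 _ ⟨x, hx, rfl⟩
  · have h6 : (fun i => (α.trans β) (t i)) = v := by
      funext i
      rw [RingEquiv.trans_apply, h4]
    rw [h6]
    exact hv1

theorem exists_two {α : ℂ ≃+* ℂ} (hα : α ∈ GA) (X : Finset ℂ) {ε : ℝ} (hε : 0 < ε)
    {g : ℂ ≃+* ℂ} (hg : g ∈ GA) :
    ∃ σ₁ ∈ GA, ∃ σ₂ ∈ GA, (∀ x ∈ X, ‖σ₁ x - α x‖ < ε) ∧ (∀ x ∈ X, ‖σ₂ x - α x‖ < ε) ∧
      g = σ₁.trans σ₂ := by
  obtain ⟨n, t, ht1, -, ht3⟩ := exists_basis ∅ X.finite_toSet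
  rw [Set.empty_union] at ht3
  obtain ⟨β₁, hβ₁, h11, h12⟩ := exists_moved hα X.finite_toSet hε ht1 ht3
    (Set.countable_range t)
  obtain ⟨β₂, hβ₂, h21, h22⟩ := exists_moved hα X.finite_toSet hε ht1 ht3
    (Set.countable_range fun i => g (t i))
  -- the family `δ ∘ t`
  let δ : ℂ ≃+* ℂ := β₂.trans g.symm
  have hδ : ∀ z, δ z = g.symm (β₂ z) := fun _ => rfl
  have h3 : SeqInd (Set.range t) (fun i => δ (t i)) := by
    have h4 := h22.map g.symm
    have h5 : g.symm '' (Set.range fun i => g (t i)) = Set.range t := by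
      rw [← Set.range_comp]
      congr 1
      funext i
      exact g.symm_apply_apply (t i)
    rw [h5] at h4
    exact h4
  -- the family `β₁.symm ∘ t`
  have h6 : SeqInd (Set.range t) (fun i => β₁.symm (t i)) := by
    have h4 := (seqInd_swap ht1 h12).map β₁.symm
    have h5 : β₁.symm '' (Set.range fun i => β₁ (t i)) = Set.range t := by
      rw [← Set.range_comp]
      congr 1
      funext i
      exact β₁.symm_apply_apply (t i)
    rw [h5] at h4
    exact h4
  have hsymm : ∀ σ ∈ GA, ∀ z ∈ cl ∅, σ.symm z = z := by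
    intro σ hσ z hz
    rw [RingEquiv.symm_apply_eq, hσ z hz]
  have hδGA : δ ∈ GA := fun z hz => by
    rw [hδ, hβ₂ z hz, hsymm g hg z hz]
  obtain ⟨α', h7, h8⟩ := glue h3.indOver h6.indOver (δ.symm.trans β₁.symm)
    (fun z hz => by
      rw [RingEquiv.trans_apply, hsymm δ hδGA z hz, hsymm β₁ hβ₁ z hz])
    (X.finite_toSet.image δ)
    (by
      have h9 := Set.image_mono (f := δ) ht3
      rw [image_cl, ← Set.range_comp] at h9
      exact h9)
    (by
      have h9 := Set.image_mono (f := β₁.symm) ht3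
      rw [image_cl, ← Set.range_comp] at h9
      refine subset_trans ?_ h9
      rintro _ ⟨_, ⟨x, hx, rfl⟩, rfl⟩
      refine ⟨x, hx, ?_⟩
      rw [RingEquiv.trans_apply, RingEquiv.symm_apply_apply])
  have h10 : ∀ x ∈ X, α' x = x := fun x hx => h7 x (ht3 (Finset.mem_coe.2 hx))
  have h13 : ∀ x ∈ X, α' (δ x) = β₁.symm x := by
    intro x hx
    rw [h8 (δ x) ⟨x, Finset.mem_coe.2 hx, rfl⟩, RingEquiv.trans_apply,
      RingEquiv.symm_apply_apply]
  have hσ₁ : α'.trans β₁ ∈ GA := fun z hz => by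
    rw [RingEquiv.trans_apply, h7 z (cl_mono (Set.empty_subset _) hz), hβ₁ z hz]
  refine ⟨α'.trans β₁, hσ₁, (α'.trans β₁).symm.trans g, fun z hz => ?_, fun x hx => ?_,
    fun x hx => ?_, ?_⟩
  · rw [RingEquiv.trans_apply, hsymm _ hσ₁ z hz, hg z hz]
  · rw [RingEquiv.trans_apply, h10 x hx]
    exact h11 x (Finset.mem_coe.2 hx)
  · have h14 : (α'.trans β₁).symm x = δ x := by
      rw [RingEquiv.symm_apply_eq, RingEquiv.trans_apply, h13 x hx, RingEquiv.apply_symm_apply]
    rw [RingEquiv.trans_apply, h14, hδ, RingEquiv.apply_symm_apply]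
    exact h21 x (Finset.mem_coe.2 hx)
  · ext z
    rw [RingEquiv.trans_apply, RingEquiv.trans_apply, RingEquiv.symm_apply_apply]

end Pool.Agent.AHR
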