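import Mathlib
import Pool.Agent.AHR.RatP
import Pool.Agent.AHR.Cls
import Pool.Agent.AHR.Flat
import Pool.Agent.AHR.Two
import Pool.Agent.AHI.Fin

/-!
# Q1 for one involution, or for a somewhere dense set of automorphisms over the algebraic numbers
-/

namespace Pool.Agent.AHR

open MvPolynomial Pool.Agent.AHC Pool.Agent.AHI Filter
open scoped ContDiff Topology LinearAlgebra.Projectivization

variable {N m : ℕ}

/-- `σ` fixes all algebraic numbers -/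
def FixesAlg (σ : ℂ ≃+* ℂ) : Prop := ∀ z, IsAlgebraic ℚ z → σ z = z

/-- the set `P` is dense in a nonempty open subset of the group of all automorphisms of `ℂ` which
fix the algebraic numbers, for the topology of pointwise convergence where `ℂ` has its usual
topology -/
def SomewhereDense (P : Set (ℂ ≃+* ℂ)) : Prop :=
  ∃ α : ℂ ≃+* ℂ, FixesAlg α ∧ ∃ X : Finset ℂ, ∃ ε : ℝ, 0 < ε ∧
    ∀ β : ℂ ≃+* ℂ, FixesAlg β → (∀ x ∈ X, ‖β x - α x‖ < ε) →
      ∀ Y : Finset ℂ, ∀ δ : ℝ, 0 < δ → ∃ σ ∈ P, FixesAlg σ ∧ ∀ y ∈ Y, ‖σ y - β y‖ < δ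

theorem fixesAlg_iff {σ : ℂ ≃+* ℂ} : FixesAlg σ ↔ σ ∈ GA :=
  ⟨fun h z hz => h z (isAlgebraic_of_mem_cl_empty hz), fun h z hz => h z (mem_cl_empty hz)⟩

theorem FixesAlg.symm {σ : ℂ ≃+* ℂ} (h : FixesAlg σ) : FixesAlg σ.symm := by
  intro z hz
  rw [RingEquiv.symm_apply_eq, h z hz]

theorem FixesAlg.trans {σ τ : ℂ ≃+* ℂ} (h : FixesAlg σ) (h' : FixesAlg τ) :
    FixesAlg (σ.trans τ) := by
  intro z hz
  rw [RingEquiv.trans_apply, h z hz, h' z hz]

theorem fixesAlg_refl : FixesAlg (RingEquiv.refl ℂ) := fun _ _ => rfl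

theorem frequently_nearId_iff {P : (ℂ ≃+* ℂ) → Prop} :
    (∃ᶠ β in nearId, P β) ↔ ∀ X : Finset ℂ, ∀ ε : ℝ, 0 < ε →
      ∃ β : ℂ ≃+* ℂ, (∀ x ∈ X, ‖β x - x‖ < ε) ∧ P β := by
  unfold Filter.Frequently
  rw [eventually_nearId_iff]
  push Not
  rfl

/-- approximations of `β` give automorphisms near the identity -/
theorem frequently_of_dense {P : (ℂ ≃+* ℂ) → Prop} {β : ℂ ≃+* ℂ}
    (h : ∀ Y : Finset ℂ, ∀ δ : ℝ, 0 < δ → ∃ σ : ℂ ≃+* ℂ, P σ ∧ ∀ y ∈ Y, ‖σ y - β y‖ < δ) :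
    ∃ᶠ γ in nearId, P (β.trans γ) := by
  classical
  rw [frequently_nearId_iff]
  intro X ε hε
  obtain ⟨σ, hσ, h1⟩ := h (X.image β.symm) ε hε
  refine ⟨β.symm.trans σ, fun x hx => ?_, ?_⟩
  · have h2 := h1 (β.symm x) (Finset.mem_image_of_mem _ hx)
    rwa [β.apply_symm_apply] at h2
  · have h3 : β.trans (β.symm.trans σ) = σ := by
      ext z
      simp
    rwa [h3]

theorem isClosed_RC : IsClosed RC := Complex.isometry_ofReal.isClosedEmbedding.isClosed_range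

theorem conjEqs_refl (F : Fin m → CPoly N) : conjEqs (RingEquiv.refl ℂ) F = F := by
  have h0 : ((RingEquiv.refl ℂ : ℂ ≃+* ℂ) : ℂ →+* ℂ) = RingHom.id ℂ := rfl
  funext i
  simp only [conjEqs, h0, MvPolynomial.map_id]

/-- **a class all of whose conjugates are real and which is a limit of rational conjugates is
rational** -/
theorem rational_of_frequently {F : Fin m → CPoly N} {k : ℕ} {w : FormCochain N}
    (hsm : IsSmoothProjective F) (hh : IsHodgeCochain k w)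
    (h : ∀ᶠ β in nearId, β ∈ GA → PerIn RC (conjEqs β F) k (w.conj β))
    (hf : ∃ᶠ β in nearId, IsRationalClass (conjEqs β F) k (w.conj β)) :
    IsRationalClass F k w := by
  refine isRationalClass_of_perIn ?_
  have h0 := self_of_nearId h refl_mem_GA
  have hw : w.conj (RingEquiv.refl ℂ) = w := by
    funext p q I
    exact FormCochain.conj_refl w p q I
  rw [conjEqs_refl, hw] at h0
  obtain ⟨W, hW, -⟩ := h0
  refine ⟨W, hW, fun z hz => ?_⟩
  obtain ⟨β, hr, h1⟩ := (hf.and_eventually (flat hsm hh h hW hz)).exists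
  obtain ⟨W', hW', hr'⟩ := perIn_of_isRationalClass hr
  obtain ⟨z', hz', h2⟩ := h1 W' hW'
  obtain ⟨a, ha, h3⟩ := hr' z' hz'
  exact ⟨a, ha, by rw [← h2, h3]⟩

/-- the good automorphisms contain every open set in which they are dense -/
theorem mem_of_dense {C : Set Datum} {β : ℂ ≃+* ℂ}
    {X : Finset ℂ} {ε : ℝ} (hε : 0 < ε)
    (h : ∀ β' : ℂ ≃+* ℂ, FixesAlg β' → (∀ x ∈ X, ‖β' x - β x‖ < ε) →
      ∀ Y : Finset ℂ, ∀ δ : ℝ, 0 < δ →
        ∃ σ ∈ {σ | DeRhamPart C σ}, FixesAlg σ ∧ ∀ y ∈ Y, ‖σ y - β' y‖ < δ)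
    (hβ : FixesAlg β) : DeRhamPart C β := by
  classical
  intro d hd hr
  have key : ∀ γ : ℂ ≃+* ℂ, FixesAlg γ → (∀ x ∈ X.image β, ‖γ x - x‖ < ε) →
      ∃ᶠ κ in nearId, (FixesAlg ((β.trans γ).trans κ) ∧
        (d.conj ((β.trans γ).trans κ)).IsRational) := by
    intro γ hγ hγX
    refine frequently_of_dense (P := fun σ => FixesAlg σ ∧ (d.conj σ).IsRational) ?_
    intro Y δ hδ
    obtain ⟨σ, h1, h2, h3⟩ := h (β.trans γ) (hβ.trans hγ) (fun x hx =>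
      hγX (β x) (Finset.mem_image_of_mem _ hx)) Y δ hδ
    exact ⟨σ, ⟨h2, h1 d hd hr⟩, h3⟩
  change IsRationalClass (d.conj β).F (d.conj β).k (d.conj β).w
  refine rational_of_frequently (d.conj β).smooth (d.conj β).hodge ?_ ?_
  · rw [eventually_nearId_iff]
    refine ⟨X.image β, ε, hε, fun γ hγX hγ => ?_⟩
    change PerIn RC ((d.conj β).conj γ).F ((d.conj β).conj γ).k ((d.conj β).conj γ).w
    refine perIn_of_frequently isClosed_RC ((d.conj β).conj γ).smooth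
      ((d.conj β).conj γ).hodge ?_
    refine (key γ (fixesAlg_iff.2 hγ) hγX).mono ?_
    rintro κ ⟨-, hκ⟩
    rw [← Datum.conj_conj, ← Datum.conj_conj] at hκ
    exact (perIn_of_isRationalClass hκ).mono QC_subset_RC
  · have h1 := key (RingEquiv.refl ℂ) fixesAlg_refl (by
      intro x _
      simpa using hε)
    refine h1.mono ?_
    rintro κ ⟨-, h3⟩
    have h4 : β.trans (RingEquiv.refl ℂ) = β := by
      ext z
      rfl
    rw [h4, ← Datum.conj_conj] at h3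
    exact h3

/-- **zero-one law**: if the good automorphisms over the algebraic numbers are somewhere dense,
then all automorphisms over the algebraic numbers are good -/
theorem all_of_somewhereDense {C : Set Datum} (hC : Stable C)
    (h : SomewhereDense {σ | DeRhamPart C σ}) {g : ℂ ≃+* ℂ} (hg : FixesAlg g) :
    DeRhamPart C g := by
  obtain ⟨α, hα, X, ε, hε, h1⟩ := h
  have key : ∀ β : ℂ ≃+* ℂ, FixesAlg β → (∀ x ∈ X, ‖β x - α x‖ < ε) → DeRhamPart C β := by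
    intro β hβ hβX
    obtain ⟨ε', hε', h2⟩ : ∃ ε' > 0, ∀ x ∈ X, ε' ≤ ε - ‖β x - α x‖ := by
      obtain ⟨a, ha, h3⟩ := exists_pos_le (fun x : X => ε - ‖β x - α x‖)
        fun x => sub_pos.2 (hβX x x.2)
      exact ⟨a, ha, fun x hx => h3 ⟨x, hx⟩⟩
    refine mem_of_dense (X := X) hε' (fun β' hβ' hβ'X => h1 β' hβ' fun x hx => ?_) hβ
    have h3 := hβ'X x hx
    have h4 := h2 x hx
    have h5 : β' x - α x = (β' x - β x) + (β x - α x) := by ring
    rw [h5]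
    refine (norm_add_le _ _).trans_lt ?_
    linarith
  obtain ⟨σ₁, h1', σ₂, h2', h3, h4, rfl⟩ := exists_two (fixesAlg_iff.1 hα) X hε (fixesAlg_iff.1 hg)
  exact (isClosedMonoid_deRhamPart hC).mul_mem _ (key σ₁ (fixesAlg_iff.2 h1') h3) _
    (key σ₂ (fixesAlg_iff.2 h2') h4)

theorem pw_mem {H : Set (ℂ ≃+* ℂ)} (hH : IsClosedMonoid H) {τ : ℂ ≃+* ℂ} (h : τ ∈ H)
    (n : ℕ) : pw τ n ∈ H := by
  induction n with
  | zero => exact hH.one_mem
  | succ n ih => exact hH.mul_mem _ ih _ h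

theorem pw_fixesAlg {τ : ℂ ≃+* ℂ} (h : FixesAlg τ) (n : ℕ) : FixesAlg (pw τ n) := by
  induction n with
  | zero => exact fixesAlg_refl
  | succ n ih => exact ih.trans h

/-- the automorphisms which fix all real algebraic numbers fixed by the given good automorphisms
are good -/
theorem over_fixed {C : Set Datum} (hC : Stable C)
    (h : SomewhereDense {σ | DeRhamPart C σ}) {T : Set (ℂ ≃+* ℂ)}
    (hT : ∀ τ ∈ T, DeRhamPart C τ) (σ : ℂ ≃+* ℂ)
    (hσ : ∀ z, IsAlgebraic ℚ z → z.im = 0 → (∀ τ ∈ T, τ z = z) → σ z = z) :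
    DeRhamPart C σ := by
  refine galois_closed (isClosedMonoid_deRhamPart hC)
    (fun τ hτ => all_of_somewhereDense hC h (fixesAlg_iff.2 hτ)) σ fun z hz hz' =>
    hσ z (isAlgebraic_of_mem_cl_empty hz)
      (cc_eq_self_iff.1 (hz' cc (cc_mem_deRhamPart C))) fun τ hτ => hz' τ (hT τ hτ)

/-- **main theorem** -/
theorem main : ∃ ρ : ℂ ≃+* ℂ, FixesAlg ρ ∧
    ∀ C : Set Datum, Stable C → ∀ T : Set (ℂ ≃+* ℂ),
      ((DeRhamPart C (conjBy ρ) ∧ ∀ τ ∈ T, DeRhamPart C τ) ↔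
        ∀ σ : ℂ ≃+* ℂ, (∀ z, IsAlgebraic ℚ z → z.im = 0 → (∀ τ ∈ T, τ z = z) → σ z = z) →
          DeRhamPart C σ) ∧
      ((SomewhereDense {σ | DeRhamPart C σ} ∧ ∀ τ ∈ T, DeRhamPart C τ) ↔
        ∀ σ : ℂ ≃+* ℂ, (∀ z, IsAlgebraic ℚ z → z.im = 0 → (∀ τ ∈ T, τ z = z) → σ z = z) →
          DeRhamPart C σ) := by
  obtain ⟨ρ, hρ0, hρ⟩ := exists_rho
  refine ⟨ρ, fun z hz => hρ0 z (mem_cl_empty hz), fun C hC T => ?_⟩
  have hH := isClosedMonoid_deRhamPart hC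
  have hc := cc_mem_deRhamPart C
  have hb : (∀ σ : ℂ ≃+* ℂ, (∀ z, IsAlgebraic ℚ z → z.im = 0 → (∀ τ ∈ T, τ z = z) → σ z = z) →
      DeRhamPart C σ) → ∀ τ ∈ T, DeRhamPart C τ := fun h τ hτ => h τ fun z _ _ hz => hz τ hτ
  refine ⟨⟨fun h σ hσ => ?_, fun h => ⟨h _ fun z hz hz' _ => ?_, hb h⟩⟩,
    ⟨fun h σ hσ => over_fixed hC h.1 h.2 σ hσ, fun h => ⟨?_, hb h⟩⟩⟩
  · refine over_fixed hC ?_ h.2 σ hσ
    have hτ : (conjBy ρ).trans cc ∈ {σ | DeRhamPart C σ} := hH.mul_mem _ h.1 _ hc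
    have hτ0 : FixesAlg ((conjBy ρ).trans cc) := by
      intro z hz
      have hz' : z ∈ cl ∅ := mem_cl_empty hz
      have h1 : ρ.symm (cc z) = cc z := by
        rw [RingEquiv.symm_apply_eq, hρ0 _ (map_cl_empty cc hz')]
      rw [RingEquiv.trans_apply, conjBy_apply, hρ0 z hz', h1, cc_cc]
    refine ⟨RingEquiv.refl ℂ, fixesAlg_refl, ∅, 1, one_pos, fun β hβ _ Y δ hδ => ?_⟩
    obtain ⟨n, hn⟩ := hρ β (fixesAlg_iff.1 hβ) Y δ hδ
    refine ⟨pw ((conjBy ρ).trans cc) n, pw_mem hH hτ n, pw_fixesAlg hτ0 n, fun y hy => ?_⟩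
    rw [pw_apply]
    exact hn y hy
  · rw [conjBy_apply, hρ0 z (mem_cl_empty hz), cc_eq_self_iff.2 hz', RingEquiv.symm_apply_eq,
      hρ0 z (mem_cl_empty hz)]
  · refine ⟨RingEquiv.refl ℂ, fixesAlg_refl, ∅, 1, one_pos, fun β hβ _ Y δ hδ => ?_⟩
    refine ⟨β, h β fun z hz _ _ => hβ z hz, hβ, fun y _ => by simpa using hδ⟩

end Pool.Agent.AHR
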