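import Mathlib
import Pool.Agent.AHR.Main

/-!
# The automorphisms for which the conjugate of a given class is rational

`rational_of_dense`: the set of automorphisms `σ` for which the conjugate `d.conj σ` is rational
contains every open set in which it is dense.  `dihedral`: the conjugates by the elements of one
dihedral group are enough.
-/

namespace Pool.Agent.AHR

open MvPolynomial Pool.Agent.AHC Pool.Agent.AHI Filter
open scoped ContDiff Topology LinearAlgebra.Projectivization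

/-- if every automorphism close to `β` which agrees with `β` on the algebraic numbers is a limit of
automorphisms `σ` with `d.conj σ` rational, then `d.conj β` is rational -/
theorem rational_of_dense {d : Datum} {β : ℂ ≃+* ℂ} {X : Finset ℂ} {ε : ℝ} (hε : 0 < ε)
    (h : ∀ γ : ℂ ≃+* ℂ, FixesAlg γ → (∀ x ∈ X, ‖γ (β x) - β x‖ < ε) →
      ∀ Y : Finset ℂ, ∀ δ : ℝ, 0 < δ →
        ∃ σ : ℂ ≃+* ℂ, (d.conj σ).IsRational ∧ ∀ y ∈ Y, ‖σ y - γ (β y)‖ < δ) :
    (d.conj β).IsRational := by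
  classical
  have key : ∀ γ : ℂ ≃+* ℂ, FixesAlg γ → (∀ x ∈ X.image β, ‖γ x - x‖ < ε) →
      ∃ᶠ κ in nearId, (d.conj ((β.trans γ).trans κ)).IsRational := by
    intro γ hγ hγX
    refine frequently_of_dense (P := fun σ => (d.conj σ).IsRational) ?_
    intro Y δ hδ
    exact h γ hγ (fun x hx => hγX (β x) (Finset.mem_image_of_mem _ hx)) Y δ hδ
  change IsRationalClass (d.conj β).F (d.conj β).k (d.conj β).w
  refine rational_of_frequently (d.conj β).smooth (d.conj β).hodge ?_ ?_
  · rw [eventually_nearId_iff]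
    refine ⟨X.image β, ε, hε, fun γ hγX hγ => ?_⟩
    change PerIn RC ((d.conj β).conj γ).F ((d.conj β).conj γ).k ((d.conj β).conj γ).w
    refine perIn_of_frequently isClosed_RC ((d.conj β).conj γ).smooth
      ((d.conj β).conj γ).hodge ?_
    refine (key γ (fixesAlg_iff.2 hγ) hγX).mono ?_
    intro κ hκ
    rw [← Datum.conj_conj, ← Datum.conj_conj] at hκ
    exact (perIn_of_isRationalClass hκ).mono QC_subset_RC
  · have h1 := key (RingEquiv.refl ℂ) fixesAlg_refl (by
      intro x _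
      simpa using hε)
    refine h1.mono ?_
    intro κ h3
    have h4 : β.trans (RingEquiv.refl ℂ) = β := by
      ext z
      rfl
    rw [h4, ← Datum.conj_conj] at h3
    exact h3

/-- the closure of a set of automorphisms for agreement on finite sets -/
def kcl (M : Set (ℂ ≃+* ℂ)) : Set (ℂ ≃+* ℂ) :=
  {σ | ∀ A : Set ℂ, A.Finite → ∃ h ∈ M, ∀ a ∈ A, h a = σ a}

theorem subset_kcl (M : Set (ℂ ≃+* ℂ)) : M ⊆ kcl M := fun σ hσ _ _ => ⟨σ, hσ, fun _ _ => rfl⟩

theorem isClosedMonoid_kcl {M : Set (ℂ ≃+* ℂ)} (h1 : RingEquiv.refl ℂ ∈ M)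
    (h2 : ∀ σ ∈ M, ∀ τ ∈ M, σ.trans τ ∈ M) : IsClosedMonoid (kcl M) where
  one_mem := subset_kcl M h1
  mul_mem := by
    intro σ hσ τ hτ A hA
    obtain ⟨h, hh, h3⟩ := hσ A hA
    obtain ⟨h', hh', h4⟩ := hτ (σ '' A) (hA.image σ)
    refine ⟨h.trans h', h2 _ hh _ hh', fun a ha => ?_⟩
    rw [RingEquiv.trans_apply, RingEquiv.trans_apply, h3 a ha, h4 _ ⟨a, ha, rfl⟩]
  closed := by
    intro σ hσ A hA
    obtain ⟨τ, hτ, h3⟩ := hσ A hA
    obtain ⟨h, hh, h4⟩ := hτ A hA
    exact ⟨h, hh, fun a ha => by rw [h4 a ha, h3 a ha]⟩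

/-- **dihedral test**: there is an involution `i = ρ⁻¹ c ρ`, with `ρ` fixing the algebraic numbers,
such that for every class and every set `T` of automorphisms: the conjugates of the class by all
products of `i`, `c` and elements of `T` are rational iff its conjugates by all automorphisms which
fix every real algebraic number fixed by `T` are rational -/
theorem dihedral : ∃ ρ : ℂ ≃+* ℂ, FixesAlg ρ ∧ ∀ (d : Datum) (T : Set (ℂ ≃+* ℂ)),
    (∀ w : RingAut ℂ, w ∈ Submonoid.closure (insert (conjBy ρ) (insert cc T) : Set (RingAut ℂ)) →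
      (d.conj w).IsRational) ↔
    ∀ σ : ℂ ≃+* ℂ, (∀ z, IsAlgebraic ℚ z → z.im = 0 → (∀ τ ∈ T, τ z = z) → σ z = z) →
      (d.conj σ).IsRational := by
  obtain ⟨ρ, hρ0, hρ⟩ := exists_rho
  have hi : ∀ z, IsAlgebraic ℚ z → z.im = 0 → conjBy ρ z = z := by
    intro z hz hz'
    rw [conjBy_apply, hρ0 z (mem_cl_empty hz), cc_eq_self_iff.2 hz', RingEquiv.symm_apply_eq,
      hρ0 z (mem_cl_empty hz)]
  refine ⟨ρ, fun z hz => hρ0 z (mem_cl_empty hz), fun d T => ⟨fun h σ hσ => ?_, fun h w hw => ?_⟩⟩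
  · set M : Submonoid (RingAut ℂ) :=
      Submonoid.closure (insert (conjBy ρ) (insert cc T) : Set (RingAut ℂ)) with hM
    have hmul : ∀ σ ∈ M, ∀ τ ∈ M, (RingEquiv.trans σ τ : ℂ ≃+* ℂ) ∈ M :=
      fun σ hσ τ hτ => M.mul_mem hτ hσ
    have hiM : (conjBy ρ : RingAut ℂ) ∈ M := Submonoid.subset_closure (by simp)
    have hcM : (cc : RingAut ℂ) ∈ M := Submonoid.subset_closure (by simp)
    have hTM : ∀ τ ∈ T, (τ : RingAut ℂ) ∈ M := fun τ hτ =>
      Submonoid.subset_closure (by simp [hτ])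
    -- the conjugates by products of an element of `M` and an automorphism over the algebraic
    -- numbers
    let MG : Set (ℂ ≃+* ℂ) := {σ | ∃ w : ℂ ≃+* ℂ, w ∈ M ∧ ∃ g ∈ GA, σ = w.trans g}
    have hτM : ((conjBy ρ).trans cc : RingAut ℂ) ∈ M := hmul _ hiM _ hcM
    have hpwM : ∀ n : ℕ, (pw ((conjBy ρ).trans cc) n : RingAut ℂ) ∈ M := by
      intro n
      induction n with
      | zero => exact M.one_mem
      | succ n ih => exact hmul _ ih _ hτM
    have hMG : ∀ σ ∈ MG, (d.conj σ).IsRational := by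
      rintro _ ⟨w, hw, g, hg, rfl⟩
      rw [← Datum.conj_conj]
      refine rational_of_dense (X := ∅) one_pos fun γ hγ _ Y δ hδ => ?_
      obtain ⟨n, hn⟩ := hρ (g.trans γ) (by
        intro z hz
        rw [RingEquiv.trans_apply, hg z hz, fixesAlg_iff.1 hγ z hz]) Y δ hδ
      refine ⟨pw ((conjBy ρ).trans cc) n, ?_, fun y hy => ?_⟩
      · rw [Datum.conj_conj]
        exact h _ (hmul _ hw _ (hpwM n))
      · rw [pw_apply]
        exact hn y hy
    have hMG1 : RingEquiv.refl ℂ ∈ MG :=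
      ⟨RingEquiv.refl ℂ, M.one_mem, RingEquiv.refl ℂ, refl_mem_GA, rfl⟩
    have hMG2 : ∀ σ ∈ MG, ∀ τ ∈ MG, σ.trans τ ∈ MG := by
      rintro _ ⟨w, hw, g, hg, rfl⟩ _ ⟨w', hw', g', hg', rfl⟩
      refine ⟨w.trans w', hmul _ hw _ hw', (w'.symm.trans (g.trans w')).trans g', ?_, ?_⟩
      · intro z hz
        have h1 : w'.symm z ∈ cl ∅ := map_cl_empty w'.symm hz
        rw [RingEquiv.trans_apply, RingEquiv.trans_apply, RingEquiv.trans_apply, hg _ h1,
          RingEquiv.apply_symm_apply, hg' z hz]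
      · ext z
        simp
    have hH := isClosedMonoid_kcl hMG1 hMG2
    have hσH : σ ∈ kcl MG := by
      refine galois_closed hH (fun g hg => subset_kcl _ ⟨RingEquiv.refl ℂ, M.one_mem, g, hg, ?_⟩)
        σ fun z hz hz' => ?_
      · ext z
        rfl
      · have hw : ∀ w : ℂ ≃+* ℂ, w ∈ M → w z = z := fun w hw =>
          hz' w (subset_kcl _ ⟨w, hw, RingEquiv.refl ℂ, refl_mem_GA, by ext z; rfl⟩)
        exact hσ z (isAlgebraic_of_mem_cl_empty hz) (cc_eq_self_iff.1 (hw cc hcM))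
          fun τ hτ => hw τ (hTM τ hτ)
    obtain ⟨A, hA, hAd⟩ := d.exists_finite
    obtain ⟨τ, hτ, h1⟩ := hσH A hA
    exact hAd τ σ h1 (hMG τ hτ)
  · refine h w ?_
    intro z hz hz' hzT
    induction hw using Submonoid.closure_induction with
    | mem x hx =>
      rcases hx with rfl | rfl | hx
      · exact hi z hz hz'
      · exact cc_eq_self_iff.2 hz'
      · exact hzT x hx
    | one => rfl
    | mul x y _ _ hx hy =>
      change x (y z) = z
      rw [hy, hx]

end Pool.Agent.AHR
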