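import Mathlib
import Pool.Agent.AHR.Pt
import Pool.Agent.AHR.Two2

/-!
# A zero-one law for Q1 (de Rham part of the absolute Hodge conjecture)

For a class of data stable under `Aut ℂ`, the set of automorphisms for which Q1 holds on the class is
nowhere dense in `Aut ℂ` (pointwise convergence, usual topology of `ℂ`) or it is the group of all
automorphisms which fix a certain real number field.
-/

namespace Pool.Agent.AHR

open MvPolynomial Pool.Agent.AHC Pool.Agent.AHI Filter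
open scoped ContDiff Topology LinearAlgebra.Projectivization

/-- the set `P` is dense in a nonempty open subset of the group of all automorphisms of `ℂ`, for the
topology of pointwise convergence where `ℂ` has its usual topology -/
def SomewhereDenseIn (P : Set (ℂ ≃+* ℂ)) : Prop :=
  ∃ α : ℂ ≃+* ℂ, ∃ X : Finset ℂ, ∃ ε : ℝ, 0 < ε ∧
    ∀ β : ℂ ≃+* ℂ, (∀ x ∈ X, ‖β x - α x‖ < ε) →
      ∀ Y : Finset ℂ, ∀ δ : ℝ, 0 < δ → ∃ σ ∈ P, ∀ y ∈ Y, ‖σ y - β y‖ < δ

/-- the conjugates of the elements of a finite set of algebraic numbers -/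
theorem exists_stable (N : Finset ℂ) (hN : ∀ z ∈ N, z ∈ cl ∅) : ∃ N' : Finset ℂ, N ⊆ N' ∧
    (∀ z ∈ N', z ∈ cl ∅) ∧ ∀ σ : ℂ ≃+* ℂ, ∀ z ∈ N', σ z ∈ N' := by
  classical
  refine ⟨N.biUnion fun z => (minpoly ℚ z).rootSet ℂ |>.toFinset, ?_, ?_, ?_⟩
  · intro z hz
    have hint : IsIntegral ℚ z := (isAlgebraic_of_mem_cl_empty (hN z hz)).isIntegral
    rw [Finset.mem_biUnion]
    refine ⟨z, hz, ?_⟩
    rw [Set.mem_toFinset, Polynomial.mem_rootSet]
    exact ⟨minpoly.ne_zero hint, minpoly.aeval _ _⟩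
  · intro z hz
    obtain ⟨w, hw, hz⟩ := Finset.mem_biUnion.1 hz
    rw [Set.mem_toFinset, Polynomial.mem_rootSet] at hz
    exact mem_cl_empty ⟨minpoly ℚ w, hz.1, hz.2⟩
  · intro σ z hz
    obtain ⟨w, hw, hz⟩ := Finset.mem_biUnion.1 hz
    rw [Set.mem_toFinset, Polynomial.mem_rootSet] at hz
    rw [Finset.mem_biUnion]
    refine ⟨w, hw, ?_⟩
    rw [Set.mem_toFinset, Polynomial.mem_rootSet]
    refine ⟨hz.1, ?_⟩
    have h1 : Polynomial.aeval (asRat σ z) (minpoly ℚ w) =
        asRat σ (Polynomial.aeval z (minpoly ℚ w)) :=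
      Polynomial.aeval_algHom_apply (asRat σ : ℂ →ₐ[ℚ] ℂ) z _
    rw [asRat_apply] at h1
    rw [h1, hz.2, map_zero]

/-- a power of an automorphism fixes a finite stable set -/
theorem exists_pow_fix {N : Finset ℂ} (α : ℂ ≃+* ℂ) (hα : ∀ z ∈ N, α z ∈ N) :
    ∃ n : ℕ, 2 ≤ n ∧ ∀ z ∈ N, pw α n z = z := by
  classical
  let f : N → N := fun z => ⟨α z, hα z z.2⟩
  have hf : Function.Injective f := fun a b h =>
    Subtype.ext (α.injective (congrArg (fun z : N => (z : ℂ)) h))
  have hb : Function.Bijective f := Finite.injective_iff_bijective.1 hf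
  let e : Equiv.Perm N := Equiv.ofBijective f hb
  have hpow : ∀ (n : ℕ) (z : N), ((e ^ n) z : ℂ) = pw α n z := by
    intro n z
    induction n with
    | zero => rfl
    | succ n ih =>
      rw [pow_succ', Equiv.Perm.mul_apply]
      change α ((e ^ n) z : ℂ) = _
      rw [ih]
      rw [pw_apply, pw_apply, Function.iterate_succ_apply']
  refine ⟨orderOf e * 2, ?_, fun z hz => ?_⟩
  · have h1 : 0 < orderOf e := orderOf_pos e
    omega
  · rw [← hpow _ ⟨z, hz⟩, pow_mul, pow_orderOf_eq_one, one_pow]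
    rfl

/-- an automorphism which is close to the identity at algebraic numbers fixes them -/
theorem exists_eps_fix (X : Finset ℂ) (hX : ∀ x ∈ X, x ∈ cl ∅) : ∃ ε > 0, ∀ β : ℂ ≃+* ℂ,
    (∀ x ∈ X, ‖β x - x‖ < ε) → ∀ x ∈ X, β x = x := by
  classical
  obtain ⟨N, h1, -, h3⟩ := exists_stable X hX
  obtain ⟨ε, hε, h4⟩ := exists_pos_le
    (fun p : {p : N × N // (p.1 : ℂ) ≠ p.2} => ‖(p.1.1 : ℂ) - p.1.2‖)
    fun p => norm_pos_iff.2 (sub_ne_zero.2 p.2)
  refine ⟨ε, hε, fun β hβ x hx => ?_⟩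
  by_contra hne
  have h5 := h4 ⟨(⟨β x, h3 β x (h1 hx)⟩, ⟨x, h1 hx⟩), hne⟩
  exact absurd (hβ x hx) (not_lt.2 h5)

/-- the field of algebraic numbers fixed by a set of automorphisms -/
def fixK (H : Set (ℂ ≃+* ℂ)) : IntermediateField ℚ ℂ where
  carrier := {z | z ∈ cl ∅ ∧ ∀ h ∈ H, h z = z}
  mul_mem' := fun ha hb => ⟨(clF ∅).mul_mem ha.1 hb.1, fun h hh => by
    rw [map_mul, ha.2 h hh, hb.2 h hh]⟩
  one_mem' := ⟨(clF ∅).one_mem, fun h _ => map_one h⟩
  add_mem' := fun ha hb => ⟨(clF ∅).add_mem ha.1 hb.1, fun h hh => by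
    rw [map_add, ha.2 h hh, hb.2 h hh]⟩
  zero_mem' := ⟨(clF ∅).zero_mem, fun h _ => map_zero h⟩
  algebraMap_mem' := fun r => ⟨(clF ∅).algebraMap_mem r, fun h _ => by simp⟩
  inv_mem' := fun _ hx => ⟨(clF ∅).inv_mem hx.1, fun h hh => by rw [map_inv₀, hx.2 h hh]⟩

theorem mem_fixK {H : Set (ℂ ≃+* ℂ)} {z : ℂ} : z ∈ fixK H ↔ z ∈ cl ∅ ∧ ∀ h ∈ H, h z = z := Iff.rfl

/-- **zero-one law** -/
theorem dichotomy {C : Set Datum} (hC : Stable C) :
    SomewhereDenseIn {σ | DeRhamPart C σ} ↔ ∃ k : IntermediateField ℚ ℂ,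
      FiniteDimensional ℚ k ∧ (∀ z ∈ k, z.im = 0) ∧
        ∀ σ : ℂ ≃+* ℂ, DeRhamPart C σ ↔ ∀ z ∈ k, σ z = z := by
  classical
  have hH := isClosedMonoid_deRhamPart hC
  have hcc := cc_mem_deRhamPart C
  constructor
  · rintro ⟨α, X, ε, hε, h⟩
    -- the open set consists of good automorphisms
    have hO : ∀ β : ℂ ≃+* ℂ, (∀ x ∈ X, ‖β x - α x‖ < ε) → DeRhamPart C β := by
      intro β hβX d hd hr
      obtain ⟨ε', hε', h3⟩ := exists_pos_le (fun x : X => ε - ‖β x - α x‖)
        fun x => sub_pos.2 (hβX x x.2)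
      refine rational_of_dense (X := X) hε' fun γ _ hγX Y δ hδ => ?_
      obtain ⟨σ, h4, h5⟩ := h (β.trans γ) (fun x hx => by
        have h6 := hγX x hx
        have h7 := h3 ⟨x, hx⟩
        have h8 : (β.trans γ) x - α x = (γ (β x) - β x) + (β x - α x) := by
          rw [RingEquiv.trans_apply]
          ring
        rw [h8]
        refine (norm_add_le _ _).trans_lt ?_
        linarith) Y δ hδ
      exact ⟨σ, h4 d hd hr, h5⟩
    have hα : DeRhamPart C α := hO α fun x _ => by simpa using hε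
    obtain ⟨N, hN, htwo⟩ := exists_two' α X hε
    obtain ⟨N', hNN', hN', hst⟩ := exists_stable N hN
    obtain ⟨n, hn2, hn⟩ := exists_pow_fix α (hst α)
    -- all automorphisms which fix `N'` are good
    have hfix : ∀ a : ℂ ≃+* ℂ, (∀ z ∈ N', a z = z) → DeRhamPart C a := by
      intro a ha
      let P : ℂ ≃+* ℂ := pw α (n - 2)
      have hP : DeRhamPart C P := pw_mem hH hα (n - 2)
      obtain ⟨σ₁, σ₂, h1, h2, h3⟩ := htwo (P.symm.trans a) (fun z hz => by
        have h4 : P.symm z ∈ N' := hst P.symm z (hNN' hz)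
        rw [RingEquiv.trans_apply, ha _ h4, RingEquiv.symm_apply_eq]
        have h5 := hn z (hNN' hz)
        have h6 : n = (n - 2) + 2 := by omega
        rw [pw_apply, h6, Function.iterate_add_apply] at h5
        change z = pw α (n - 2) (α (α z))
        rw [pw_apply]
        exact h5.symm)
      have h4 : a = P.trans (σ₁.trans σ₂) := by
        rw [← h3]
        ext z
        simp
      rw [h4]
      exact hH.mul_mem _ hP _ (hH.mul_mem _ (hO σ₁ h1) _ (hO σ₂ h2))
    let H : Set (ℂ ≃+* ℂ) := {σ | DeRhamPart C σ}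
    let K1 : IntermediateField ℚ ℂ := IntermediateField.adjoin ℚ (N' : Set ℂ)
    have hK1 : FiniteDimensional ℚ K1 := by
      refine IntermediateField.finiteDimensional_adjoin fun z hz => ?_
      exact (isAlgebraic_of_mem_cl_empty (hN' z hz)).isIntegral
    have hle : fixK H ≤ K1 := by
      intro z hz
      by_contra hzK
      obtain ⟨a, ha, haz⟩ := exists_aut_ne K1.toSubfield hz.1 hzK
      exact haz (hz.2 a (hfix a fun x hx =>
        ha x (IntermediateField.subset_adjoin ℚ _ (Finset.mem_coe.2 hx))))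
    refine ⟨fixK H, ?_, fun z hz => cc_eq_self_iff.1 (hz.2 cc hcc), fun σ =>
      ⟨fun hσ z hz => hz.2 σ hσ, fun hσ => ?_⟩⟩
    · exact FiniteDimensional.of_injective (IntermediateField.inclusion hle).toLinearMap
        (IntermediateField.inclusion_injective hle)
    · exact galois_closed hH (fun g hg => hfix g fun z hz => hg z (hN' z hz)) σ
        fun z hz hz' => hσ z ⟨hz, hz'⟩
  · rintro ⟨k, hk, -, hkσ⟩
    have hfg : k.FG := IntermediateField.essFiniteType_iff.1 inferInstance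
    obtain ⟨S, hS⟩ := hfg
    have hSk : ∀ x ∈ S, x ∈ k := fun x hx => by
      rw [← hS]
      exact IntermediateField.subset_adjoin ℚ _ hx
    have hSalg : ∀ x ∈ S, x ∈ cl ∅ := by
      intro x hx
      have h1 : IsAlgebraic ℚ (⟨x, hSk x hx⟩ : k) := Algebra.IsAlgebraic.isAlgebraic _
      exact mem_cl_empty ((isAlgebraic_algebraMap_iff (algebraMap k ℂ).injective).2 h1)
    obtain ⟨ε, hε, h1⟩ := exists_eps_fix S hSalg
    refine ⟨RingEquiv.refl ℂ, S, ε, hε, fun β hβ Y δ hδ => ⟨β, ?_, fun y _ => by simpa using hδ⟩⟩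
    change DeRhamPart C β
    rw [hkσ]
    have h2 := h1 β hβ
    intro z hz
    rw [← hS] at hz
    induction hz using IntermediateField.adjoin_induction with
    | mem x hx => exact h2 x hx
    | algebraMap x => simp
    | add x y _ _ hx hy => rw [map_add, hx, hy]
    | inv x _ hx => rw [map_inv₀, hx]
    | mul x y _ _ hx hy => rw [map_mul, hx, hy]

end Pool.Agent.AHR
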